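import Mathlib

/-!
# Great circle arrangements (MP_07b414_co): basic definitions

`sl u v` is the slope of the line through two points of the plane.
`Conf K P` is the limit object of a sequence of great circle arrangements with bounded
area ratio, seen from the vertex with the smallest angle, in dual coordinates
(`(a, b)` stands for the line `y = a x + b`).
`Approx K R P` is the finite version at resolution `R`.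
-/

set_option autoImplicit false

namespace FT

/-- slope of the line through `u` and `v` -/
noncomputable def sl (u v : ℝ × ℝ) : ℝ := (v.2 - u.2) / (v.1 - u.1)

/-- the limit configurations -/
structure Conf (K : ℝ) (P : Set (ℝ × ℝ)) : Prop where
  sep : ∀ u ∈ P, ∀ v ∈ P, u ≠ v → 1 ≤ |v.1 - u.1|
  few : ∀ u ∈ P, ∀ v ∈ P, u ≠ v → ∀ U : ℝ, 0 < U → ∀ L : Finset (ℝ × ℝ),
    (∀ l ∈ L, l ∈ P ∧ 2 * |v.1 - u.1| ≤ |l.1 - u.1| ∧ |sl u l - sl u v| ≤ U) →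
    (L.card : ℝ) ≤ K * |v.1 - u.1| * U ^ 2
  row : ∀ u ∈ P, ∀ v ∈ P, u ≠ v → ∀ T : ℝ, K * |v.1 - u.1| ≤ T →
    ∃ R : Finset (ℝ × ℝ),
      (∀ l ∈ R, l ∈ P ∧ |l.1 - u.1| ≤ T ∧
        |l.2 - u.2 - sl u v * (l.1 - u.1)| ≤ K * (T * √T) / |v.1 - u.1|) ∧
      T / (K * |v.1 - u.1|) ≤ (R.card : ℝ)
  two : ∃ u ∈ P, ∃ v ∈ P, u ≠ v ∧ |v.1 - u.1| ≤ K

/-- finite approximate configurations, at resolution `R` -/
structure Approx (K R : ℝ) (P : Set (ℝ × ℝ)) : Prop where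
  sep : ∀ u ∈ P, ∀ v ∈ P, u ≠ v → |u.1| ≤ R → |u.2| ≤ R → |v.1| ≤ R → |v.2| ≤ R →
    1 ≤ |v.1 - u.1|
  few : ∀ u ∈ P, ∀ v ∈ P, u ≠ v → |u.1| ≤ R → |u.2| ≤ R → |v.1| ≤ R → |v.2| ≤ R →
    ∀ U : ℝ, 0 < U → ∀ L : Finset (ℝ × ℝ),
    (∀ l ∈ L, l ∈ P ∧ 3 / 2 * |v.1 - u.1| ≤ |l.1 - u.1| ∧ |sl u l - sl u v| ≤ U) →
    (L.card : ℝ) ≤ K * |v.1 - u.1| * U ^ 2
  row : ∀ u ∈ P, ∀ v ∈ P, u ≠ v → |u.1| ≤ R → |u.2| ≤ R → |v.1| ≤ R → |v.2| ≤ R →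
    ∀ T : ℝ, T ≤ R → K * |v.1 - u.1| ≤ T →
    ∃ L : Finset (ℝ × ℝ),
      (∀ l ∈ L, l ∈ P ∧ |l.1 - u.1| ≤ T ∧
        |l.2 - u.2 - sl u v * (l.1 - u.1)| ≤ K * (T * √T) / |v.1 - u.1|) ∧
      T / (K * |v.1 - u.1|) ≤ (L.card : ℝ)
  two : ∃ u ∈ P, ∃ v ∈ P, u ≠ v ∧ |u.1| ≤ K ∧ |u.2| ≤ K ∧ |v.1| ≤ K ∧ |v.2| ≤ K

end FT
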