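import Mathlib
import Pool.Agent.Work.MP_07b414_co.Defs

/-!
# Geometry part, file 1: affine functionals, volumes of sheared boxes
-/

set_option autoImplicit false

open MeasureTheory Filter Topology ENNReal

namespace FT

/-- linear functional with coefficients `(p, q, r)` -/
def lf (p q r : ℝ) (y : Fin 3 → ℝ) : ℝ := p * y 0 + q * y 1 + r * y 2

/-- cells inside a body `B` -/
def cellS {k : ℕ} (P Q R : Fin k → ℝ) (B : Set (Fin 3 → ℝ)) (s : Fin k → ℤˣ) :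
    Set (Fin 3 → ℝ) :=
  {y | y ∈ B ∧ ∀ i, 0 < ((s i : ℤ) : ℝ) * lf (P i) (Q i) (R i) y}

/-- the sign vector of a point -/
noncomputable def sgv {k : ℕ} (P Q R : Fin k → ℝ) (y : Fin 3 → ℝ) : Fin k → ℤˣ :=
  fun i => if 0 < lf (P i) (Q i) (R i) y then 1 else -1

lemma lf_smul (p q r c : ℝ) (y : Fin 3 → ℝ) : lf p q r (c • y) = c * lf p q r y := by
  simp [lf]; ring

lemma sgv_pos {k : ℕ} {P Q R : Fin k → ℝ} {y : Fin 3 → ℝ} {i : Fin k}
    (h : lf (P i) (Q i) (R i) y ≠ 0) :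
    0 < ((sgv P Q R y i : ℤ) : ℝ) * lf (P i) (Q i) (R i) y := by
  unfold sgv
  split_ifs with h1
  · simpa using h1
  · have : lf (P i) (Q i) (R i) y < 0 := lt_of_le_of_ne (not_lt.mp h1) h
    simp; exact this

/-- sign information transfers from the sign vector of `z` to the points of its cell -/
lemma sgv_mul {k : ℕ} {P Q R : Fin k → ℝ} {z y : Fin 3 → ℝ} {i : Fin k}
    (hz : lf (P i) (Q i) (R i) z ≠ 0)
    (hy : 0 < ((sgv P Q R z i : ℤ) : ℝ) * lf (P i) (Q i) (R i) y) :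
    0 < lf (P i) (Q i) (R i) z * lf (P i) (Q i) (R i) y := by
  have h1 := sgv_pos hz
  rcases Int.units_eq_one_or (sgv P Q R z i) with h | h
  · rw [h] at h1 hy; simp at h1 hy; positivity
  · rw [h] at h1 hy; simp at h1 hy; exact mul_pos_of_neg_of_neg h1 hy

/-- abstract setting: `k` functionals on space and a body `B`; every nonempty cell has volume
at least `κ` and every cell has volume at most `κ'` -/
structure Setting {k : ℕ} (P Q R : Fin k → ℝ) (B : Set (Fin 3 → ℝ)) (κ κ' : ℝ) : Prop where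
  κpos : 0 < κ
  meas : MeasurableSet B
  gp : ∀ i j l : Fin k, i ≠ j → j ≠ l → i ≠ l → ∀ y, lf (P i) (Q i) (R i) y = 0 →
    lf (P j) (Q j) (R j) y = 0 → lf (P l) (Q l) (R l) y = 0 → y = 0
  nz : ∀ i : Fin k, ¬ (P i = 0 ∧ Q i = 0 ∧ R i = 0)
  absorb : ∀ y, ∃ c : ℝ, 0 < c ∧ c • y ∈ B
  lo : ∀ s, (cellS P Q R B s).Nonempty → ENNReal.ofReal κ ≤ volume (cellS P Q R B s)
  hi : ∀ s, volume (cellS P Q R B s) ≤ ENNReal.ofReal κ'
  tle : ∀ y ∈ B, |y 2| ≤ 1

lemma continuous_lf (p q r : ℝ) : Continuous (lf p q r) := by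
  unfold lf; fun_prop

lemma measurableSet_cellS {k : ℕ} (P Q R : Fin k → ℝ) {B : Set (Fin 3 → ℝ)}
    (hB : MeasurableSet B) (s : Fin k → ℤˣ) : MeasurableSet (cellS P Q R B s) := by
  have : cellS P Q R B s = B ∩ ⋂ i, {y | 0 < ((s i : ℤ) : ℝ) * lf (P i) (Q i) (R i) y} := by
    ext y; simp [cellS]
  rw [this]
  refine hB.inter (MeasurableSet.iInter fun i => ?_)
  exact (isOpen_lt continuous_const (continuous_const.mul (continuous_lf _ _ _))).measurableSet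

lemma cellS_disjoint {k : ℕ} {P Q R : Fin k → ℝ} {B : Set (Fin 3 → ℝ)} {s t : Fin k → ℤˣ}
    (h : s ≠ t) : Disjoint (cellS P Q R B s) (cellS P Q R B t) := by
  rw [Set.disjoint_left]
  rintro y ⟨-, h1⟩ ⟨-, h2⟩
  apply h
  funext i
  have a := h1 i
  have b := h2 i
  rcases Int.units_eq_one_or (s i) with hs | hs <;> rcases Int.units_eq_one_or (t i) with ht | ht
  · rw [hs, ht]
  · rw [hs] at a; rw [ht] at b; simp at a b; linarith
  · rw [hs] at a; rw [ht] at b; simp at a b; linarith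
  · rw [hs, ht]

/-- counting cells inside a set of bounded volume -/
lemma count_cells {k : ℕ} {P Q R : Fin k → ℝ} {B : Set (Fin 3 → ℝ)} {κ κ' : ℝ}
    (hS : Setting P Q R B κ κ') {ι : Type*} (S : Finset ι) (z : ι → Fin 3 → ℝ)
    (hz : ∀ l ∈ S, ∀ i, lf (P i) (Q i) (R i) (z l) ≠ 0)
    (hinj : ∀ l ∈ S, ∀ l' ∈ S, l ≠ l' → sgv P Q R (z l) ≠ sgv P Q R (z l'))
    (W : Set (Fin 3 → ℝ)) (hW : ∀ l ∈ S, cellS P Q R B (sgv P Q R (z l)) ⊆ W)
    (V : ℝ) (hV0 : 0 ≤ V) (hV : volume W ≤ ENNReal.ofReal V) :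
    (S.card : ℝ) * κ ≤ V := by
  have h1 : ∀ l ∈ S, ENNReal.ofReal κ ≤ volume (cellS P Q R B (sgv P Q R (z l))) := by
    intro l hl
    apply hS.lo
    obtain ⟨c, hc, hcB⟩ := hS.absorb (z l)
    refine ⟨c • z l, hcB, fun i => ?_⟩
    rw [lf_smul]
    have := sgv_pos (hz l hl i)
    nlinarith
  have h2 : volume (⋃ l ∈ S, cellS P Q R B (sgv P Q R (z l)))
      = ∑ l ∈ S, volume (cellS P Q R B (sgv P Q R (z l))) := by
    apply measure_biUnion_finset
    · intro l hl l' hl' hne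
      exact cellS_disjoint (hinj l hl l' hl' hne)
    · intro l _
      exact measurableSet_cellS _ _ _ hS.meas _
  have h3 : volume (⋃ l ∈ S, cellS P Q R B (sgv P Q R (z l))) ≤ ENNReal.ofReal V :=
    (measure_mono (Set.iUnion₂_subset hW)).trans hV
  have h4 : ((S.card : ℝ≥0∞)) * ENNReal.ofReal κ ≤ ENNReal.ofReal V := by
    calc (S.card : ℝ≥0∞) * ENNReal.ofReal κ = ∑ l ∈ S, ENNReal.ofReal κ := by
          simp
      _ ≤ ∑ l ∈ S, volume (cellS P Q R B (sgv P Q R (z l))) := Finset.sum_le_sum h1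
      _ ≤ _ := by rw [← h2]; exact h3
  have h5 : ENNReal.ofReal ((S.card : ℝ) * κ) ≤ ENNReal.ofReal V := by
    rw [ENNReal.ofReal_mul (by positivity), ENNReal.ofReal_natCast]
    exact h4
  exact (ENNReal.ofReal_le_ofReal_iff hV0).mp h5

/-- the linear map `(y0, y1, y2) ↦ (y0 - α y2, y1 - β y2 - γ y0, y2)` -/
noncomputable def shr (α β γ : ℝ) : (Fin 3 → ℝ) →ₗ[ℝ] (Fin 3 → ℝ) :=
  Matrix.toLin' !![1, 0, -α; -γ, 1, -β; 0, 0, 1]

lemma shr_apply (α β γ : ℝ) (y : Fin 3 → ℝ) :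
    shr α β γ y = ![y 0 - α * y 2, y 1 - β * y 2 - γ * y 0, y 2] := by
  unfold shr
  rw [Matrix.toLin'_apply]
  ext i
  fin_cases i <;> simp [Matrix.mulVec, dotProduct, Fin.sum_univ_three] <;> ring

lemma shr_det (α β γ : ℝ) : LinearMap.det (shr α β γ) = 1 := by
  unfold shr
  rw [LinearMap.det_toLin', Matrix.det_fin_three]
  simp

lemma volume_shr (α β γ : ℝ) (W : Set (Fin 3 → ℝ)) :
    volume ((shr α β γ) ⁻¹' W) = volume W := by
  rw [MeasureTheory.Measure.addHaar_preimage_linearMap _ (by rw [shr_det]; norm_num)]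
  rw [shr_det]; simp

/-- volume of an open box -/
lemma volume_box (a b : Fin 3 → ℝ) :
    volume {y : Fin 3 → ℝ | ∀ i, a i < y i ∧ y i < b i}
      = ENNReal.ofReal (b 0 - a 0) * ENNReal.ofReal (b 1 - a 1) * ENNReal.ofReal (b 2 - a 2) := by
  have : {y : Fin 3 → ℝ | ∀ i, a i < y i ∧ y i < b i} = Set.pi Set.univ (fun i => Set.Ioo (a i) (b i)) := by
    ext y; simp [Set.mem_pi]
  rw [this, Real.volume_pi_Ioo, Fin.prod_univ_three]

lemma volume_cbox (a b : Fin 3 → ℝ) :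
    volume {y : Fin 3 → ℝ | ∀ i, a i ≤ y i ∧ y i ≤ b i}
      = ENNReal.ofReal (b 0 - a 0) * ENNReal.ofReal (b 1 - a 1) * ENNReal.ofReal (b 2 - a 2) := by
  have : {y : Fin 3 → ℝ | ∀ i, a i ≤ y i ∧ y i ≤ b i} = Set.Icc a b := by
    ext y
    simp only [Set.mem_ofPred_eq, Set.mem_Icc, Pi.le_def]
    exact forall_and
  rw [this, Real.volume_Icc_pi, Fin.prod_univ_three]

end FT
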