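import Mathlib
import Pool.Agent.Work.MP_07b414_co.Geo1

/-!
# Geometry part, file 2: cells next to the crossings on a line
-/

set_option autoImplicit false

open MeasureTheory Filter Topology ENNReal

namespace FT

lemma quad_ne (c0 c1 c2 : ℝ) (h : ¬ (c0 = 0 ∧ c1 = 0 ∧ c2 = 0)) :
    ∀ᶠ ε in 𝓝[>] (0 : ℝ), c0 + c1 * ε + c2 * ε ^ 2 ≠ 0 := by
  by_cases h0 : c0 = 0
  · by_cases h1 : c1 = 0
    · have h2 : c2 ≠ 0 := fun h2 => h ⟨h0, h1, h2⟩
      filter_upwards [self_mem_nhdsWithin] with ε hε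
      have : (0 : ℝ) < ε := hε
      rw [h0, h1]
      simp [h2, this.ne']
    · have hc : ContinuousAt (fun ε : ℝ => c1 + c2 * ε) 0 := by fun_prop
      have hne : (fun ε : ℝ => c1 + c2 * ε) 0 ≠ 0 := by simpa using h1
      filter_upwards [self_mem_nhdsWithin, nhdsWithin_le_nhds (hc.eventually_ne hne)] with ε hε h3
      have hp : (0 : ℝ) < ε := hε
      have : c0 + c1 * ε + c2 * ε ^ 2 = ε * (c1 + c2 * ε) := by rw [h0]; ring
      rw [this]
      exact mul_ne_zero hp.ne' h3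
  · have hc : ContinuousAt (fun ε : ℝ => c0 + c1 * ε + c2 * ε ^ 2) 0 := by fun_prop
    have hne : (fun ε : ℝ => c0 + c1 * ε + c2 * ε ^ 2) 0 ≠ 0 := by simpa using h0
    exact nhdsWithin_le_nhds (hc.eventually_ne hne)

lemma ev_pos {f : ℝ → ℝ} (hc : Continuous f) (h0 : 0 < f 0) :
    ∀ᶠ ε in 𝓝[>] (0 : ℝ), 0 < f ε :=
  nhdsWithin_le_nhds (hc.continuousAt.eventually (lt_mem_nhds h0))

/-- the test point next to the crossing at `x` -/
noncomputable def zz (m x ε : ℝ) : Fin 3 → ℝ := ![x * (1 - ε), m * x * ε ^ 2, 1]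

lemma lf_zz (p q r m x ε : ℝ) :
    lf p q r (zz m x ε) = (p * x + r) + (-(p * x)) * ε + (q * m * x) * ε ^ 2 := by
  simp [lf, zz]; ring

lemma cross_cells {k : ℕ} {P Q R : Fin k → ℝ} {B : Set (Fin 3 → ℝ)} {κ κ' : ℝ}
    (hS : Setting P Q R B κ κ') (u v : Fin k) (huv : u ≠ v) (m : ℝ) (hm : m ≠ 0)
    (hPu : P u = 0) (hRu : R u = 0) (hPv : P v = -(m * Q v)) (hRv : R v = 0)
    (S : Finset (Fin k)) (hP : ∀ l ∈ S, P l ≠ 0) (hlu : ∀ l ∈ S, l ≠ u) (hlv : ∀ l ∈ S, l ≠ v) :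
    ∃ z : Fin k → Fin 3 → ℝ, (∀ l ∈ S, ∀ i, lf (P i) (Q i) (R i) (z l) ≠ 0) ∧
      (∀ l ∈ S, ∀ l' ∈ S, l ≠ l' → sgv P Q R (z l) ≠ sgv P Q R (z l')) ∧
      ∀ l ∈ S, ∀ y ∈ cellS P Q R B (sgv P Q R (z l)), ∃ a b : ℝ,
        y 0 = (-(R l) / P l) * a ∧ y 1 = m * (-(R l) / P l) * b ∧ 0 < b ∧ b < a ∧
        (a - y 2) + (Q l * m / P l) * b < 0 := by
  have hQu : Q u ≠ 0 := fun h => hS.nz u ⟨hPu, h, hRu⟩
  have hQv : Q v ≠ 0 := fun h => hS.nz v ⟨by rw [hPv, h]; simp, h, hRv⟩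
  have hRl : ∀ l ∈ S, R l ≠ 0 := by
    intro l hl h
    have := hS.gp u v l huv (hlv l hl).symm (hlu l hl).symm ![0, 0, 1] (by simp [lf, hRu])
      (by simp [lf, hRv]) (by simp [lf, h])
    have h2 := congrFun this 2
    simp at h2
  set X : Fin k → ℝ := fun l => -(R l) / P l with hX
  have hX0 : ∀ l ∈ S, X l ≠ 0 := fun l hl =>
    div_ne_zero (neg_ne_zero.mpr (hRl l hl)) (hP l hl)
  have hXP : ∀ l ∈ S, P l * X l = - R l := fun l hl => by
    rw [hX]; field_simp [hP l hl]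
  have hXne : ∀ l ∈ S, ∀ l' ∈ S, l ≠ l' → X l ≠ X l' := by
    intro l hl l' hl' hne heq
    have := hS.gp u l l' (hlu l hl).symm hne (hlu l' hl').symm ![X l, 0, 1]
      (by simp [lf, hRu, hPu]) (by simp [lf, hXP l hl]) (by simp [lf, heq, hXP l' hl'])
    have h2 := congrFun this 2
    simp at h2
  -- the eventual properties
  have e1 : ∀ᶠ ε in 𝓝[>] (0 : ℝ), ∀ l ∈ S, ∀ i, lf (P i) (Q i) (R i) (zz m (X l) ε) ≠ 0 := by
    rw [Finset.eventually_all]
    intro l hl
    rw [eventually_all]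
    intro i
    have := quad_ne (P i * X l + R i) (-(P i * X l)) (Q i * m * X l) (by
      rintro ⟨h0, h1, h2⟩
      have hp : P i = 0 := by
        have := mul_eq_zero.mp (neg_eq_zero.mp h1)
        exact this.resolve_right (hX0 l hl)
      have hq : Q i = 0 := by
        have h3 := (mul_eq_zero.mp h2).resolve_right (hX0 l hl)
        exact (mul_eq_zero.mp h3).resolve_right hm
      exact hS.nz i ⟨hp, hq, by simpa [hp] using h0⟩)
    filter_upwards [this] with ε h
    rw [lf_zz]; exact h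
  have e2 : ∀ᶠ ε in 𝓝[>] (0 : ℝ), ∀ l ∈ S,
      lf (P l) (Q l) (R l) (zz m (X l) ε) * (P l * X l) < 0 := by
    rw [Finset.eventually_all]
    intro l hl
    have h1 : ∀ᶠ ε in 𝓝[>] (0 : ℝ), 0 < (P l) ^ 2 * (X l) ^ 2 - Q l * P l * m * (X l) ^ 2 * ε :=
      ev_pos (f := fun ε => (P l) ^ 2 * (X l) ^ 2 - Q l * P l * m * (X l) ^ 2 * ε) (by fun_prop)
        (by
          have := hP l hl
          have := hX0 l hl
          simp only [mul_zero, sub_zero]
          positivity)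
    filter_upwards [self_mem_nhdsWithin, h1] with ε hε h
    have hp : (0 : ℝ) < ε := hε
    rw [lf_zz, hXP l hl]
    have : (-R l + R l + -(-R l) * ε + Q l * m * X l * ε ^ 2) * -R l
        = - (ε * ((P l) ^ 2 * (X l) ^ 2 - Q l * P l * m * (X l) ^ 2 * ε)) := by
      have h2 := hXP l hl
      have h3 : R l = -(P l * X l) := by linarith
      rw [h3]; ring
    rw [this]
    have := mul_pos hp h
    linarith
  have e3 : ∀ᶠ ε in 𝓝[>] (0 : ℝ), ∀ l ∈ S, ∀ l' ∈ S, 0 < (X l - X l') * X l' →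
      0 < lf (P l') (Q l') (R l') (zz m (X l) ε) * (P l' * X l') := by
    rw [Finset.eventually_all]
    intro l hl
    rw [Finset.eventually_all]
    intro l' hl'
    by_cases h : 0 < (X l - X l') * X l'
    · have h1 : ∀ᶠ ε in 𝓝[>] (0 : ℝ), 0 < ((P l' * X l + R l') + (-(P l' * X l)) * ε +
          (Q l' * m * X l) * ε ^ 2) * (P l' * X l') :=
        ev_pos (f := fun ε => ((P l' * X l + R l') + (-(P l' * X l)) * ε +
          (Q l' * m * X l) * ε ^ 2) * (P l' * X l')) (by fun_prop)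
        (by
          have h2 := hXP l' hl'
          have h3 : R l' = -(P l' * X l') := by linarith
          have h4 : 0 < (P l') ^ 2 := by have := hP l' hl'; positivity
          have : ((P l' * X l + R l') + (-(P l' * X l)) * 0 +
            (Q l' * m * X l) * 0 ^ 2) * (P l' * X l') = (P l') ^ 2 * ((X l - X l') * X l') := by
            rw [h3]; ring
          rw [this]; positivity)
      filter_upwards [h1] with ε hε _
      rw [lf_zz]; exact hε
    · exact Eventually.of_forall (fun ε h2 => absurd h2 h)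
  have e4 : ∀ᶠ ε in 𝓝[>] (0 : ℝ), 0 < 1 - ε - ε ^ 2 :=
    ev_pos (f := fun ε => 1 - ε - ε ^ 2) (by fun_prop) (by norm_num)
  obtain ⟨ε, hε, h1, h2, h3, h4⟩ := ((show ∀ᶠ ε in 𝓝[>] (0 : ℝ), (0 : ℝ) < ε from
    self_mem_nhdsWithin).and (e1.and (e2.and (e3.and e4)))).exists
  refine ⟨fun l => zz m (X l) ε, h1, ?_, ?_⟩
  · intro l hl l' hl' hne heq
    have key : ∀ i, 0 < lf (P i) (Q i) (R i) (zz m (X l) ε) * lf (P i) (Q i) (R i) (zz m (X l') ε) := by
      intro i
      apply sgv_mul (h1 l hl i)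
      have : sgv P Q R (zz m (X l) ε) i = sgv P Q R (zz m (X l') ε) i := congrFun heq i
      rw [this]
      exact sgv_pos (h1 l' hl' i)
    have hxx : 0 < X l * X l' := by
      have := key u
      rw [lf_zz, lf_zz, hPu, hRu] at this
      have h5 : (0 * X l + 0 + -(0 * X l) * ε + Q u * m * X l * ε ^ 2) *
        (0 * X l' + 0 + -(0 * X l') * ε + Q u * m * X l' * ε ^ 2)
          = (Q u * m * ε ^ 2) ^ 2 * (X l * X l') := by ring
      rw [h5] at this
      exact (pos_iff_pos_of_mul_pos this).mp (by positivity)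
    have hno : ∀ a ∈ S, ∀ b ∈ S, (∀ i, 0 < lf (P i) (Q i) (R i) (zz m (X a) ε) *
        lf (P i) (Q i) (R i) (zz m (X b) ε)) → (X a - X b) * X b ≤ 0 := by
      intro a ha b hb hk
      by_contra hcon
      push Not at hcon
      have g1 := h3 a ha b hb hcon
      have g2 := h2 b hb
      have g3 := hk b
      set A := lf (P b) (Q b) (R b) (zz m (X a) ε)
      set C := lf (P b) (Q b) (R b) (zz m (X b) ε)
      have g4 : (A * (P b * X b)) * (C * (P b * X b)) < 0 := mul_neg_of_pos_of_neg g1 g2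
      have g5 : (A * (P b * X b)) * (C * (P b * X b)) = (A * C) * (P b * X b) ^ 2 := by ring
      rw [g5] at g4
      have : 0 ≤ (A * C) * (P b * X b) ^ 2 := by positivity
      linarith
    have n1 := hno l hl l' hl' key
    have n2 := hno l' hl' l hl (fun i => by rw [mul_comm]; exact key i)
    apply hXne l hl l' hl' hne
    rcases lt_or_gt_of_ne (hX0 l hl) with hx | hx
    · have hx' : X l' < 0 := by nlinarith
      nlinarith
    · have hx' : 0 < X l' := by nlinarith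
      nlinarith
  · intro l hl y hy
    have hx := hX0 l hl
    have hp := hP l hl
    have hmx : m * X l ≠ 0 := mul_ne_zero hm hx
    have ku := sgv_mul (h1 l hl u) (hy.2 u)
    have kv := sgv_mul (h1 l hl v) (hy.2 v)
    have kl := sgv_mul (h1 l hl l) (hy.2 l)
    have gl := h2 l hl
    have hR : R l = -(P l * X l) := by have := hXP l hl; linarith
    refine ⟨y 0 / X l, y 1 / (m * X l), ?_, ?_, ?_, ?_, ?_⟩
    · change y 0 = X l * (y 0 / X l); field_simp
    · change y 1 = m * X l * (y 1 / (m * X l)); field_simp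
    · rw [lf_zz, hPu, hRu] at ku
      simp only [lf] at ku
      have : (0 * X l + 0 + -(0 * X l) * ε + Q u * m * X l * ε ^ 2) * (0 * y 0 + Q u * y 1 + 0 * y 2)
        = ((Q u) ^ 2 * ε ^ 2 * (m * X l) ^ 2) * (y 1 / (m * X l)) := by field_simp; ring
      rw [this] at ku
      exact (pos_iff_pos_of_mul_pos ku).mp (by positivity)
    · rw [lf_zz, hPv, hRv] at kv
      simp only [lf] at kv
      have : (-(m * Q v) * X l + 0 + -(-(m * Q v) * X l) * ε + Q v * m * X l * ε ^ 2) *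
          (-(m * Q v) * y 0 + Q v * y 1 + 0 * y 2)
        = ((Q v) ^ 2 * (1 - ε - ε ^ 2) * (m * X l) ^ 2) * (y 0 / X l - y 1 / (m * X l)) := by
        field_simp; ring
      rw [this] at kv
      have := (pos_iff_pos_of_mul_pos kv).mp (by positivity)
      linarith
    · set A := lf (P l) (Q l) (R l) (zz m (X l) ε)
      have g1 : (A * lf (P l) (Q l) (R l) y) * (A * (P l * X l)) < 0 := mul_neg_of_pos_of_neg kl gl
      have g2 : (A * lf (P l) (Q l) (R l) y) * (A * (P l * X l))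
        = (A ^ 2 * (P l * X l) ^ 2) * ((y 0 / X l - y 2) + (Q l * m / P l) * (y 1 / (m * X l))) := by
        rw [lf, hR]; field_simp; ring
      rw [g2] at g1
      by_contra hcon
      push Not at hcon
      have : 0 ≤ (A ^ 2 * (P l * X l) ^ 2) * ((y 0 / X l - y 2) + (Q l * m / P l) * (y 1 / (m * X l))) :=
        mul_nonneg (by positivity) hcon
      linarith

/-- volume bound for a box given by absolute values -/
lemma volume_abs_box {W : Set (Fin 3 → ℝ)} {a b c : ℝ} (ha : 0 ≤ a) (hb : 0 ≤ b) (hc : 0 ≤ c)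
    (hW : ∀ y ∈ W, |y 0| ≤ a ∧ |y 1| ≤ b ∧ |y 2| ≤ c) :
    volume W ≤ ENNReal.ofReal (8 * a * b * c) := by
  have h1 : W ⊆ {y : Fin 3 → ℝ | ∀ i, (![-a, -b, -c] : Fin 3 → ℝ) i ≤ y i ∧
      y i ≤ (![a, b, c] : Fin 3 → ℝ) i} := by
    intro y hy
    obtain ⟨h0, h1, h2⟩ := hW y hy
    intro i
    fin_cases i
    · simpa using abs_le.mp h0
    · simpa using abs_le.mp h1
    · simpa using abs_le.mp h2
  refine (measure_mono h1).trans ?_
  rw [volume_cbox]
  simp only [Matrix.cons_val_zero, Matrix.cons_val_one, Matrix.cons_val]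
  rw [← ENNReal.ofReal_mul (by linarith), ← ENNReal.ofReal_mul (by nlinarith)]
  apply ENNReal.ofReal_le_ofReal
  nlinarith

/-- few steep lines cross `L_u` near the crossing with `L_v` -/
lemma few_lines {k : ℕ} {P Q R : Fin k → ℝ} {B : Set (Fin 3 → ℝ)} {κ κ' : ℝ}
    (hS : Setting P Q R B κ κ') (u v : Fin k) (huv : u ≠ v) (m : ℝ) (hm : m ≠ 0)
    (hPu : P u = 0) (hRu : R u = 0) (hPv : P v = -(m * Q v)) (hRv : R v = 0)
    (U : ℝ) (hU : 0 ≤ U)
    (S : Finset (Fin k)) (hP : ∀ l ∈ S, P l ≠ 0) (hlu : ∀ l ∈ S, l ≠ u) (hlv : ∀ l ∈ S, l ≠ v)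
    (hst : ∀ l ∈ S, 3 / 2 * |m| * |Q l| ≤ |P l|) (hRU : ∀ l ∈ S, |R l| ≤ U * |P l|) :
    (S.card : ℝ) * κ ≤ 72 * |m| * U ^ 2 := by
  obtain ⟨z, hz, hinj, hc⟩ := cross_cells hS u v huv m hm hPu hRu hPv hRv S hP hlu hlv
  refine count_cells hS S z hz hinj
    {y | |y 0| ≤ 3 * U ∧ |y 1| ≤ 3 * (|m| * U) ∧ |y 2| ≤ 1} ?_ _ (by positivity) ?_
  · intro l hl y hy
    obtain ⟨a, b, h0, h1, hb, hba, h2⟩ := hc l hl y hy
    have ht := hS.tle y hy.1
    have hPl : 0 < |P l| := abs_pos.mpr (hP l hl)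
    have hx : |-(R l) / P l| ≤ U := by
      rw [abs_div, abs_neg, div_le_iff₀ hPl]
      exact hRU l hl
    have hκ : |Q l * m / P l| ≤ 2 / 3 := by
      rw [abs_div, abs_mul, div_le_iff₀ hPl]
      have := hst l hl
      nlinarith
    have hκb : -(2 / 3 * a) ≤ (Q l * m / P l) * b := by
      have := (abs_le.mp hκ).1
      nlinarith
    have ha3 : a ≤ 3 := by
      have := (abs_le.mp ht).2
      linarith
    have ha0 : 0 < a := hb.trans hba
    refine ⟨?_, ?_, ht⟩
    · rw [h0, abs_mul, abs_of_pos ha0]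
      nlinarith [abs_nonneg (-(R l) / P l)]
    · rw [h1, abs_mul, abs_mul, abs_of_pos hb]
      have h3 : |m| * |-(R l) / P l| ≤ |m| * U := mul_le_mul_of_nonneg_left hx (abs_nonneg m)
      have h4 : 0 ≤ |m| * |-(R l) / P l| := by positivity
      have h5 : b ≤ 3 := by linarith
      nlinarith
  · refine (volume_abs_box (a := 3 * U) (b := 3 * (|m| * U)) (c := 1) (by positivity)
      (by positivity) (by norm_num) (fun y hy => hy)).trans ?_
    apply ENNReal.ofReal_le_ofReal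
    nlinarith

/-- all cells next to the crossings on `L_u` lie in the lune between `L_u` and `L_v` -/
lemma lune_lines {k : ℕ} {P Q R : Fin k → ℝ} {B : Set (Fin 3 → ℝ)} {κ κ' : ℝ}
    (hS : Setting P Q R B κ κ') (u v : Fin k) (huv : u ≠ v) (m : ℝ) (hm : m ≠ 0)
    (hPu : P u = 0) (hRu : R u = 0) (hPv : P v = -(m * Q v)) (hRv : R v = 0)
    (hB : ∀ y ∈ B, |y 0| ≤ 1)
    (S : Finset (Fin k)) (hP : ∀ l ∈ S, P l ≠ 0) (hlu : ∀ l ∈ S, l ≠ u) (hlv : ∀ l ∈ S, l ≠ v) :
    (S.card : ℝ) * κ ≤ 8 * |m| := by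
  obtain ⟨z, hz, hinj, hc⟩ := cross_cells hS u v huv m hm hPu hRu hPv hRv S hP hlu hlv
  refine count_cells hS S z hz hinj
    {y | |y 0| ≤ 1 ∧ |y 1| ≤ |m| ∧ |y 2| ≤ 1} ?_ _ (by positivity) ?_
  · intro l hl y hy
    obtain ⟨a, b, h0, h1, hb, hba, h2⟩ := hc l hl y hy
    have ht := hS.tle y hy.1
    have h3 := hB y hy.1
    refine ⟨h3, ?_, ht⟩
    have ha0 : 0 < a := hb.trans hba
    rw [h0, abs_mul, abs_of_pos ha0] at h3
    rw [h1, abs_mul, abs_mul, abs_of_pos hb]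
    have h4 : |-(R l) / P l| * b ≤ |-(R l) / P l| * a :=
      mul_le_mul_of_nonneg_left hba.le (abs_nonneg _)
    nlinarith [abs_nonneg m]
  · refine (volume_abs_box (a := 1) (b := |m|) (c := 1) (by positivity)
      (by positivity) (by norm_num) (fun y hy => hy)).trans ?_
    apply ENNReal.ofReal_le_ofReal
    nlinarith

end FT
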