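import Mathlib
import Pool.Agent.Work.MP_07b414_co.Geo2

/-!
# Geometry part, file 3: many lines meet a large box
-/

set_option autoImplicit false

open MeasureTheory Filter Topology ENNReal

namespace FT

/-- an affine function without zeros on an open box has constant sign there -/
lemma same_sign {p q r α β w h x1 y1 x2 y2 : ℝ}
    (hno : ∀ ξ ζ : ℝ, α < ξ → ξ < α + w → β < ζ → ζ < β + h → p * ξ + q * ζ + r ≠ 0)
    (a1 : α < x1) (a2 : x1 < α + w) (a3 : β < y1) (a4 : y1 < β + h)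
    (b1 : α < x2) (b2 : x2 < α + w) (b3 : β < y2) (b4 : y2 < β + h) :
    0 < (p * x1 + q * y1 + r) * (p * x2 + q * y2 + r) := by
  set A := p * x1 + q * y1 + r with hA
  set C := p * x2 + q * y2 + r with hC
  have hA0 : A ≠ 0 := hno x1 y1 a1 a2 a3 a4
  have hC0 : C ≠ 0 := hno x2 y2 b1 b2 b3 b4
  by_contra hcon
  push Not at hcon
  have hlt : A * C < 0 := lt_of_le_of_ne hcon (mul_ne_zero hA0 hC0)
  have hAC : A - C ≠ 0 := by
    intro h
    have : A = C := by linarith
    rw [this] at hlt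
    nlinarith
  set τ := A / (A - C) with hτ
  have hsq : 0 < (A - C) ^ 2 := by positivity
  have t0 : 0 ≤ τ := by
    have : τ = (A * A - A * C) / (A - C) ^ 2 := by rw [hτ]; field_simp
    rw [this]
    apply div_nonneg _ hsq.le
    nlinarith
  have t1 : 0 ≤ 1 - τ := by
    have : 1 - τ = (C * C - A * C) / (A - C) ^ 2 := by rw [hτ]; field_simp; ring
    rw [this]
    apply div_nonneg _ hsq.le
    nlinarith
  have hs : (1 - τ) + τ = 1 := by ring
  have m1 := (convex_Ioo α (α + w)) (show x1 ∈ Set.Ioo α (α + w) from ⟨a1, a2⟩)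
    (show x2 ∈ Set.Ioo α (α + w) from ⟨b1, b2⟩) t1 t0 hs
  have m2 := (convex_Ioo β (β + h)) (show y1 ∈ Set.Ioo β (β + h) from ⟨a3, a4⟩)
    (show y2 ∈ Set.Ioo β (β + h) from ⟨b3, b4⟩) t1 t0 hs
  simp only [smul_eq_mul] at m1 m2
  apply hno _ _ m1.1 m1.2 m2.1 m2.2
  have : p * ((1 - τ) * x1 + τ * x2) + q * ((1 - τ) * y1 + τ * y2) + r = (1 - τ) * A + τ * C := by
    rw [hA, hC]; ring
  rw [this]
  have : (1 - τ) * A + τ * C = A - τ * (A - C) := by ring
  rw [this, hτ]
  field_simp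
  ring

/-- a box met by no line is small -/
lemma empty_box {k : ℕ} {P Q R : Fin k → ℝ} {B : Set (Fin 3 → ℝ)} {κ κ' : ℝ}
    (hS : Setting P Q R B κ κ') (hκ' : 0 ≤ κ') (α β w h : ℝ) (hw : 0 < w) (hh : 0 < h)
    (hB : ∀ y : Fin 3 → ℝ, α * y 2 < y 0 → y 0 < (α + w) * y 2 → β * y 2 < y 1 →
      y 1 < (β + h) * y 2 → 0 < y 2 → y 2 ≤ 1 / 2 → y ∈ B)
    (hno : ∀ l, ∀ ξ ζ : ℝ, α < ξ → ξ < α + w → β < ζ → ζ < β + h →
      P l * ξ + Q l * ζ + R l ≠ 0) :
    w * h ≤ 64 * κ' := by
  set s := sgv P Q R ![α + w / 2, β + h / 2, 1] with hs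
  have hz : ∀ l, lf (P l) (Q l) (R l) ![α + w / 2, β + h / 2, 1]
      = P l * (α + w / 2) + Q l * (β + h / 2) + R l := by
    intro l; simp [lf]
  have hsub : (shr α β 0) ⁻¹' {y | ∀ i, (![0, 0, 1 / 4] : Fin 3 → ℝ) i < y i ∧
      y i < (![w / 4, h / 4, 1 / 2] : Fin 3 → ℝ) i} ⊆ cellS P Q R B s := by
    intro y hy
    rw [Set.mem_preimage, shr_apply] at hy
    have g0 := hy 0
    have g1 := hy 1
    have g2 := hy 2
    simp only [Matrix.cons_val_zero, Matrix.cons_val_one, Matrix.cons_val] at g0 g1 g2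
    have y2p : 0 < y 2 := by linarith [g2.1]
    have c1 : α * y 2 < y 0 := by linarith [g0.1]
    have c2 : y 0 < (α + w) * y 2 := by nlinarith [g0.2, g2.1]
    have c3 : β * y 2 < y 1 := by linarith [g1.1]
    have c4 : y 1 < (β + h) * y 2 := by nlinarith [g1.2, g2.1]
    refine ⟨hB y c1 c2 c3 c4 y2p g2.2.le, fun l => ?_⟩
    have hzn : lf (P l) (Q l) (R l) ![α + w / 2, β + h / 2, 1] ≠ 0 := by
      rw [hz]
      apply hno <;> linarith
    have hpos := sgv_pos hzn
    have hss := same_sign (p := P l) (q := Q l) (r := R l) (x1 := α + w / 2) (y1 := β + h / 2)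
      (x2 := y 0 / y 2) (y2 := y 1 / y 2) (hno l)
      (by linarith) (by linarith) (by linarith) (by linarith)
      (by rw [lt_div_iff₀ y2p]; exact c1) (by rw [div_lt_iff₀ y2p]; exact c2)
      (by rw [lt_div_iff₀ y2p]; exact c3) (by rw [div_lt_iff₀ y2p]; exact c4)
    rw [← hz] at hss
    have hy' : lf (P l) (Q l) (R l) y = y 2 * (P l * (y 0 / y 2) + Q l * (y 1 / y 2) + R l) := by
      rw [lf]; field_simp
    rw [hy']
    rw [← hs] at hpos
    set Z := lf (P l) (Q l) (R l) ![α + w / 2, β + h / 2, 1]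
    set F := P l * (y 0 / y 2) + Q l * (y 1 / y 2) + R l
    rcases Int.units_eq_one_or (s l) with e | e
    · rw [e] at hpos ⊢
      simp only [Units.val_one, Int.cast_one, one_mul] at hpos ⊢
      have : 0 < F := (pos_iff_pos_of_mul_pos hss).mp hpos
      positivity
    · rw [e] at hpos ⊢
      simp only [Units.val_neg, Units.val_one, Int.cast_neg, Int.cast_one, neg_mul, one_mul,
        Left.neg_pos_iff] at hpos ⊢
      have : F < 0 := by nlinarith
      nlinarith
  have hv : ENNReal.ofReal (w / 4 * (h / 4) * (1 / 4)) ≤ ENNReal.ofReal κ' := by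
    have h1 := (measure_mono hsub).trans (hS.hi s)
    rw [volume_shr, volume_box] at h1
    simp only [Matrix.cons_val_zero, Matrix.cons_val_one, Matrix.cons_val] at h1
    rw [← ENNReal.ofReal_mul (by linarith), ← ENNReal.ofReal_mul (by nlinarith)] at h1
    have : (w / 4 - 0) * (h / 4 - 0) * (1 / 2 - 1 / 4) = w / 4 * (h / 4) * (1 / 4) := by ring
    rw [this] at h1
    exact h1
  have := (ENNReal.ofReal_le_ofReal_iff hκ').mp hv
  linarith

/-- a line meets at most `2g - 1` cells of a `g × g` grid -/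
lemma met_card {p q r α β w h : ℝ} (hw : 0 < w) (hh : 0 < h) (hpq : ¬ (p = 0 ∧ q = 0)) (g : ℕ)
    (A : Finset (ℕ × ℕ))
    (hA : ∀ a ∈ A, a.1 < g ∧ a.2 < g ∧ ∃ ξ ζ : ℝ, α + w * a.1 < ξ ∧ ξ < α + w * (a.1 + 1) ∧
      β + h * a.2 < ζ ∧ ζ < β + h * (a.2 + 1) ∧ p * ξ + q * ζ + r = 0) :
    A.card ≤ 2 * g - 1 := by
  -- comparison of indices
  have cmpx : ∀ (i i' : ℕ) (ξ ξ' : ℝ), i < i' → ξ < α + w * (i + 1) → α + w * i' < ξ' → ξ < ξ' := by
    intro i i' ξ ξ' hi h1 h2
    have : (i : ℝ) + 1 ≤ i' := by exact_mod_cast hi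
    nlinarith
  have cmpy : ∀ (i i' : ℕ) (ξ ξ' : ℝ), i < i' → ξ < β + h * (i + 1) → β + h * i' < ξ' → ξ < ξ' := by
    intro i i' ξ ξ' hi h1 h2
    have : (i : ℝ) + 1 ≤ i' := by exact_mod_cast hi
    nlinarith
  rcases le_or_gt (p * q) 0 with hs | hs
  · have bad : ∀ a ∈ A, ∀ b ∈ A, a.1 + a.2 = b.1 + b.2 → ¬ a.1 < b.1 := by
      intro a ha b hb hab hlt
      obtain ⟨-, -, ξ, ζ, x1, x2, y1, y2, e⟩ := hA a ha
      obtain ⟨-, -, ξ', ζ', x1', x2', y1', y2', e'⟩ := hA b hb
      have hx := cmpx _ _ _ _ hlt x2 x1'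
      have hy := cmpy b.2 a.2 ζ' ζ (by omega) y2' y1
      have e3 : p * (ξ - ξ') + q * (ζ - ζ') = 0 := by linarith
      have e4 : p ^ 2 * (ξ' - ξ) = (p * q) * (ζ - ζ') := by linear_combination (-p) * e3
      have e5 : q ^ 2 * (ζ - ζ') = (p * q) * (ξ' - ξ) := by linear_combination q * e3
      have e6 : (p * q) * (ζ - ζ') ≤ 0 := mul_nonpos_of_nonpos_of_nonneg hs (by linarith)
      have e7 : (p * q) * (ξ' - ξ) ≤ 0 := mul_nonpos_of_nonpos_of_nonneg hs (by linarith)
      apply hpq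
      constructor
      · by_contra hp
        have : 0 < p ^ 2 * (ξ' - ξ) := mul_pos (by positivity) (by linarith)
        linarith
      · by_contra hq
        have : 0 < q ^ 2 * (ζ - ζ') := mul_pos (by positivity) (by linarith)
        linarith
    have := Finset.card_le_card_of_injOn (s := A) (t := Finset.range (2 * g - 1))
      (fun a => a.1 + a.2)
      (by
        intro a ha
        have := hA a ha
        simp only [Finset.coe_range, Set.mem_Iio]
        omega)
      (by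
        intro a ha b hb hab
        simp only at hab
        have h1 := bad a ha b hb hab
        have h2 := bad b hb a ha hab.symm
        ext
        · omega
        · omega)
    simpa using this
  · have bad : ∀ a ∈ A, ∀ b ∈ A, a.1 + (g - 1 - a.2) = b.1 + (g - 1 - b.2) → ¬ a.1 < b.1 := by
      intro a ha b hb hab hlt
      obtain ⟨i1, i2, ξ, ζ, x1, x2, y1, y2, e⟩ := hA a ha
      obtain ⟨i1', i2', ξ', ζ', x1', x2', y1', y2', e'⟩ := hA b hb
      have hx := cmpx _ _ _ _ hlt x2 x1'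
      have hy := cmpy a.2 b.2 ζ ζ' (by omega) y2 y1'
      have e3 : p * (ξ - ξ') + q * (ζ - ζ') = 0 := by linarith
      have e4 : p ^ 2 * (ξ' - ξ) + (p * q) * (ζ' - ζ) = 0 := by linear_combination (-p) * e3
      have e6 : 0 < (p * q) * (ζ' - ζ) := mul_pos hs (by linarith)
      have e7 : 0 ≤ p ^ 2 * (ξ' - ξ) := mul_nonneg (by positivity) (by linarith)
      linarith
    have := Finset.card_le_card_of_injOn (s := A) (t := Finset.range (2 * g - 1))
      (fun a => a.1 + (g - 1 - a.2))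
      (by
        intro a ha
        have := hA a ha
        simp only [Finset.coe_range, Set.mem_Iio]
        omega)
      (by
        intro a ha b hb hab
        simp only at hab
        have h1 := bad a ha b hb hab
        have h2 := bad b hb a ha hab.symm
        have i1 := hA a ha
        have i2 := hA b hb
        ext
        · omega
        · omega)
    simpa using this

open Classical in
/-- many lines meet a large box -/
lemma box_lines {k : ℕ} {P Q R : Fin k → ℝ} {B : Set (Fin 3 → ℝ)} {κ κ' : ℝ}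
    (hS : Setting P Q R B κ κ') (hκ' : 0 ≤ κ') (X Y : ℝ) (hX : 0 < X) (hY : 0 < Y)
    (hB : ∀ y : Fin 3 → ℝ, |y 0| ≤ X * y 2 → |y 1| ≤ Y * y 2 → 0 < y 2 → y 2 ≤ 1 / 2 → y ∈ B)
    (g : ℕ) (hg : 1 ≤ g) (hgX : 64 * κ' * (g : ℝ) ^ 2 < 4 * X * Y) :
    ∃ N : Finset (Fin k), (g : ℝ) ≤ 2 * N.card ∧
      ∀ l ∈ N, ∃ ξ ζ : ℝ, |ξ| ≤ X ∧ |ζ| ≤ Y ∧ P l * ξ + Q l * ζ + R l = 0 := by
  set N : Finset (Fin k) := Finset.univ.filter
    (fun l => ∃ ξ ζ : ℝ, |ξ| ≤ X ∧ |ζ| ≤ Y ∧ P l * ξ + Q l * ζ + R l = 0) with hN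
  refine ⟨N, ?_, fun l hl => (Finset.mem_filter.mp hl).2⟩
  have hg0 : (0 : ℝ) < g := by exact_mod_cast hg
  set w := 2 * X / g with hw
  set h := 2 * Y / g with hh
  have wpos : 0 < w := by positivity
  have hpos : 0 < h := by positivity
  have wg : w * g = 2 * X := by rw [hw]; field_simp
  have hgg : h * g = 2 * Y := by rw [hh]; field_simp
  let A : Fin k → Finset (ℕ × ℕ) := fun l => (Finset.range g ×ˢ Finset.range g).filter
    (fun a => ∃ ξ ζ : ℝ, -X + w * a.1 < ξ ∧ ξ < -X + w * (a.1 + 1) ∧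
      -Y + h * a.2 < ζ ∧ ζ < -Y + h * (a.2 + 1) ∧ P l * ξ + Q l * ζ + R l = 0)
  have hcov : (Finset.range g ×ˢ Finset.range g) ⊆ N.biUnion A := by
    intro a ha
    have ha' := Finset.mem_product.mp ha
    have i1 : a.1 < g := Finset.mem_range.mp ha'.1
    have i2 : a.2 < g := Finset.mem_range.mp ha'.2
    have i1r : (a.1 : ℝ) + 1 ≤ g := by exact_mod_cast i1
    have i2r : (a.2 : ℝ) + 1 ≤ g := by exact_mod_cast i2
    have j1 : (0 : ℝ) ≤ a.1 := by positivity
    have j2 : (0 : ℝ) ≤ a.2 := by positivity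
    have bx : ∀ ξ : ℝ, -X + w * a.1 < ξ → ξ < -X + w * (a.1 + 1) → |ξ| ≤ X := by
      intro ξ h1 h2
      rw [abs_le]
      constructor
      · nlinarith
      · nlinarith
    have by' : ∀ ξ : ℝ, -Y + h * a.2 < ξ → ξ < -Y + h * (a.2 + 1) → |ξ| ≤ Y := by
      intro ξ h1 h2
      rw [abs_le]
      constructor
      · nlinarith
      · nlinarith
    by_contra hcon
    have hno : ∀ l, ∀ ξ ζ : ℝ, (-X + w * a.1) < ξ → ξ < (-X + w * a.1) + w →
        (-Y + h * a.2) < ζ → ζ < (-Y + h * a.2) + h → P l * ξ + Q l * ζ + R l ≠ 0 := by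
      intro l ξ ζ x1 x2 y1 y2 e
      apply hcon
      have x2' : ξ < -X + w * (a.1 + 1) := by linarith
      have y2' : ζ < -Y + h * (a.2 + 1) := by linarith
      rw [Finset.mem_biUnion]
      exact ⟨l, Finset.mem_filter.mpr ⟨Finset.mem_univ _, ξ, ζ, bx ξ x1 x2', by' ζ y1 y2', e⟩,
        Finset.mem_filter.mpr ⟨ha, ξ, ζ, x1, x2', y1, y2', e⟩⟩
    have := empty_box hS hκ' _ _ w h wpos hpos (by
      intro y c1 c2 c3 c4 c5 c6
      apply hB y _ _ c5 c6
      · have h1 : |y 0 / y 2| ≤ X := by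
          apply bx
          · rw [lt_div_iff₀ c5]; exact c1
          · rw [div_lt_iff₀ c5]; calc _ < _ := c2
              _ = _ := by ring
        rwa [abs_div, abs_of_pos c5, div_le_iff₀ c5] at h1
      · have h1 : |y 1 / y 2| ≤ Y := by
          apply by'
          · rw [lt_div_iff₀ c5]; exact c3
          · rw [div_lt_iff₀ c5]; calc _ < _ := c4
              _ = _ := by ring
        rwa [abs_div, abs_of_pos c5, div_le_iff₀ c5] at h1) hno
    have e1 : w * h * (g : ℝ) ^ 2 = 4 * X * Y := by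
      calc w * h * (g : ℝ) ^ 2 = (w * g) * (h * g) := by ring
        _ = _ := by rw [wg, hgg]; ring
    have e2 : w * h * (g : ℝ) ^ 2 ≤ 64 * κ' * (g : ℝ) ^ 2 :=
      mul_le_mul_of_nonneg_right this (by positivity)
    linarith
  have hcard : g * g ≤ N.card * (2 * g - 1) := by
    calc g * g = (Finset.range g ×ˢ Finset.range g).card := by simp
      _ ≤ (N.biUnion A).card := Finset.card_le_card hcov
      _ ≤ ∑ l ∈ N, (A l).card := Finset.card_biUnion_le
      _ ≤ ∑ _l ∈ N, (2 * g - 1) := by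
          apply Finset.sum_le_sum
          intro l hl
          by_cases hpq : P l = 0 ∧ Q l = 0
          · obtain ⟨ξ, ζ, -, -, e⟩ := (Finset.mem_filter.mp hl).2
            rw [hpq.1, hpq.2] at e
            exact absurd ⟨hpq.1, hpq.2, by simpa using e⟩ (hS.nz l)
          · apply met_card (α := -X) (β := -Y) wpos hpos hpq g
            intro a ha
            have := Finset.mem_filter.mp ha
            have h2 := Finset.mem_product.mp this.1
            exact ⟨Finset.mem_range.mp h2.1, Finset.mem_range.mp h2.2, this.2⟩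
      _ = N.card * (2 * g - 1) := by simp
  have h2 : g ≤ 2 * N.card := by
    have h3 : N.card * (2 * g - 1) ≤ N.card * (2 * g) := Nat.mul_le_mul_left _ (by omega)
    have h4 : g * g ≤ (2 * N.card) * g := by
      calc g * g ≤ N.card * (2 * g) := hcard.trans h3
        _ = _ := by ring
    exact Nat.le_of_mul_le_mul_right h4 hg
  exact_mod_cast h2

/-- many lines of bounded slope pass near the crossing of `L_u` and `L_v` -/
lemma row_lines {k : ℕ} {P Q R : Fin k → ℝ} {B : Set (Fin 3 → ℝ)} {κ κ' : ℝ}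
    (hS : Setting P Q R B κ κ') (hκ' : 0 ≤ κ') (u v : Fin k) (huv : u ≠ v) (m : ℝ) (hm : m ≠ 0)
    (hPu : P u = 0) (hRu : R u = 0) (hPv : P v = -(m * Q v)) (hRv : R v = 0)
    (T X : ℝ) (hX : 0 < X) (hT : 3 / 2 * |m| ≤ T)
    (hB : ∀ y : Fin 3 → ℝ, |y 0| ≤ X * y 2 → |y 1| ≤ T * X * y 2 → 0 < y 2 → y 2 ≤ 1 / 2 → y ∈ B)
    (g : ℕ) (hg : 1 ≤ g) (hgX : 64 * κ' * (g : ℝ) ^ 2 < 4 * X * (T * X)) :
    ∃ N : Finset (Fin k), (g : ℝ) / 2 ≤ N.card + 288 * |m| * X ^ 2 / κ ∧
      ∀ l ∈ N, Q l ≠ 0 ∧ |P l| ≤ T * |Q l| ∧ |R l| ≤ 2 * (T * X) * |Q l| := by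
  have hmp : 0 < |m| := abs_pos.mpr hm
  have hTp : 0 < T := by nlinarith
  obtain ⟨N, hN, hNl⟩ := box_lines hS hκ' X (T * X) hX (by positivity) hB g hg hgX
  have hR : ∀ l ∈ N, |R l| ≤ |P l| * X + |Q l| * (T * X) := by
    intro l hl
    obtain ⟨ξ, ζ, h1, h2, e⟩ := hNl l hl
    have : R l = -(P l * ξ) + -(Q l * ζ) := by linarith
    rw [this]
    refine (abs_add_le _ _).trans ?_
    rw [abs_neg, abs_neg, abs_mul, abs_mul]
    exact add_le_add (mul_le_mul_of_nonneg_left h1 (abs_nonneg _))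
      (mul_le_mul_of_nonneg_left h2 (abs_nonneg _))
  classical
  refine ⟨N.filter (fun l => |P l| ≤ T * |Q l|), ?_, ?_⟩
  · have hfew := few_lines hS u v huv m hm hPu hRu hPv hRv (2 * X) (by positivity)
      (N.filter (fun l => ¬ |P l| ≤ T * |Q l|))
      (by
        intro l hl h0
        have := (Finset.mem_filter.mp hl).2
        rw [h0, abs_zero] at this
        exact this (by positivity))
      (by
        intro l hl h0
        have := (Finset.mem_filter.mp hl).2
        rw [h0, hPu, abs_zero] at this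
        exact this (by positivity))
      (by
        intro l hl h0
        have := (Finset.mem_filter.mp hl).2
        rw [h0, hPv, abs_neg, abs_mul] at this
        apply this
        apply mul_le_mul_of_nonneg_right _ (abs_nonneg _)
        linarith)
      (by
        intro l hl
        have := (Finset.mem_filter.mp hl).2
        push Not at this
        have h2 : 3 / 2 * |m| * |Q l| ≤ T * |Q l| := mul_le_mul_of_nonneg_right hT (abs_nonneg _)
        linarith)
      (by
        intro l hl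
        have h1 := Finset.mem_filter.mp hl
        have h2 := h1.2
        push Not at h2
        have h3 := hR l h1.1
        have h4 : |Q l| * (T * X) ≤ |P l| * X := by nlinarith
        linarith)
    have hsplit := Finset.card_filter_add_card_filter_not (s := N) (fun l => |P l| ≤ T * |Q l|)
    have hsplit' : ((N.filter (fun l => |P l| ≤ T * |Q l|)).card : ℝ) +
        ((N.filter (fun l => ¬ |P l| ≤ T * |Q l|)).card : ℝ) = N.card := by exact_mod_cast hsplit
    have h5 : ((N.filter (fun l => ¬ |P l| ≤ T * |Q l|)).card : ℝ) ≤ 288 * |m| * X ^ 2 / κ := by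
      rw [le_div_iff₀ hS.κpos]
      refine hfew.trans (le_of_eq ?_)
      ring
    linarith
  · intro l hl
    have h1 := Finset.mem_filter.mp hl
    have h2 := h1.2
    have h3 := hR l h1.1
    refine ⟨?_, h2, ?_⟩
    · intro hQ
      obtain ⟨ξ, ζ, -, -, e⟩ := hNl l h1.1
      rw [hQ, abs_zero, mul_zero] at h2
      have hP : P l = 0 := abs_eq_zero.mp (le_antisymm h2 (abs_nonneg _))
      rw [hP, hQ] at e
      exact hS.nz l ⟨hP, hQ, by simpa using e⟩
    · have : |P l| * X ≤ T * |Q l| * X := mul_le_mul_of_nonneg_right h2 hX.le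
      linarith

end FT
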