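import Mathlib
import Pool.Agent.Work.MP_07b414_co.Geo3

/-!
# Geometry part, file 4: transfer from Euclidean space to the abstract setting
-/

set_option autoImplicit false

open MeasureTheory Filter Topology ENNReal

namespace FT

/-- Euclidean 3-space -/
abbrev E3 := EuclideanSpace ℝ (Fin 3)

/-- cells in the unit ball -/
def cellE {k : ℕ} (n : Fin k → E3) (s : Fin k → ℤˣ) : Set E3 :=
  {x | ‖x‖ ≤ 1 ∧ ∀ i, 0 < ((s i : ℤ) : ℝ) * inner ℝ (n i) x}

/-- coordinates with respect to an orthonormal basis, as a measurable equivalence -/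
noncomputable def coE (b : OrthonormalBasis (Fin 3) ℝ E3) : E3 ≃ᵐ (Fin 3 → ℝ) :=
  b.measurableEquiv.trans (MeasurableEquiv.toLp 2 (Fin 3 → ℝ)).symm

lemma coE_mp (b : OrthonormalBasis (Fin 3) ℝ E3) :
    MeasurePreserving (coE b) volume volume :=
  b.measurePreserving_measurableEquiv.trans
    (EuclideanSpace.volume_preserving_symm_measurableEquiv_toLp (Fin 3))

lemma coE_apply (b : OrthonormalBasis (Fin 3) ℝ E3) (x : E3) (i : Fin 3) :
    coE b x i = inner ℝ (b i) x := by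
  have : coE b x i = b.repr x i := rfl
  rw [this, b.repr_apply_apply]

lemma inner_eq (b : OrthonormalBasis (Fin 3) ℝ E3) (x y : E3) :
    inner ℝ x y = coE b x 0 * coE b y 0 + coE b x 1 * coE b y 1 + coE b x 2 * coE b y 2 := by
  rw [← b.sum_inner_mul_inner x y, Fin.sum_univ_three]
  simp only [coE_apply]
  rw [real_inner_comm (b 0) x, real_inner_comm (b 1) x, real_inner_comm (b 2) x]

lemma norm_sq_eq (b : OrthonormalBasis (Fin 3) ℝ E3) (x : E3) :
    ‖x‖ ^ 2 = coE b x 0 ^ 2 + coE b x 1 ^ 2 + coE b x 2 ^ 2 := by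
  rw [← real_inner_self_eq_norm_sq, inner_eq b]; ring

/-- the linear change of coordinates -/
noncomputable def chg (lx ly α β γ : ℝ) : (Fin 3 → ℝ) →ₗ[ℝ] (Fin 3 → ℝ) :=
  Matrix.toLin' !![1 / lx, 0, -α; -(γ / lx), 1 / ly, -β; 0, 0, 1]

lemma chg_apply (lx ly α β γ : ℝ) (x : Fin 3 → ℝ) :
    chg lx ly α β γ x = ![x 0 / lx - α * x 2, x 1 / ly - β * x 2 - γ * (x 0 / lx), x 2] := by
  unfold chg
  rw [Matrix.toLin'_apply]
  ext i
  fin_cases i <;> simp [Matrix.mulVec, dotProduct, Fin.sum_univ_three] <;> ring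

lemma chg_det (lx ly α β γ : ℝ) : LinearMap.det (chg lx ly α β γ) = 1 / lx * (1 / ly) := by
  unfold chg
  rw [LinearMap.det_toLin', Matrix.det_fin_three]
  simp

/-- inverse of `chg` -/
def inv3 (lx ly α β γ : ℝ) (y : Fin 3 → ℝ) : Fin 3 → ℝ :=
  ![lx * (y 0 + α * y 2), ly * (y 1 + β * y 2 + γ * (y 0 + α * y 2)), y 2]

lemma chg_inv3 {lx ly : ℝ} (hx : 0 < lx) (hy : 0 < ly) (α β γ : ℝ) (y : Fin 3 → ℝ) :
    chg lx ly α β γ (inv3 lx ly α β γ y) = y := by
  rw [chg_apply]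
  ext i
  fin_cases i
  · simp [inv3]; field_simp; ring
  · simp [inv3]; field_simp; ring
  · simp [inv3]

lemma inv3_chg {lx ly : ℝ} (hx : 0 < lx) (hy : 0 < ly) (α β γ : ℝ) (x : Fin 3 → ℝ) :
    inv3 lx ly α β γ (chg lx ly α β γ x) = x := by
  rw [chg_apply]
  ext i
  fin_cases i
  · simp [inv3]; field_simp
  · simp [inv3]; field_simp; ring
  · simp [inv3]

lemma volume_chg {lx ly : ℝ} (hx : 0 < lx) (hy : 0 < ly) (α β γ : ℝ) (W : Set (Fin 3 → ℝ)) :
    volume ((chg lx ly α β γ) ⁻¹' W) = ENNReal.ofReal (lx * ly) * volume W := by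
  rw [MeasureTheory.Measure.addHaar_preimage_linearMap _ (by rw [chg_det]; positivity)]
  rw [chg_det]
  congr 2
  rw [abs_of_pos (by positivity)]
  field_simp

/-- the image of the unit ball -/
def Bd (lx ly α β γ : ℝ) : Set (Fin 3 → ℝ) :=
  {y | (lx * (y 0 + α * y 2)) ^ 2 + (ly * (y 1 + β * y 2 + γ * (y 0 + α * y 2))) ^ 2 + y 2 ^ 2 ≤ 1}

/-- coefficient families of the transformed functionals -/
noncomputable def PP {k : ℕ} (n : Fin k → E3) (b : OrthonormalBasis (Fin 3) ℝ E3)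
    (lx ly γ : ℝ) (i : Fin k) : ℝ := coE b (n i) 0 * lx + coE b (n i) 1 * ly * γ

noncomputable def QQ {k : ℕ} (n : Fin k → E3) (b : OrthonormalBasis (Fin 3) ℝ E3)
    (ly : ℝ) (i : Fin k) : ℝ := coE b (n i) 1 * ly

noncomputable def RR {k : ℕ} (n : Fin k → E3) (b : OrthonormalBasis (Fin 3) ℝ E3)
    (lx ly α β γ : ℝ) (i : Fin k) : ℝ :=
  coE b (n i) 0 * lx * α + coE b (n i) 1 * ly * (β + γ * α) + coE b (n i) 2

/-- families of unit vectors whose cells have comparable volume -/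
structure Fam {k : ℕ} (n : Fin k → E3) (M a0 : ℝ) : Prop where
  unit : ∀ i, ‖n i‖ = 1
  gp : ∀ i j l : Fin k, i ≠ j → j ≠ l → i ≠ l → ∀ x : E3, inner ℝ (n i) x = 0 →
    inner ℝ (n j) x = 0 → inner ℝ (n l) x = 0 → x = 0
  ind : ∀ i j : Fin k, i ≠ j → ∀ c : ℝ, n j ≠ c • n i
  apos : 0 < a0
  Mone : 1 ≤ M
  lo : ∀ s, (cellE n s).Nonempty → ENNReal.ofReal (a0 / M) ≤ volume (cellE n s)
  hi : ∀ s, volume (cellE n s) ≤ ENNReal.ofReal (a0 * M)

lemma lf_chg {k : ℕ} (n : Fin k → E3) (b : OrthonormalBasis (Fin 3) ℝ E3) {lx ly : ℝ}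
    (hx : 0 < lx) (hy : 0 < ly) (α β γ : ℝ) (i : Fin k) (x : E3) :
    lf (PP n b lx ly γ i) (QQ n b ly i) (RR n b lx ly α β γ i) (chg lx ly α β γ (coE b x))
      = inner ℝ (n i) x := by
  rw [inner_eq b, chg_apply]
  simp only [lf, PP, QQ, RR, Matrix.cons_val_zero, Matrix.cons_val_one, Matrix.cons_val]
  field_simp
  ring

lemma mem_Bd {lx ly : ℝ} (hx : 0 < lx) (hy : 0 < ly) (α β γ : ℝ)
    (b : OrthonormalBasis (Fin 3) ℝ E3) (x : E3) :
    chg lx ly α β γ (coE b x) ∈ Bd lx ly α β γ ↔ ‖x‖ ≤ 1 := by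
  have h := inv3_chg hx hy α β γ (coE b x)
  have h0 := congrFun h 0
  have h1 := congrFun h 1
  have h2 := congrFun h 2
  simp only [inv3, Matrix.cons_val_zero, Matrix.cons_val_one, Matrix.cons_val] at h0 h1 h2
  unfold Bd
  simp only [Set.mem_ofPred_eq]
  rw [h0, h1, h2, ← norm_sq_eq b x]
  constructor
  · intro h; nlinarith [norm_nonneg x]
  · intro h; nlinarith [norm_nonneg x]

lemma setting_of_fam {k : ℕ} {n : Fin k → E3} {M a0 : ℝ} (hF : Fam n M a0)
    (b : OrthonormalBasis (Fin 3) ℝ E3) {lx ly : ℝ} (hx : 0 < lx) (hy : 0 < ly)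
    (α β γ : ℝ) {κ κ' : ℝ} (hκ0 : 0 < κ) (hκ : lx * ly * κ = a0 / M)
    (hκ' : lx * ly * κ' = a0 * M) :
    Setting (PP n b lx ly γ) (QQ n b ly) (RR n b lx ly α β γ) (Bd lx ly α β γ) κ κ' := by
  have hpre : ∀ s, cellE n s = (coE b) ⁻¹' ((chg lx ly α β γ) ⁻¹'
      (cellS (PP n b lx ly γ) (QQ n b ly) (RR n b lx ly α β γ) (Bd lx ly α β γ) s)) := by
    intro s
    ext x
    simp only [cellE, cellS, Set.mem_preimage, Set.mem_ofPred_eq]
    rw [mem_Bd hx hy]
    simp only [lf_chg n b hx hy α β γ]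
  have hvol : ∀ s, volume (cellE n s) = ENNReal.ofReal (lx * ly) *
      volume (cellS (PP n b lx ly γ) (QQ n b ly) (RR n b lx ly α β γ) (Bd lx ly α β γ) s) := by
    intro s
    rw [hpre s, (coE_mp b).measure_preimage_equiv, volume_chg hx hy]
  have hpt : ∀ y : Fin 3 → ℝ, ∃ x : E3, chg lx ly α β γ (coE b x) = y := by
    intro y
    refine ⟨(coE b).symm (inv3 lx ly α β γ y), ?_⟩
    rw [MeasurableEquiv.apply_symm_apply, chg_inv3 hx hy]
  have hlxly : 0 < lx * ly := mul_pos hx hy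
  have hne0 : ENNReal.ofReal (lx * ly) ≠ 0 := by
    rw [Ne, ENNReal.ofReal_eq_zero]; linarith
  have hM : 0 < M := lt_of_lt_of_le one_pos hF.Mone
  refine ⟨hκ0, ?_, ?_, ?_, ?_, ?_, ?_, ?_⟩
  · have hc : Continuous (fun y : Fin 3 → ℝ => (lx * (y 0 + α * y 2)) ^ 2 +
      (ly * (y 1 + β * y 2 + γ * (y 0 + α * y 2))) ^ 2 + y 2 ^ 2) := by fun_prop
    exact (isClosed_le hc continuous_const).measurableSet
  · intro i j l hij hjl hil y h1 h2 h3
    obtain ⟨x, rfl⟩ := hpt y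
    rw [lf_chg n b hx hy] at h1 h2 h3
    have hx0 := hF.gp i j l hij hjl hil x h1 h2 h3
    have hc0 : coE b x = 0 := by
      ext i; rw [coE_apply, hx0, inner_zero_right]; rfl
    rw [hc0, map_zero]
  · rintro i ⟨h1, h2, h3⟩
    have hu := hF.unit i
    have e1 : inner ℝ (n i) (n i) = (0 : ℝ) := by
      rw [← lf_chg n b hx hy α β γ i (n i), h1, h2, h3]; simp [lf]
    rw [real_inner_self_eq_norm_sq, hu] at e1
    norm_num at e1
  · intro y
    set q := (lx * (y 0 + α * y 2)) ^ 2 +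
      (ly * (y 1 + β * y 2 + γ * (y 0 + α * y 2))) ^ 2 + y 2 ^ 2 with hq
    have hq0 : 0 ≤ q := by positivity
    refine ⟨1 / (1 + q), by positivity, ?_⟩
    have : (lx * ((1 / (1 + q) * y 0) + α * (1 / (1 + q) * y 2))) ^ 2 +
      (ly * ((1 / (1 + q) * y 1) + β * (1 / (1 + q) * y 2) + γ * ((1 / (1 + q) * y 0) + α * (1 / (1 + q) * y 2)))) ^ 2
        + (1 / (1 + q) * y 2) ^ 2 = q / (1 + q) ^ 2 := by
      rw [hq]; field_simp
    simp only [Bd, Set.mem_ofPred_eq, Pi.smul_apply, smul_eq_mul]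
    rw [this, div_le_one (by positivity)]
    nlinarith
  · intro s hs
    have hne : (cellE n s).Nonempty := by
      obtain ⟨y, hy'⟩ := hs
      obtain ⟨x, rfl⟩ := hpt y
      exact ⟨x, by rw [hpre s]; exact hy'⟩
    have h1 := hF.lo s hne
    rw [hvol s, ← hκ, ENNReal.ofReal_mul hlxly.le] at h1
    exact (ENNReal.mul_le_mul_iff_right hne0 ENNReal.ofReal_ne_top).mp h1
  · intro s
    have h1 := hF.hi s
    rw [hvol s, ← hκ', ENNReal.ofReal_mul hlxly.le] at h1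
    exact (ENNReal.mul_le_mul_iff_right hne0 ENNReal.ofReal_ne_top).mp h1
  · intro y hy'
    have h1 : (y 2) ^ 2 ≤ 1 := by
      have := hy'
      simp only [Bd, Set.mem_ofPred_eq] at this
      nlinarith [sq_nonneg (lx * (y 0 + α * y 2)),
        sq_nonneg (ly * (y 1 + β * y 2 + γ * (y 0 + α * y 2)))]
    exact (sq_le_one_iff_abs_le_one _).mp h1

end FT
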