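import Mathlib
import Pool.Agent.Work.MP_07b414_co.Geo4

/-!
# Geometry part, file 5: from the hypothesis to `Fam`, the closest pair, the lune bound
-/

set_option autoImplicit false

open MeasureTheory Filter Topology ENNReal

namespace FT

lemma cellE_isOpen_inter {k : ℕ} (n : Fin k → E3) (s : Fin k → ℤˣ) :
    IsOpen {x : E3 | ‖x‖ < 1 ∧ ∀ i, 0 < ((s i : ℤ) : ℝ) * inner ℝ (n i) x} := by
  have : {x : E3 | ‖x‖ < 1 ∧ ∀ i, 0 < ((s i : ℤ) : ℝ) * inner ℝ (n i) x}
      = {x : E3 | ‖x‖ < 1} ∩ ⋂ i, {x : E3 | 0 < ((s i : ℤ) : ℝ) * inner ℝ (n i) x} := by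
    ext x; simp
  rw [this]
  refine (isOpen_lt continuous_norm continuous_const).inter (isOpen_iInter_of_finite fun i => ?_)
  exact isOpen_lt continuous_const (by fun_prop)

lemma cellE_pos {k : ℕ} {n : Fin k → E3} {s : Fin k → ℤˣ} (h : (cellE n s).Nonempty) :
    0 < volume (cellE n s) := by
  obtain ⟨x, hx1, hx2⟩ := h
  have hsub : {x : E3 | ‖x‖ < 1 ∧ ∀ i, 0 < ((s i : ℤ) : ℝ) * inner ℝ (n i) x} ⊆ cellE n s :=
    fun y hy => ⟨hy.1.le, hy.2⟩
  refine lt_of_lt_of_le ?_ (measure_mono hsub)
  refine (cellE_isOpen_inter n s).measure_pos volume ⟨(1 / 2 : ℝ) • x, ?_, fun i => ?_⟩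
  · rw [norm_smul]
    simp only [one_div, norm_inv, Real.norm_ofNat]
    linarith
  · rw [real_inner_smul_right]
    have := hx2 i
    nlinarith

lemma cellE_fin {k : ℕ} (n : Fin k → E3) (s : Fin k → ℤˣ) :
    volume (cellE n s) ≠ ∞ := by
  have hsub : cellE n s ⊆ Metric.closedBall (0 : E3) 1 := by
    intro x hx
    simpa using hx.1
  exact ((measure_mono hsub).trans_lt measure_closedBall_lt_top).ne

/-- some cell is nonempty -/
lemma exists_cell {k : ℕ} {n : Fin k → E3} (hn : ∀ i, n i ≠ 0) :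
    ∃ s, (cellE n s).Nonempty := by
  set b : OrthonormalBasis (Fin 3) ℝ E3 := EuclideanSpace.basisFun (Fin 3) ℝ
  have e1 : ∀ᶠ ε in 𝓝[>] (0 : ℝ), ∀ i, coE b (n i) 0 + coE b (n i) 1 * ε
      + coE b (n i) 2 * ε ^ 2 ≠ 0 := by
    rw [eventually_all]
    intro i
    apply quad_ne
    rintro ⟨h0, h1, h2⟩
    apply hn i
    have := norm_sq_eq b (n i)
    rw [h0, h1, h2] at this
    have h3 : ‖n i‖ = 0 := by nlinarith [norm_nonneg (n i)]
    exact norm_eq_zero.mp h3
  obtain ⟨ε, hε⟩ := e1.exists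
  set x : E3 := (coE b).symm ![1, ε, ε ^ 2] with hx
  have hcx : coE b x = ![1, ε, ε ^ 2] := by rw [hx, MeasurableEquiv.apply_symm_apply]
  have hne : ∀ i, inner ℝ (n i) x ≠ 0 := by
    intro i
    rw [inner_eq b, hcx]
    simpa using hε i
  refine ⟨fun i => if 0 < inner ℝ (n i) x then 1 else -1, (1 / (1 + ‖x‖)) • x, ?_, fun i => ?_⟩
  · rw [norm_smul, Real.norm_of_nonneg (by positivity), one_div, inv_mul_le_iff₀ (by positivity)]
    linarith
  · rw [real_inner_smul_right]
    have hp : 0 < 1 / (1 + ‖x‖) := by positivity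
    dsimp only
    split_ifs with h
    · simp only [Units.val_one, Int.cast_one, one_mul]
      positivity
    · have h' : inner ℝ (n i) x < 0 := lt_of_le_of_ne (not_lt.mp h) (hne i)
      simp only [Units.val_neg, Units.val_one, Int.cast_neg, Int.cast_one, neg_mul, one_mul,
        Left.neg_pos_iff]
      exact mul_neg_of_pos_of_neg hp h'

/-- from the hypothesis on `v` to a family of unit vectors -/
lemma fam_of_hyp {k : ℕ} (hk : 3 ≤ k) {M : ℝ} (v : Fin k → E3)
    (hv : ∀ i j l, i ≠ j → j ≠ l → i ≠ l → LinearIndependent ℝ ![v i, v j, v l])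
    (hvol : ∀ s t : Fin k → ℤˣ, 0 < volume (cellE v s) → 0 < volume (cellE v t) →
      volume (cellE v s) < ENNReal.ofReal M * volume (cellE v t)) :
    ∃ (n : Fin k → E3) (a0 : ℝ), Fam n M a0 := by
  -- distinct third indices exist
  have third : ∀ i j : Fin k, ∃ l, l ≠ i ∧ l ≠ j := by
    intro i j
    by_contra hcon
    push Not at hcon
    have : (Finset.univ : Finset (Fin k)) ⊆ {i, j} := by
      intro l _
      by_cases h : l = i
      · simp [h]
      · simp [hcon l h]
    have := Finset.card_le_card this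
    rw [Finset.card_univ, Fintype.card_fin] at this
    have h2 := Finset.card_le_two (a := i) (b := j)
    omega
  have other : ∀ i : Fin k, ∃ j, i ≠ j := fun i => by
    obtain ⟨l, hl, -⟩ := third i i
    exact ⟨l, hl.symm⟩
  have hindv : ∀ i j : Fin k, i ≠ j → ∀ c : ℝ, v j ≠ c • v i := by
    intro i j hij c h
    obtain ⟨l, hl1, hl2⟩ := third i j
    have hli := hv i j l hij hl2.symm hl1.symm
    rw [Fintype.linearIndependent_iff] at hli
    have := hli ![c, -1, 0] (by
      simp [Fin.sum_univ_three, h]) 1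
    simp at this
  have hv0 : ∀ i, v i ≠ 0 := by
    intro i h
    obtain ⟨j, hij⟩ := other i
    exact hindv j i hij.symm 0 (by rw [h]; simp)
  set n : Fin k → E3 := fun i => (1 / ‖v i‖) • v i with hn
  have hnp : ∀ i, 0 < 1 / ‖v i‖ := fun i => by
    have := norm_pos_iff.mpr (hv0 i); positivity
  have hvn : ∀ i x, inner ℝ (n i) x = (1 / ‖v i‖) * inner ℝ (v i) x := by
    intro i x; rw [hn]; simp only [real_inner_smul_left]
  have hcell : ∀ s, cellE n s = cellE v s := by
    intro s
    ext x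
    simp only [cellE, Set.mem_ofPred_eq]
    refine and_congr_right (fun _ => forall_congr' fun i => ?_)
    rw [hvn]
    have : ((s i : ℤ) : ℝ) * (1 / ‖v i‖ * inner ℝ (v i) x)
        = (1 / ‖v i‖) * (((s i : ℤ) : ℝ) * inner ℝ (v i) x) := by ring
    rw [this]
    exact mul_pos_iff_of_pos_left (hnp i)
  obtain ⟨s0, hs0⟩ := exists_cell (n := v) hv0
  have hpos0 := cellE_pos hs0
  have hfin0 := cellE_fin v s0
  set a0 := (volume (cellE v s0)).toReal with ha0
  have ha0p : 0 < a0 := ENNReal.toReal_pos hpos0.ne' hfin0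
  have hofa : ENNReal.ofReal a0 = volume (cellE v s0) := ENNReal.ofReal_toReal hfin0
  have hM : 1 < M := by
    have h1 := hvol s0 s0 hpos0 hpos0
    rw [← hofa] at h1
    rcases le_or_gt M 0 with h | h
    · rw [ENNReal.ofReal_of_nonpos h, zero_mul] at h1
      exact absurd h1 _root_.not_lt_zero
    · rw [← ENNReal.ofReal_mul h.le, ENNReal.ofReal_lt_ofReal_iff (by positivity)] at h1
      nlinarith
  refine ⟨n, a0, ?_, ?_, ?_, ha0p, hM.le, ?_, ?_⟩
  · intro i
    rw [hn]
    simp only [norm_smul]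
    have := norm_pos_iff.mpr (hv0 i)
    rw [Real.norm_of_nonneg (by positivity)]
    field_simp
  · intro i j l hij hjl hil x h1 h2 h3
    have hvz : ∀ i, inner ℝ (n i) x = 0 → inner ℝ (v i) x = 0 := by
      intro i h
      rw [hvn] at h
      exact (mul_eq_zero.mp h).resolve_left (hnp i).ne'
    have hli := hv i j l hij hjl hil
    have hcard : Fintype.card (Fin 3) = Module.finrank ℝ E3 := by simp
    set bb := basisOfLinearIndependentOfCardEqFinrank hli hcard
    apply InnerProductSpace.ext_inner_left_basis bb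
    intro a
    rw [inner_zero_right]
    have hbb : bb a = ![v i, v j, v l] a := by
      simp [bb]
    rw [hbb]
    fin_cases a
    · simpa using hvz i h1
    · simpa using hvz j h2
    · simpa using hvz l h3
  · intro i j hij c h
    have h1 := hindv i j hij (c * ‖v j‖ * (1 / ‖v i‖))
    apply h1
    have h2 : v j = ‖v j‖ • n j := by
      rw [hn]
      simp only [smul_smul]
      have := norm_pos_iff.mpr (hv0 j)
      rw [mul_one_div_cancel this.ne', one_smul]
    have h3 : c • n i = (c * (1 / ‖v i‖)) • v i := by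
      rw [hn]; simp only [smul_smul]
    rw [h3] at h
    calc v j = ‖v j‖ • n j := h2
      _ = ‖v j‖ • ((c * (1 / ‖v i‖)) • v i) := by rw [h]
      _ = _ := by rw [smul_smul]; congr 1; ring
  · intro s hs
    rw [hcell] at hs ⊢
    have h1 := hvol s0 s hpos0 (cellE_pos hs)
    have h2 := cellE_fin v s
    rw [← hofa, ← ENNReal.ofReal_toReal h2, ← ENNReal.ofReal_mul (by linarith),
      ENNReal.ofReal_lt_ofReal_iff_of_nonneg ha0p.le] at h1
    rw [← ENNReal.ofReal_toReal h2]
    apply ENNReal.ofReal_le_ofReal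
    rw [div_le_iff₀ (by linarith)]
    linarith
  · intro s
    rw [hcell]
    rcases Set.eq_empty_or_nonempty (cellE v s) with h | h
    · rw [h]; simp
    · have h1 := hvol s s0 (cellE_pos h) hpos0
      rw [← hofa, ← ENNReal.ofReal_mul (by linarith)] at h1
      rw [mul_comm a0 M]
      exact h1.le

/-- the pair with the largest squared inner product (smallest angle) -/
lemma closest {k : ℕ} (hk : 2 ≤ k) (n : Fin k → E3) :
    ∃ i0 j0 : Fin k, i0 ≠ j0 ∧ ∀ i j, i ≠ j →
      (inner ℝ (n i) (n j) : ℝ) ^ 2 ≤ (inner ℝ (n i0) (n j0) : ℝ) ^ 2 := by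
  have hne : (Finset.univ : Finset (Fin k)).offDiag.Nonempty := by
    refine ⟨(⟨0, by omega⟩, ⟨1, by omega⟩), ?_⟩
    simp
  obtain ⟨⟨i0, j0⟩, h1, h2⟩ := Finset.exists_max_image _
    (fun a : Fin k × Fin k => (inner ℝ (n a.1) (n a.2) : ℝ) ^ 2) hne
  refine ⟨i0, j0, by simpa using h1, fun i j hij => ?_⟩
  exact h2 (i, j) (by simpa using hij)

/-- pigeonhole on the sphere -/
lemma pigeon : ∃ N : ℕ, ∀ k, N < k → ∀ n : Fin k → E3, (∀ i, ‖n i‖ = 1) →
    ∃ i j, i ≠ j ∧ 3 / 4 ≤ (inner ℝ (n i) (n j) : ℝ) ^ 2 := by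
  have htb := (isCompact_closedBall (0 : E3) 1).totallyBounded
  rw [Metric.totallyBounded_iff] at htb
  obtain ⟨t, htf, ht⟩ := htb (1 / 4) (by norm_num)
  refine ⟨htf.toFinset.card, fun k hk n hn => ?_⟩
  have hy : ∀ i, ∃ y ∈ t, n i ∈ Metric.ball y (1 / 4) := by
    intro i
    have : n i ∈ ⋃ y ∈ t, Metric.ball y (1 / 4) := ht (by simp [hn i])
    simpa using this
  choose y hyt hyb using hy
  obtain ⟨i, -, j, -, hij, heq⟩ := Finset.exists_ne_map_eq_of_card_lt_of_maps_to
    (s := (Finset.univ : Finset (Fin k))) (t := htf.toFinset) (by simpa using hk)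
    (f := y) (fun i _ => by simpa using hyt i)
  refine ⟨i, j, hij, ?_⟩
  have h1 := Metric.mem_ball.mp (hyb i)
  have h2 := Metric.mem_ball.mp (hyb j)
  rw [← heq] at h2
  have h3 : dist (n i) (n j) < 1 / 2 := by
    calc dist (n i) (n j) ≤ dist (n i) (y i) + dist (y i) (n j) := dist_triangle _ _ _
      _ < 1 / 4 + 1 / 4 := by rw [dist_comm (y i)]; exact add_lt_add h1 h2
      _ = 1 / 2 := by norm_num
  rw [dist_eq_norm] at h3
  have h4 : ‖n i - n j‖ ^ 2 < 1 / 4 := by nlinarith [norm_nonneg (n i - n j)]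
  rw [norm_sub_sq_real, hn i, hn j] at h4
  nlinarith

/-- an orthonormal frame adapted to two unit vectors -/
lemma frame {x y : E3} (hx : ‖x‖ = 1) (hy : ‖y‖ = 1) {θ : ℝ} (hθ : 0 < θ)
    (hθ2 : θ ^ 2 + (inner ℝ x y : ℝ) ^ 2 = 1) :
    ∃ b : OrthonormalBasis (Fin 3) ℝ E3, coE b x = ![0, 1, 0] ∧
      coE b y = ![θ, inner ℝ x y, 0] := by
  set β : ℝ := inner ℝ x y with hβ
  set w : E3 := (1 / θ) • (y - β • x) with hw
  have hxx : (inner ℝ x x : ℝ) = 1 := by rw [real_inner_self_eq_norm_sq, hx]; norm_num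
  have hyy : (inner ℝ y y : ℝ) = 1 := by rw [real_inner_self_eq_norm_sq, hy]; norm_num
  have hyx : (inner ℝ y x : ℝ) = β := by rw [real_inner_comm]
  have hwx : (inner ℝ w x : ℝ) = 0 := by
    rw [hw, real_inner_smul_left, inner_sub_left, real_inner_smul_left, hyx, hxx]; ring
  have hww : (inner ℝ w w : ℝ) = 1 := by
    rw [hw, real_inner_smul_left, real_inner_smul_right, inner_sub_left, inner_sub_right,
      inner_sub_right, real_inner_smul_left, real_inner_smul_left, real_inner_smul_right,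
      real_inner_smul_right, hyx, hxx, hyy, ← hβ]
    field_simp
    linarith
  have hwn : ‖w‖ = 1 := by
    have : ‖w‖ ^ 2 = 1 := by rw [← real_inner_self_eq_norm_sq, hww]
    nlinarith [norm_nonneg w]
  have hyw : y = θ • w + β • x := by
    rw [hw, smul_smul, mul_one_div_cancel hθ.ne', one_smul]; abel
  clear_value w
  have hON : Orthonormal ℝ (({0, 1} : Set (Fin 3)).domRestrict (![w, x, 0] : Fin 3 → E3)) := by
    constructor
    · rintro ⟨i, hi⟩
      rcases hi with rfl | hi
      · change ‖w‖ = 1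
        exact hwn
      · rw [Set.mem_singleton_iff] at hi
        subst hi
        change ‖x‖ = 1
        exact hx
    · rintro ⟨i, hi⟩ ⟨j, hj⟩ hij
      have hij' : i ≠ j := fun h => hij (Subtype.ext h)
      rcases hi with rfl | hi <;> rcases hj with rfl | hj
      · exact absurd rfl hij'
      · rw [Set.mem_singleton_iff] at hj; subst hj
        change (inner ℝ w x : ℝ) = 0
        exact hwx
      · rw [Set.mem_singleton_iff] at hi; subst hi
        change (inner ℝ x w : ℝ) = 0
        rw [real_inner_comm]; exact hwx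
      · rw [Set.mem_singleton_iff] at hi hj
        exact absurd (hi.trans hj.symm) hij'
  obtain ⟨b, hb⟩ := hON.exists_orthonormalBasis_extension_of_card_eq (by simp)
  have b0 : b 0 = w := by simpa using hb 0 (by simp)
  have b1 : b 1 = x := by simpa using hb 1 (by simp)
  have h01 : (inner ℝ (b 2) (b 0) : ℝ) = 0 := b.orthonormal.2 (by decide)
  have h02 : (inner ℝ (b 2) (b 1) : ℝ) = 0 := b.orthonormal.2 (by decide)
  rw [b0] at h01
  rw [b1] at h02
  refine ⟨b, ?_, ?_⟩
  · ext i
    rw [coE_apply]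
    fin_cases i
    · simp [b0, hwx]
    · simp [b1, hx]
    · simp [h02]
  · ext i
    rw [coE_apply]
    fin_cases i
    · simp only [Fin.zero_eta, b0, Matrix.cons_val_zero]
      rw [hyw, inner_add_right, real_inner_smul_right, real_inner_smul_right, hww, hwx]; ring
    · simp only [Fin.mk_one, b1, Matrix.cons_val_one]
      exact hβ.symm
    · simp only [Fin.reduceFinMk, Matrix.cons_val]
      rw [hyw, inner_add_right, real_inner_smul_right, real_inner_smul_right, h01, h02]; ring

/-- the lune bound: the smallest angle is much larger than the area of a cell -/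
lemma lune_bound {k : ℕ} {n : Fin k → E3} {M a0 : ℝ} (hF : Fam n M a0)
    (i0 j0 : Fin k) (hij : i0 ≠ j0) {θ β : ℝ} (b : OrthonormalBasis (Fin 3) ℝ E3)
    (h1 : coE b (n i0) = ![0, 1, 0]) (h2 : coE b (n j0) = ![θ, β, 0]) (hθ : 0 < θ) (hβ : β ≠ 0) :
    ((k : ℝ) - 3) * (a0 / M) ≤ 8 * (θ / |β|) := by
  have hM : 0 < M := lt_of_lt_of_le one_pos hF.Mone
  have hS := setting_of_fam hF b (lx := 1) (ly := 1) one_pos one_pos 0 0 0
    (κ := a0 / M) (κ' := a0 * M) (div_pos hF.apos hM) (by ring) (by ring)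
  have hPP : ∀ i, PP n b 1 1 0 i = coE b (n i) 0 := fun i => by simp [PP]
  have hQQ : ∀ i, QQ n b 1 i = coE b (n i) 1 := fun i => by simp [QQ]
  have hRR : ∀ i, RR n b 1 1 0 0 0 i = coE b (n i) 2 := fun i => by simp [RR]
  classical
  set S : Finset (Fin k) := Finset.univ.filter (fun l => PP n b 1 1 0 l ≠ 0 ∧ l ≠ j0) with hSd
  have hPu : PP n b 1 1 0 i0 = 0 := by rw [hPP, h1]; simp
  have key := lune_lines hS i0 j0 hij (-(θ / β)) (by
      rw [neg_ne_zero]; exact div_ne_zero hθ.ne' hβ) hPu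
    (by rw [hRR, h1]; simp) (by rw [hPP, hQQ, h2]; simp; field_simp)
    (by rw [hRR, h2]; simp)
    (by
      intro y hy
      have : (y 0) ^ 2 ≤ 1 := by
        have := hy
        simp only [Bd, Set.mem_ofPred_eq] at this
        nlinarith [sq_nonneg (y 1), sq_nonneg (y 2)]
      exact (sq_le_one_iff_abs_le_one _).mp this)
    S (fun l hl => (Finset.mem_filter.mp hl).2.1)
    (fun l hl h => (Finset.mem_filter.mp hl).2.1 (by rw [h]; exact hPu))
    (fun l hl => (Finset.mem_filter.mp hl).2.2)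
  have hm : |-(θ / β)| = θ / |β| := by rw [abs_neg, abs_div, abs_of_pos hθ]
  rw [hm] at key
  have hcard : k ≤ S.card + 3 := by
    have hz : (Finset.univ.filter (fun l => PP n b 1 1 0 l = 0)).card ≤ 2 := by
      by_contra hcon
      push Not at hcon
      obtain ⟨a, ha, c, hc, d, hd, hac, had, hcd⟩ := Finset.two_lt_card.mp hcon
      have := hS.gp a c d hac hcd had ![1, 0, 0]
        (by simpa [lf] using (Finset.mem_filter.mp ha).2)
        (by simpa [lf] using (Finset.mem_filter.mp hc).2)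
        (by simpa [lf] using (Finset.mem_filter.mp hd).2)
      have := congrFun this 0
      simp at this
    have hsub : (Finset.univ : Finset (Fin k)) ⊆
        S ∪ (Finset.univ.filter (fun l => PP n b 1 1 0 l = 0) ∪ {j0}) := by
      intro l _
      simp only [hSd, Finset.mem_union, Finset.mem_filter, Finset.mem_univ, true_and,
        Finset.mem_singleton]
      by_cases h : PP n b 1 1 0 l = 0
      · right; left; exact h
      · by_cases h' : l = j0
        · right; right; exact h'
        · left; exact ⟨h, h'⟩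
    have h3 := Finset.card_le_card hsub
    rw [Finset.card_univ, Fintype.card_fin] at h3
    have h4 := Finset.card_union_le S (Finset.univ.filter (fun l => PP n b 1 1 0 l = 0) ∪ {j0})
    have h5 := Finset.card_union_le (Finset.univ.filter (fun l => PP n b 1 1 0 l = 0)) {j0}
    rw [Finset.card_singleton] at h5
    omega
  have hcard' : (k : ℝ) - 3 ≤ S.card := by
    have : (k : ℝ) ≤ S.card + 3 := by exact_mod_cast hcard
    linarith
  have h6 : ((k : ℝ) - 3) * (a0 / M) ≤ S.card * (a0 / M) :=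
    mul_le_mul_of_nonneg_right hcard' (div_pos hF.apos hM).le
  linarith

end FT
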