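import Mathlib
import Pool.Agent.Work.MP_07b414_co.Geo5

/-!
# Geometry part, file 6: the approximate configurations
-/

set_option autoImplicit false

open MeasureTheory Filter Topology ENNReal

namespace FT

lemma Approx.mono {K R R' : ℝ} {P : Set (ℝ × ℝ)} (h : Approx K R' P) (hR : R ≤ R') :
    Approx K R P where
  sep := fun u hu v hv huv h1 h2 h3 h4 =>
    h.sep u hu v hv huv (h1.trans hR) (h2.trans hR) (h3.trans hR) (h4.trans hR)
  few := fun u hu v hv huv h1 h2 h3 h4 =>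
    h.few u hu v hv huv (h1.trans hR) (h2.trans hR) (h3.trans hR) (h4.trans hR)
  row := fun u hu v hv huv h1 h2 h3 h4 T hT =>
    h.row u hu v hv huv (h1.trans hR) (h2.trans hR) (h3.trans hR) (h4.trans hR) T (hT.trans hR)
  two := h.two

/-- slope of the line of a circle in the rescaled chart -/
noncomputable def AA {k : ℕ} (n : Fin k → E3) (b : OrthonormalBasis (Fin 3) ℝ E3)
    (lx ly : ℝ) (i : Fin k) : ℝ := -(coE b (n i) 0 * lx) / (coE b (n i) 1 * ly)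

/-- intercept -/
noncomputable def BB {k : ℕ} (n : Fin k → E3) (b : OrthonormalBasis (Fin 3) ℝ E3)
    (ly : ℝ) (i : Fin k) : ℝ := -(coE b (n i) 2) / (coE b (n i) 1 * ly)

section
variable {k : ℕ} {n : Fin k → E3} {b : OrthonormalBasis (Fin 3) ℝ E3} {lx ly : ℝ}

lemma AA_mul (hy : 0 < ly) {i : Fin k} (hq : coE b (n i) 1 ≠ 0) :
    coE b (n i) 0 * lx = -(AA n b lx ly i * QQ n b ly i) := by
  unfold AA QQ; field_simp

lemma BB_mul (hy : 0 < ly) {i : Fin k} (hq : coE b (n i) 1 ≠ 0) :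
    coE b (n i) 2 = -(BB n b ly i * QQ n b ly i) := by
  unfold BB QQ; field_simp

lemma PP_eq (hy : 0 < ly) {i : Fin k} (hq : coE b (n i) 1 ≠ 0) (γ : ℝ) :
    PP n b lx ly γ i = -((AA n b lx ly i - γ) * QQ n b ly i) := by
  unfold PP
  rw [AA_mul hy hq]; unfold QQ; ring

lemma RR_eq (hy : 0 < ly) {i : Fin k} (hq : coE b (n i) 1 ≠ 0) (α β γ : ℝ) :
    RR n b lx ly α β γ i
      = -(((BB n b ly i - β) + α * (AA n b lx ly i - γ)) * QQ n b ly i) := by
  unfold RR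
  rw [AA_mul hy hq, BB_mul hy hq]; unfold QQ; ring

lemma QQ_ne (hy : 0 < ly) {i : Fin k} (hq : coE b (n i) 1 ≠ 0) : QQ n b ly i ≠ 0 :=
  mul_ne_zero hq hy.ne'

lemma pt_inj {M a0 : ℝ} (hF : Fam n M a0) (hx : 0 < lx) (hy : 0 < ly) {i j : Fin k}
    (hqi : coE b (n i) 1 ≠ 0) (hqj : coE b (n j) 1 ≠ 0)
    (hA : AA n b lx ly i = AA n b lx ly j) (hB : BB n b ly i = BB n b ly j) : i = j := by
  by_contra hij
  apply hF.ind i j hij (coE b (n j) 1 / coE b (n i) 1)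
  set c := coE b (n j) 1 / coE b (n i) 1 with hc
  have hcq : c * coE b (n i) 1 = coE b (n j) 1 := by rw [hc]; field_simp
  have h0 : coE b (n j) 0 = c * coE b (n i) 0 := by
    have e1 := AA_mul (lx := lx) hy hqi
    have e2 := AA_mul (lx := lx) hy hqj
    rw [← hA] at e2
    have e3 : coE b (n j) 0 * lx = (c * coE b (n i) 0) * lx := by
      rw [e2, mul_assoc, e1]; unfold QQ; rw [← hcq]; ring
    exact mul_right_cancel₀ hx.ne' e3
  have h2 : coE b (n j) 2 = c * coE b (n i) 2 := by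
    rw [BB_mul hy hqj, ← hB, BB_mul hy hqi]; unfold QQ; rw [← hcq]; ring
  have hsub : ∀ a, coE b (n j - c • n i) a = coE b (n j) a - c * coE b (n i) a := by
    intro a
    simp only [coE_apply]
    rw [inner_sub_right, real_inner_smul_right]
  have hz := norm_sq_eq b (n j - c • n i)
  rw [hsub, hsub, hsub, h0, h2, ← hcq] at hz
  have hz0 : ‖n j - c • n i‖ ^ 2 = 0 := by rw [hz]; ring
  have hz' : ‖n j - c • n i‖ = 0 := (pow_eq_zero_iff two_ne_zero).mp hz0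
  exact sub_eq_zero.mp (norm_eq_zero.mp hz')

end

/-- everything about the chosen chart that is used below -/
structure Chart {k : ℕ} (n : Fin k → E3) (M a0 : ℝ) (b : OrthonormalBasis (Fin 3) ℝ E3)
    (θ δ R : ℝ) (i0 j0 : Fin k) : Prop where
  fam : Fam n M a0
  θpos : 0 < θ
  θle : θ ≤ 1 / 2
  δpos : 0 < δ
  Rone : 1 ≤ R
  δle : δ * (6 * R ^ 2) ≤ 1
  vol : δ ^ 2 * θ = a0
  ne : i0 ≠ j0
  ci : coE b (n i0) = ![0, 1, 0]
  cj : ∃ β : ℝ, coE b (n j0) = ![θ, β, 0] ∧ 1 / 2 ≤ |β|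
  maxi : ∀ i j, i ≠ j → (inner ℝ (n i) (n j) : ℝ) ^ 2 ≤ 1 - θ ^ 2

section
variable {k : ℕ} {n : Fin k → E3} {M a0 : ℝ} {b : OrthonormalBasis (Fin 3) ℝ E3}
  {θ δ R : ℝ} {i0 j0 : Fin k}

lemma Chart.lxp (h : Chart n M a0 b θ δ R i0 j0) : 0 < 2 * δ := by
  have := h.δpos; positivity

lemma Chart.lyp (h : Chart n M a0 b θ δ R i0 j0) : 0 < δ * θ / 2 := by
  have := h.δpos; have := h.θpos; positivity

lemma Chart.sep (h : Chart n M a0 b θ δ R i0 j0) {i j : Fin k} (hij : i ≠ j)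
    (hqi : coE b (n i) 1 ≠ 0) (hqj : coE b (n j) 1 ≠ 0)
    (hAi : |AA n b (2 * δ) (δ * θ / 2) i| ≤ R) (hBi : |BB n b (δ * θ / 2) i| ≤ R)
    (hAj : |AA n b (2 * δ) (δ * θ / 2) j| ≤ R) (hBj : |BB n b (δ * θ / 2) j| ≤ R) :
    1 ≤ |AA n b (2 * δ) (δ * θ / 2) j - AA n b (2 * δ) (δ * θ / 2) i| := by
  have hθ := h.θpos
  have hδ := h.δpos
  have hR := h.Rone
  have hm := h.maxi i j hij
  have hui := norm_sq_eq b (n i)
  have huj := norm_sq_eq b (n j)
  rw [h.fam.unit i] at hui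
  rw [h.fam.unit j] at huj
  rw [inner_eq b] at hm
  have ei := AA_mul (lx := 2 * δ) h.lyp hqi
  have ej := AA_mul (lx := 2 * δ) h.lyp hqj
  have fi := BB_mul h.lyp hqi
  have fj := BB_mul h.lyp hqj
  unfold QQ at ei ej fi fj
  set A := AA n b (2 * δ) (δ * θ / 2) i
  set A' := AA n b (2 * δ) (δ * θ / 2) j
  set B := BB n b (δ * θ / 2) i
  set B' := BB n b (δ * θ / 2) j
  set p := coE b (n i) 0
  set q := coE b (n i) 1
  set r := coE b (n i) 2
  set p' := coE b (n j) 0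
  set q' := coE b (n j) 1
  set r' := coE b (n j) 2
  have hp : p = -(A * q * (θ / 4)) := by
    have : p * (2 * δ) = -(A * q * (θ / 4)) * (2 * δ) := by rw [ei]; ring
    exact mul_right_cancel₀ (by positivity) this
  have hp' : p' = -(A' * q' * (θ / 4)) := by
    have : p' * (2 * δ) = -(A' * q' * (θ / 4)) * (2 * δ) := by rw [ej]; ring
    exact mul_right_cancel₀ (by positivity) this
  have hlag : θ ^ 2 ≤ (p * q' - p' * q) ^ 2 + (q * r' - q' * r) ^ 2 + (p * r' - p' * r) ^ 2 := by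
    have e : (p * q' - p' * q) ^ 2 + (q * r' - q' * r) ^ 2 + (p * r' - p' * r) ^ 2
      = (p ^ 2 + q ^ 2 + r ^ 2) * (p' ^ 2 + q' ^ 2 + r' ^ 2) - (p * p' + q * q' + r * r') ^ 2 := by
      ring
    rw [e, ← hui, ← huj]
    linarith
  have hq2 : q ^ 2 ≤ 1 := by linarith only [hui, sq_nonneg p, sq_nonneg r]
  have hq2' : q' ^ 2 ≤ 1 := by linarith only [huj, sq_nonneg p', sq_nonneg r']
  have hqq : (q * q') ^ 2 ≤ 1 := by
    rw [mul_pow]; exact mul_le_one₀ hq2 (sq_nonneg q') hq2'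
  set D := (A' - A) ^ 2 / 16 + (δ / 2) ^ 2 * (B - B') ^ 2 + (θ * δ / 8) ^ 2 * (A * B' - A' * B) ^ 2
    with hD
  have hexp : (p * q' - p' * q) ^ 2 + (q * r' - q' * r) ^ 2 + (p * r' - p' * r) ^ 2
      = θ ^ 2 * (q * q') ^ 2 * D := by
    rw [hp, hp', fi, fj, hD]; ring
  rw [hexp] at hlag
  have hD0 : 0 ≤ D := by positivity
  have hD1 : 1 ≤ D := by
    have h1 : θ ^ 2 * (q * q') ^ 2 * D ≤ θ ^ 2 * D := by
      have : θ ^ 2 * (q * q') ^ 2 ≤ θ ^ 2 * 1 := mul_le_mul_of_nonneg_left hqq (by positivity)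
      have h0 := mul_le_mul_of_nonneg_right this hD0
      linarith only [h0]
    have h2 : 0 < θ ^ 2 := by positivity
    have h3 : θ ^ 2 * 1 ≤ θ ^ 2 * D := by linarith only [h1, hlag]
    exact le_of_mul_le_mul_left h3 h2
  have hδR : δ * R ≤ 1 / 6 := by
    have := h.δle
    have hR0 : 0 ≤ R := by linarith only [hR]
    linarith only [this, mul_nonneg hδ.le (mul_nonneg hR0 (sub_nonneg.mpr hR))]
  have hδR2 : δ * R ^ 2 ≤ 1 / 6 := by
    have := h.δle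
    linarith only [this]
  have hBB : (B - B') ^ 2 ≤ (2 * R) ^ 2 := by
    apply sq_le_sq'
    · linarith [(abs_le.mp hBi).1, (abs_le.mp hBj).2]
    · linarith [(abs_le.mp hBi).2, (abs_le.mp hBj).1]
  have hAB : |A * B' - A' * B| ≤ 2 * R ^ 2 := by
    calc |A * B' - A' * B| ≤ |A * B'| + |A' * B| := abs_sub _ _
      _ ≤ R * R + R * R := by
          rw [abs_mul, abs_mul]
          exact add_le_add (mul_le_mul hAi hBj (abs_nonneg _) (by linarith))
            (mul_le_mul hAj hBi (abs_nonneg _) (by linarith))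
      _ = _ := by ring
  have hAB2 : (A * B' - A' * B) ^ 2 ≤ (2 * R ^ 2) ^ 2 := by
    rw [← sq_abs]
    exact pow_le_pow_left₀ (abs_nonneg _) hAB 2
  have t2 : (δ / 2) ^ 2 * (B - B') ^ 2 ≤ 1 / 36 := by
    have h1 : (δ / 2) ^ 2 * (B - B') ^ 2 ≤ (δ / 2) ^ 2 * (2 * R) ^ 2 :=
      mul_le_mul_of_nonneg_left hBB (by positivity)
    have h2 : (δ / 2) ^ 2 * (2 * R) ^ 2 = (δ * R) ^ 2 := by ring
    have h3 : (δ * R) ^ 2 ≤ (1 / 6) ^ 2 := pow_le_pow_left₀ (by positivity) hδR 2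
    rw [h2] at h1
    linarith
  have t3 : (θ * δ / 8) ^ 2 * (A * B' - A' * B) ^ 2 ≤ 1 / 36 := by
    have h1 : (θ * δ / 8) ^ 2 * (A * B' - A' * B) ^ 2 ≤ (θ * δ / 8) ^ 2 * (2 * R ^ 2) ^ 2 :=
      mul_le_mul_of_nonneg_left hAB2 (by positivity)
    have h2 : (θ * δ / 8) ^ 2 * (2 * R ^ 2) ^ 2 = (θ / 4 * (δ * R ^ 2)) ^ 2 := by ring
    have h3 : (θ / 4 * (δ * R ^ 2)) ^ 2 ≤ (1 / 6) ^ 2 := by
      apply pow_le_pow_left₀ (by positivity)
      have hθle := h.θle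
      have h0 := mul_nonneg hδ.le (sq_nonneg R)
      have h1' : θ / 4 * (δ * R ^ 2) ≤ 1 / 8 * (δ * R ^ 2) :=
        mul_le_mul_of_nonneg_right (by linarith only [hθle]) h0
      linarith only [h1', hδR2]
    rw [h2] at h1
    linarith
  have h8 : 1 ≤ (A' - A) ^ 2 := by
    rw [hD] at hD1
    linarith
  rw [← one_le_sq_iff_one_le_abs]
  exact h8

/-- the setting attached to a pair of circles -/
lemma Chart.setting (h : Chart n M a0 b θ δ R i0 j0) (α β γ : ℝ) :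
    Setting (PP n b (2 * δ) (δ * θ / 2) γ) (QQ n b (δ * θ / 2))
      (RR n b (2 * δ) (δ * θ / 2) α β γ) (Bd (2 * δ) (δ * θ / 2) α β γ) (1 / M) M := by
  have hM : 0 < M := lt_of_lt_of_le one_pos h.fam.Mone
  apply setting_of_fam h.fam b h.lxp h.lyp α β γ (by positivity)
  · rw [← h.vol]; ring
  · rw [← h.vol]; ring

end

end FT
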