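import Mathlib
import Pool.Agent.Work.MP_07b414_co.Geo6

/-!
# Geometry part, file 7: final theorem `exists_approx`
-/

set_option autoImplicit false

open MeasureTheory Filter Topology ENNReal

namespace FT

section
variable {k : ℕ} {n : Fin k → E3} {M a0 : ℝ} {b : OrthonormalBasis (Fin 3) ℝ E3}
  {θ δ R : ℝ} {i0 j0 : Fin k}

/-- the point set in the dual plane -/
def ptset (n : Fin k → E3) (b : OrthonormalBasis (Fin 3) ℝ E3) (lx ly : ℝ) : Set (ℝ × ℝ) :=
  {w | ∃ l : Fin k, coE b (n l) 1 ≠ 0 ∧ w = (AA n b lx ly l, BB n b ly l)}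

lemma Chart.few (h : Chart n M a0 b θ δ R i0 j0) {i j : Fin k}
    (hqi : coE b (n i) 1 ≠ 0) (hqj : coE b (n j) 1 ≠ 0) (hij : i ≠ j)
    (h1 : 1 ≤ |AA n b (2 * δ) (δ * θ / 2) j - AA n b (2 * δ) (δ * θ / 2) i|)
    (U : ℝ) (hU : 0 < U) (L : Finset (ℝ × ℝ))
    (hL : ∀ l ∈ L, l ∈ ptset n b (2 * δ) (δ * θ / 2) ∧
      3 / 2 * |AA n b (2 * δ) (δ * θ / 2) j - AA n b (2 * δ) (δ * θ / 2) i|
        ≤ |l.1 - AA n b (2 * δ) (δ * θ / 2) i| ∧
      |sl (AA n b (2 * δ) (δ * θ / 2) i, BB n b (δ * θ / 2) i) l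
        - sl (AA n b (2 * δ) (δ * θ / 2) i, BB n b (δ * θ / 2) i)
          (AA n b (2 * δ) (δ * θ / 2) j, BB n b (δ * θ / 2) j)| ≤ U) :
    (L.card : ℝ) ≤ 72 * M * |AA n b (2 * δ) (δ * θ / 2) j - AA n b (2 * δ) (δ * θ / 2) i| * U ^ 2 := by
  classical
  have hM : 0 < M := lt_of_lt_of_le one_pos h.fam.Mone
  set lx := 2 * δ with hlx
  set ly := δ * θ / 2 with hly
  have lyp : 0 < ly := h.lyp
  have lxp : 0 < lx := h.lxp
  set m := AA n b lx ly j - AA n b lx ly i with hm
  have hm0 : m ≠ 0 := by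
    intro h0
    rw [h0, abs_zero] at h1
    linarith
  set s := sl (AA n b lx ly i, BB n b ly i) (AA n b lx ly j, BB n b ly j) with hs
  have hs' : s * m = BB n b ly j - BB n b ly i := by
    rw [hs]; unfold sl; simp only; rw [← hm]; field_simp
  have hch : ∀ w : ℝ × ℝ, ∃ l : Fin k, w ∈ L → coE b (n l) 1 ≠ 0 ∧ w = (AA n b lx ly l, BB n b ly l) := by
    intro w
    by_cases hw : w ∈ L
    · obtain ⟨l, hl1, hl2⟩ := (hL w hw).1
      exact ⟨l, fun _ => ⟨hl1, hl2⟩⟩
    · exact ⟨i, fun h => absurd h hw⟩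
  choose f hf using hch
  have hcard : (L.image f).card = L.card := by
    apply Finset.card_image_of_injOn
    intro w hw w' hw' heq
    rw [(hf w hw).2, (hf w' hw').2, heq]
  have hS := h.setting (-s) (BB n b ly i) (AA n b lx ly i)
  rw [← hlx, ← hly] at hS
  have hPu : PP n b lx ly (AA n b lx ly i) i = 0 := by rw [PP_eq lyp hqi]; ring
  have hfacts : ∀ l ∈ L.image f, coE b (n l) 1 ≠ 0 ∧ 3 / 2 * |m| ≤ |AA n b lx ly l - AA n b lx ly i| ∧
      |(BB n b ly l - BB n b ly i) / (AA n b lx ly l - AA n b lx ly i) - s| ≤ U := by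
    intro l hl
    obtain ⟨w, hw, rfl⟩ := Finset.mem_image.mp hl
    have h2 := hf w hw
    have h3 := hL w hw
    rw [h2.2] at h3
    exact ⟨h2.1, h3.2.1, h3.2.2⟩
  have key := few_lines hS i j hij m hm0 hPu
    (by rw [RR_eq lyp hqi]; ring)
    (by rw [PP_eq lyp hqj])
    (by
      rw [RR_eq lyp hqj]
      have : BB n b ly j - BB n b ly i + -s * (AA n b lx ly j - AA n b lx ly i) = 0 := by
        rw [← hm, ← hs']; ring
      rw [this]; ring)
    U hU.le (L.image f)
    (by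
      intro l hl
      obtain ⟨hq, h2, h3⟩ := hfacts l hl
      rw [PP_eq lyp hq, neg_ne_zero]
      refine mul_ne_zero ?_ (QQ_ne lyp hq)
      intro h0
      rw [h0, abs_zero] at h2
      linarith)
    (by
      intro l hl h0
      obtain ⟨hq, h2, h3⟩ := hfacts l hl
      rw [h0, sub_self, abs_zero] at h2
      linarith)
    (by
      intro l hl h0
      obtain ⟨hq, h2, h3⟩ := hfacts l hl
      rw [h0, ← hm] at h2
      linarith)
    (by
      intro l hl
      obtain ⟨hq, h2, h3⟩ := hfacts l hl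
      rw [PP_eq lyp hq, abs_neg, abs_mul]
      exact mul_le_mul_of_nonneg_right h2 (abs_nonneg _))
    (by
      intro l hl
      obtain ⟨hq, h2, h3⟩ := hfacts l hl
      rw [PP_eq lyp hq, RR_eq lyp hq, abs_neg, abs_neg, abs_mul, abs_mul, ← mul_assoc]
      apply mul_le_mul_of_nonneg_right _ (abs_nonneg _)
      have hne : AA n b lx ly l - AA n b lx ly i ≠ 0 := by
        intro h0
        rw [h0, abs_zero] at h2
        linarith
      have e : BB n b ly l - BB n b ly i + -s * (AA n b lx ly l - AA n b lx ly i)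
        = ((BB n b ly l - BB n b ly i) / (AA n b lx ly l - AA n b lx ly i) - s) *
          (AA n b lx ly l - AA n b lx ly i) := by field_simp; ring
      rw [e, abs_mul]
      exact mul_le_mul_of_nonneg_right h3 (abs_nonneg _))
  rw [hcard] at key
  have : (L.card : ℝ) = (L.card : ℝ) * (1 / M) * M := by field_simp
  rw [this]
  calc (L.card : ℝ) * (1 / M) * M ≤ (72 * |m| * U ^ 2) * M := mul_le_mul_of_nonneg_right key hM.le
    _ = _ := by ring

/-- numerical part of the row estimate -/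
lemma row_num {M d T : ℝ} (hM : 1 ≤ M) (hd : 1 ≤ d) (hT : 1200000 * M ^ 3 * d ≤ T) :
    ∃ (X : ℝ) (g : ℕ), 0 < X ∧ X ≤ √T / d ∧ 1 ≤ g ∧ 64 * M * (g : ℝ) ^ 2 < 4 * X * (T * X) ∧
      T / (1200000 * M ^ 3 * d) ≤ (g : ℝ) / 2 - 288 * d * X ^ 2 / (1 / M) := by
  have hM0 : 0 < M := by linarith
  have hd0 : 0 < d := by linarith
  have hM3 : 1 ≤ M ^ 3 := one_le_pow₀ hM
  have hT0 : 0 < T := lt_of_lt_of_le (by positivity) hT
  set t := T / d with ht
  have htd : t * d = T := by rw [ht]; field_simp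
  have hK : 1200000 * M ^ 3 ≤ t := by rw [ht, le_div_iff₀ hd0]; exact hT
  have ht0 : 0 < t := by positivity
  set c : ℝ := 1 / (18432 * M ^ 2) with hc
  have hc0 : 0 < c := by positivity
  have hc1 : c ≤ 1 := by
    rw [hc, div_le_one (by positivity)]
    nlinarith
  have hcM : 288 * M * c = 1 / (64 * M) := by rw [hc]; field_simp; norm_num
  set y := c * t / (8 * M) with hy
  have hy8 : 2 ≤ y := by
    rw [hy, hc, le_div_iff₀ (by positivity), one_div, inv_mul_eq_div, le_div_iff₀ (by positivity)]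
    calc 2 * (8 * M) * (18432 * M ^ 2) = 294912 * M ^ 3 := by ring
      _ ≤ 1200000 * M ^ 3 := by nlinarith
      _ ≤ t := hK
  set X := c * √T / d with hX
  have hsq : √T ^ 2 = T := Real.sq_sqrt hT0.le
  have hX2 : X ^ 2 * d = c ^ 2 * t := by
    rw [hX, div_pow, mul_pow, hsq, ← htd]; field_simp
  have hTX : X * (T * X) = c ^ 2 * t ^ 2 := by
    have : X * (T * X) = (X ^ 2 * d) * t := by rw [← htd]; ring
    rw [this, hX2]; ring
  set g := ⌊y⌋₊ with hg
  have hgy : (g : ℝ) ≤ y := Nat.floor_le (by linarith)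
  have hgy' : y < g + 1 := Nat.lt_floor_add_one y
  have hg1 : 1 ≤ g := by
    rw [hg, Nat.one_le_floor_iff]; linarith
  refine ⟨X, g, by positivity, ?_, hg1, ?_, ?_⟩
  · rw [hX]
    apply div_le_div_of_nonneg_right _ hd0.le
    nlinarith [Real.sqrt_nonneg T]
  · have h1 : (g : ℝ) ^ 2 ≤ y ^ 2 := pow_le_pow_left₀ (by positivity) hgy 2
    have h2 : 64 * M * (g : ℝ) ^ 2 ≤ 64 * M * y ^ 2 := mul_le_mul_of_nonneg_left h1 (by positivity)
    have h3 : 64 * M * y ^ 2 = c ^ 2 * t ^ 2 / M := by rw [hy]; field_simp; norm_num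
    have h4 : c ^ 2 * t ^ 2 / M ≤ c ^ 2 * t ^ 2 := div_le_self (by positivity) hM
    have h5 : 4 * X * (T * X) = 4 * (c ^ 2 * t ^ 2) := by rw [← hTX]; ring
    have h6 : 0 < c ^ 2 * t ^ 2 := by positivity
    rw [h5]
    linarith
  · have h1 : 288 * d * X ^ 2 / (1 / M) = 288 * M * c * (c * t) := by
      calc 288 * d * X ^ 2 / (1 / M) = 288 * M * (X ^ 2 * d) := by field_simp
        _ = _ := by rw [hX2]; ring
    rw [h1, hcM]
    have h2 : T / (1200000 * M ^ 3 * d) = t / (1200000 * M ^ 3) := by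
      rw [← htd]; field_simp
    rw [h2]
    have h3 : y / 2 ≤ g := by linarith
    have h4 : y / 2 / 2 - 1 / (64 * M) * (c * t) = c * t / (64 * M) := by
      rw [hy]; field_simp; ring
    have h5 : c * t / (64 * M) = t / (1179648 * M ^ 3) := by
      rw [hc]; field_simp; norm_num
    have h6 : t / (1200000 * M ^ 3) ≤ t / (1179648 * M ^ 3) := by
      apply div_le_div_of_nonneg_left ht0.le (by positivity)
      nlinarith
    linarith

lemma Chart.row (h : Chart n M a0 b θ δ R i0 j0) {i j : Fin k}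
    (hqi : coE b (n i) 1 ≠ 0) (hqj : coE b (n j) 1 ≠ 0) (hij : i ≠ j)
    (hAi : |AA n b (2 * δ) (δ * θ / 2) i| ≤ R) (hBi : |BB n b (δ * θ / 2) i| ≤ R)
    (hBj : |BB n b (δ * θ / 2) j| ≤ R)
    (h1 : 1 ≤ |AA n b (2 * δ) (δ * θ / 2) j - AA n b (2 * δ) (δ * θ / 2) i|)
    (T : ℝ) (hTR : T ≤ R)
    (hT : 1200000 * M ^ 3 * |AA n b (2 * δ) (δ * θ / 2) j - AA n b (2 * δ) (δ * θ / 2) i| ≤ T) :
    ∃ L : Finset (ℝ × ℝ),
      (∀ l ∈ L, l ∈ ptset n b (2 * δ) (δ * θ / 2) ∧
        |l.1 - AA n b (2 * δ) (δ * θ / 2) i| ≤ T ∧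
        |l.2 - BB n b (δ * θ / 2) i - sl (AA n b (2 * δ) (δ * θ / 2) i, BB n b (δ * θ / 2) i)
          (AA n b (2 * δ) (δ * θ / 2) j, BB n b (δ * θ / 2) j) *
            (l.1 - AA n b (2 * δ) (δ * θ / 2) i)| ≤ 1200000 * M ^ 3 * (T * √T) /
              |AA n b (2 * δ) (δ * θ / 2) j - AA n b (2 * δ) (δ * θ / 2) i|) ∧
      T / (1200000 * M ^ 3 * |AA n b (2 * δ) (δ * θ / 2) j - AA n b (2 * δ) (δ * θ / 2) i|)
        ≤ (L.card : ℝ) := by
  classical
  have hM1 := h.fam.Mone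
  have hM : 0 < M := lt_of_lt_of_le one_pos hM1
  have hδ := h.δpos
  have hθ := h.θpos
  have hR := h.Rone
  set lx := 2 * δ with hlx
  set ly := δ * θ / 2 with hly
  have lyp : 0 < ly := h.lyp
  have lxp : 0 < lx := h.lxp
  set m := AA n b lx ly j - AA n b lx ly i with hm
  have hm0 : m ≠ 0 := by
    intro h0
    rw [h0, abs_zero] at h1
    linarith
  have hmp : 0 < |m| := by linarith
  set s := sl (AA n b lx ly i, BB n b ly i) (AA n b lx ly j, BB n b ly j) with hs
  have hs' : s * m = BB n b ly j - BB n b ly i := by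
    rw [hs]; unfold sl; simp only; rw [← hm]; field_simp
  have hsR : |s| ≤ 2 * R := by
    have e1 : |s| * |m| ≤ 2 * R := by
      rw [← abs_mul, hs']
      calc |BB n b ly j - BB n b ly i| ≤ |BB n b ly j| + |BB n b ly i| := abs_sub _ _
        _ ≤ 2 * R := by linarith
    nlinarith [abs_nonneg s]
  have hS := h.setting (-s) (BB n b ly i) (AA n b lx ly i)
  rw [← hlx, ← hly] at hS
  have hPu : PP n b lx ly (AA n b lx ly i) i = 0 := by rw [PP_eq lyp hqi]; ring
  obtain ⟨X, g, hX0, hXle, hg1, hgX, hnum⟩ := row_num hM1 h1 hT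
  have hM3 : 1 ≤ M ^ 3 := one_le_pow₀ hM1
  have hT1 : 1 ≤ T := by nlinarith
  have hT0 : 0 < T := by linarith
  have hsqT : √T ≤ T := by
    rw [Real.sqrt_le_left hT0.le]
    nlinarith
  have hXT : X ≤ T := by
    calc X ≤ √T / |m| := hXle
      _ ≤ √T := div_le_self (Real.sqrt_nonneg T) h1
      _ ≤ T := hsqT
  have hXR : X ≤ R := hXT.trans hTR
  have hTXR : T * X ≤ R ^ 2 := by nlinarith
  have hT32 : 3 / 2 * |m| ≤ T := by nlinarith
  obtain ⟨N, hN1, hN2⟩ := row_lines hS hM.le i j hij m hm0 hPu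
    (by rw [RR_eq lyp hqi]; ring)
    (by rw [PP_eq lyp hqj])
    (by
      rw [RR_eq lyp hqj]
      have : BB n b ly j - BB n b ly i + -s * (AA n b lx ly j - AA n b lx ly i) = 0 := by
        rw [← hm, ← hs']; ring
      rw [this]; ring)
    T X hX0 hT32
    (by
      intro y hy0 hy1 hy2 hy3
      have hδR2 : δ * R ^ 2 ≤ 1 / 6 := by
        have := h.δle
        nlinarith
      have hRR : R ≤ R ^ 2 := by nlinarith
      have hR1 : (1 : ℝ) ≤ R ^ 2 := by nlinarith
      have g0 : |y 0 + -s * y 2| ≤ 3 * R * y 2 := by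
        calc |y 0 + -s * y 2| ≤ |y 0| + |-s * y 2| := abs_add_le _ _
          _ ≤ X * y 2 + 2 * R * y 2 := by
              rw [abs_mul, abs_neg, abs_of_pos hy2]
              exact add_le_add hy0 (mul_le_mul_of_nonneg_right hsR hy2.le)
          _ ≤ R * y 2 + 2 * R * y 2 := by
              have := mul_le_mul_of_nonneg_right hXR hy2.le
              linarith
          _ = _ := by ring
      have g1 : |y 1 + BB n b ly i * y 2 + AA n b lx ly i * (y 0 + -s * y 2)| ≤ 5 * R ^ 2 * y 2 := by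
        calc |y 1 + BB n b ly i * y 2 + AA n b lx ly i * (y 0 + -s * y 2)|
            ≤ |y 1 + BB n b ly i * y 2| + |AA n b lx ly i * (y 0 + -s * y 2)| := abs_add_le _ _
          _ ≤ |y 1| + |BB n b ly i * y 2| + |AA n b lx ly i * (y 0 + -s * y 2)| := by
              have := abs_add_le (y 1) (BB n b ly i * y 2)
              linarith
          _ ≤ R ^ 2 * y 2 + R * y 2 + R * (3 * R * y 2) := by
              rw [abs_mul, abs_mul, abs_of_pos hy2]
              have e1 : |y 1| ≤ R ^ 2 * y 2 := hy1.trans (mul_le_mul_of_nonneg_right hTXR hy2.le)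
              have e2 : |BB n b ly i| * y 2 ≤ R * y 2 := mul_le_mul_of_nonneg_right hBi hy2.le
              have e3 : |AA n b lx ly i| * |y 0 + -s * y 2| ≤ R * (3 * R * y 2) :=
                mul_le_mul hAi g0 (abs_nonneg _) (by linarith)
              linarith
          _ ≤ 5 * R ^ 2 * y 2 := by
              have := mul_le_mul_of_nonneg_right hRR hy2.le
              linarith
      have k0 : |lx * (y 0 + -s * y 2)| ≤ 1 / 2 := by
        rw [abs_mul, abs_of_pos lxp, hlx]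
        calc 2 * δ * |y 0 + -s * y 2| ≤ 2 * δ * (3 * R * (1 / 2)) := by
              apply mul_le_mul_of_nonneg_left _ (by positivity)
              refine g0.trans ?_
              apply mul_le_mul_of_nonneg_left hy3 (by positivity)
          _ = 3 * (δ * R) := by ring
          _ ≤ 3 * (δ * R ^ 2) := by
              have := mul_le_mul_of_nonneg_left hRR hδ.le
              linarith
          _ ≤ 1 / 2 := by linarith
      have k1 : |ly * (y 1 + BB n b ly i * y 2 + AA n b lx ly i * (y 0 + -s * y 2))| ≤ 1 / 2 := by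
        rw [abs_mul, abs_of_pos lyp]
        have e1 : ly ≤ δ / 2 := by
          rw [hly]
          have := mul_le_mul_of_nonneg_left (h.θle.trans (by norm_num : (1 : ℝ) / 2 ≤ 1)) hδ.le
          linarith
        calc ly * |y 1 + BB n b ly i * y 2 + AA n b lx ly i * (y 0 + -s * y 2)|
            ≤ (δ / 2) * (5 * R ^ 2 * (1 / 2)) := by
              apply mul_le_mul e1 _ (abs_nonneg _) (by positivity)
              refine g1.trans ?_
              apply mul_le_mul_of_nonneg_left hy3 (by positivity)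
          _ = 5 / 4 * (δ * R ^ 2) := by ring
          _ ≤ 1 / 2 := by linarith
      simp only [Bd, Set.mem_ofPred_eq]
      have q0 : (lx * (y 0 + -s * y 2)) ^ 2 ≤ (1 / 2) ^ 2 := by
        rw [← sq_abs]; exact pow_le_pow_left₀ (abs_nonneg _) k0 2
      have q1 : (ly * (y 1 + BB n b ly i * y 2 + AA n b lx ly i * (y 0 + -s * y 2))) ^ 2
          ≤ (1 / 2) ^ 2 := by
        rw [← sq_abs]; exact pow_le_pow_left₀ (abs_nonneg _) k1 2
      have q2 : (y 2) ^ 2 ≤ (1 / 2) ^ 2 := pow_le_pow_left₀ hy2.le hy3 2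
      linarith)
    g hg1 hgX
  have hqN : ∀ l ∈ N, coE b (n l) 1 ≠ 0 := by
    intro l hl h0
    apply (hN2 l hl).1
    unfold QQ; rw [h0]; ring
  refine ⟨N.image (fun l => (AA n b lx ly l, BB n b ly l)), ?_, ?_⟩
  · intro w hw
    obtain ⟨l, hl, rfl⟩ := Finset.mem_image.mp hw
    have hq := hqN l hl
    obtain ⟨hQ, h2, h3⟩ := hN2 l hl
    have hQp : 0 < |QQ n b ly l| := abs_pos.mpr hQ
    rw [PP_eq lyp hq, abs_neg, abs_mul] at h2
    rw [RR_eq lyp hq, abs_neg, abs_mul] at h3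
    have h2' := le_of_mul_le_mul_right h2 hQp
    have h3' := le_of_mul_le_mul_right h3 hQp
    refine ⟨⟨l, hq, rfl⟩, h2', ?_⟩
    simp only
    have e : BB n b ly l - BB n b ly i - s * (AA n b lx ly l - AA n b lx ly i)
      = BB n b ly l - BB n b ly i + -s * (AA n b lx ly l - AA n b lx ly i) := by ring
    rw [e]
    refine h3'.trans ?_
    rw [le_div_iff₀ hmp]
    have h4 : X * |m| ≤ √T := by
      have := mul_le_mul_of_nonneg_right hXle hmp.le
      rwa [div_mul_cancel₀ _ hmp.ne'] at this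
    calc 2 * (T * X) * |m| = 2 * T * (X * |m|) := by ring
      _ ≤ 2 * T * √T := mul_le_mul_of_nonneg_left h4 (by positivity)
      _ = 2 * (T * √T) := by ring
      _ ≤ 1200000 * M ^ 3 * (T * √T) := by
          apply mul_le_mul_of_nonneg_right _ (by positivity)
          linarith
  · have hcard : (N.image (fun l => (AA n b lx ly l, BB n b ly l))).card = N.card := by
      apply Finset.card_image_of_injOn
      intro l hl l' hl' heq
      have e := Prod.mk.inj heq
      exact pt_inj h.fam lxp lyp (hqN l hl) (hqN l' hl') e.1 e.2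
    rw [hcard]
    linarith

lemma Chart.approx (h : Chart n M a0 b θ δ R i0 j0) :
    Approx (1200000 * M ^ 3) R (ptset n b (2 * δ) (δ * θ / 2)) where
  sep := by
    rintro u ⟨i, hqi, rfl⟩ v ⟨j, hqj, rfl⟩ huv h1 h2 h3 h4
    have hij : i ≠ j := fun e => huv (by rw [e])
    exact h.sep hij hqi hqj h1 h2 h3 h4
  few := by
    rintro u ⟨i, hqi, rfl⟩ v ⟨j, hqj, rfl⟩ huv h1 h2 h3 h4 U hU L hL
    have hij : i ≠ j := fun e => huv (by rw [e])
    have hsep := h.sep hij hqi hqj h1 h2 h3 h4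
    refine (h.few hqi hqj hij hsep U hU L hL).trans ?_
    have hM := h.fam.Mone
    have hM3 : M ≤ M ^ 3 := le_self_pow₀ hM (by norm_num)
    have : 72 * M ≤ 1200000 * M ^ 3 := by linarith
    exact mul_le_mul_of_nonneg_right (mul_le_mul_of_nonneg_right this (abs_nonneg _)) (by positivity)
  row := by
    rintro u ⟨i, hqi, rfl⟩ v ⟨j, hqj, rfl⟩ huv h1 h2 h3 h4 T hTR hT
    have hij : i ≠ j := fun e => huv (by rw [e])
    have hsep := h.sep hij hqi hqj h1 h2 h3 h4
    exact h.row hqi hqj hij h1 h2 h4 hsep T hTR hT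
  two := by
    have hM := h.fam.Mone
    have hM3 : 1 ≤ M ^ 3 := one_le_pow₀ hM
    obtain ⟨β, hcj, hβ⟩ := h.cj
    have hβp : 0 < |β| := by linarith
    have hβ0 : β ≠ 0 := abs_pos.mp hβp
    have hδ := h.δpos
    have hθ := h.θpos
    have a0' : AA n b (2 * δ) (δ * θ / 2) i0 = 0 := by
      unfold AA; rw [h.ci]; simp
    have b0' : BB n b (δ * θ / 2) i0 = 0 := by
      unfold BB; rw [h.ci]; simp
    have a1' : AA n b (2 * δ) (δ * θ / 2) j0 = -(4 / β) := by
      unfold AA; rw [hcj]; simp; field_simp; norm_num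
    have b1' : BB n b (δ * θ / 2) j0 = 0 := by
      unfold BB; rw [hcj]; simp
    refine ⟨_, ⟨i0, by rw [h.ci]; simp, rfl⟩, _, ⟨j0, by rw [hcj]; simpa using hβ0, rfl⟩, ?_, ?_, ?_, ?_, ?_⟩
    · rw [a0', b0', a1', b1']
      intro h0
      have := (Prod.mk.inj h0).1
      have h4 : (4 : ℝ) / β ≠ 0 := div_ne_zero (by norm_num) hβ0
      apply h4
      linarith
    · simp only; rw [a0', abs_zero]; positivity
    · simp only; rw [b0', abs_zero]; positivity
    · simp only; rw [a1', abs_neg, abs_div, div_le_iff₀ hβp]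
      rw [abs_of_pos (by norm_num : (0 : ℝ) < 4)]
      nlinarith
    · simp only; rw [b1', abs_zero]; positivity

end

/-- The geometry part: bounded area ratio for arbitrarily many circles gives approximate
configurations at every resolution. -/
theorem exists_approx (M : ℝ) (h : ∀ N : ℕ, ∃ k, N ≤ k ∧ ∃ v : Fin k → EuclideanSpace ℝ (Fin 3),
    (∀ i j l, i ≠ j → j ≠ l → i ≠ l → LinearIndependent ℝ ![v i, v j, v l]) ∧
    ∀ s t : Fin k → ℤˣ, 0 < volume (cellE v s) → 0 < volume (cellE v t) →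
      volume (cellE v s) < ENNReal.ofReal M * volume (cellE v t)) :
    ∃ K, 1 ≤ K ∧ ∀ R : ℝ, ∃ P : Set (ℝ × ℝ), Approx K R P := by
  have hM1 : 1 ≤ M := by
    obtain ⟨k, hk, v, hv, hvol⟩ := h 3
    obtain ⟨n, a0, hF⟩ := fam_of_hyp hk v hv hvol
    exact hF.Mone
  have hM : 0 < M := by linarith
  have hM3 : 1 ≤ M ^ 3 := one_le_pow₀ hM1
  refine ⟨1200000 * M ^ 3, by linarith, fun R₀ => ?_⟩
  suffices hs : ∃ P : Set (ℝ × ℝ), Approx (1200000 * M ^ 3) (max R₀ 1) P by
    obtain ⟨P, hP⟩ := hs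
    exact ⟨P, hP.mono (le_max_left _ _)⟩
  set R := max R₀ 1 with hR
  have hR1 : 1 ≤ R := le_max_right _ _
  obtain ⟨N1, hN1⟩ := pigeon
  obtain ⟨N2, hN2⟩ := exists_nat_gt (576 * M * R ^ 4 + 3)
  obtain ⟨k, hk, v, hv, hvol⟩ := h (max (N1 + 1) (max N2 3))
  have hk1 : N1 < k := lt_of_lt_of_le (Nat.lt_succ_self N1) ((le_max_left _ _).trans hk)
  have hk2 : N2 ≤ k := (le_max_left _ _).trans ((le_max_right _ _).trans hk)
  have hk3 : 3 ≤ k := (le_max_right _ _).trans ((le_max_right _ _).trans hk)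
  obtain ⟨n, a0, hF⟩ := fam_of_hyp hk3 v hv hvol
  obtain ⟨i0, j0, hij, hmax⟩ := closest (by omega : 2 ≤ k) n
  obtain ⟨i1, j1, hij1, h34⟩ := hN1 k hk1 n hF.unit
  set β : ℝ := inner ℝ (n i0) (n j0) with hβ
  have hβ2 : 3 / 4 ≤ β ^ 2 := h34.trans (hmax i1 j1 hij1)
  have hii : (inner ℝ (n i0) (n i0) : ℝ) = 1 := by
    rw [real_inner_self_eq_norm_sq, hF.unit]; norm_num
  have hjj : (inner ℝ (n j0) (n j0) : ℝ) = 1 := by
    rw [real_inner_self_eq_norm_sq, hF.unit]; norm_num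
  have hnorm : ‖n j0 - β • n i0‖ ^ 2 = 1 - β ^ 2 := by
    rw [← real_inner_self_eq_norm_sq, inner_sub_left, inner_sub_right, inner_sub_right,
      real_inner_smul_left, real_inner_smul_left, real_inner_smul_right, real_inner_smul_right,
      hii, hjj, real_inner_comm (n i0) (n j0), ← hβ]
    ring
  have hlt : 0 < 1 - β ^ 2 := by
    rw [← hnorm]
    have : n j0 - β • n i0 ≠ 0 := fun h0 => hF.ind i0 j0 hij β (sub_eq_zero.mp h0)
    have := norm_pos_iff.mpr this
    positivity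
  set θ := √(1 - β ^ 2) with hθd
  have hθ : 0 < θ := Real.sqrt_pos.mpr hlt
  have hθ2 : θ ^ 2 = 1 - β ^ 2 := Real.sq_sqrt hlt.le
  have hθle : θ ≤ 1 / 2 := by
    apply Real.sqrt_le_iff.mpr
    constructor
    · norm_num
    · linarith
  obtain ⟨b, hb1, hb2⟩ := frame (hF.unit i0) (hF.unit j0) hθ (by rw [hθ2]; ring)
  rw [← hβ] at hb2
  have hβabs : 1 / 2 ≤ |β| := by
    by_contra hcon
    push Not at hcon
    have : β ^ 2 < 1 / 4 := by
      rw [← sq_abs]
      nlinarith [abs_nonneg β]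
    linarith
  have hβ0 : β ≠ 0 := by
    intro h0; rw [h0, abs_zero] at hβabs; linarith
  have hlune := lune_bound hF i0 j0 hij b hb1 hb2 hθ hβ0
  set δ := √(a0 / θ) with hδd
  have ha0 := hF.apos
  have hδ : 0 < δ := Real.sqrt_pos.mpr (by positivity)
  have hδ2 : δ ^ 2 = a0 / θ := Real.sq_sqrt (by positivity)
  have hvol' : δ ^ 2 * θ = a0 := by rw [hδ2]; field_simp
  have hk' : 576 * M * R ^ 4 ≤ (k : ℝ) - 3 := by
    have : (N2 : ℝ) ≤ k := by exact_mod_cast hk2
    linarith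
  have hbound : 576 * R ^ 4 * δ ^ 2 ≤ 16 := by
    have e1 : θ / |β| ≤ 2 * θ := by
      rw [div_le_iff₀ (by linarith)]
      nlinarith
    have e2 : 576 * M * R ^ 4 * (a0 / M) ≤ 16 * θ := by
      have : 576 * M * R ^ 4 * (a0 / M) ≤ ((k : ℝ) - 3) * (a0 / M) :=
        mul_le_mul_of_nonneg_right hk' (by positivity)
      linarith
    have e3 : 576 * M * R ^ 4 * (a0 / M) = 576 * R ^ 4 * a0 := by field_simp
    rw [e3] at e2
    rw [hδ2]
    rw [← mul_div_assoc, div_le_iff₀ hθ]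
    exact e2
  have hδle : δ * (6 * R ^ 2) ≤ 1 := by
    have e1 : (δ * (6 * R ^ 2)) ^ 2 ≤ 1 ^ 2 := by
      have : (δ * (6 * R ^ 2)) ^ 2 = (576 * R ^ 4 * δ ^ 2) / 16 := by ring
      rw [this]; linarith
    exact (pow_le_pow_iff_left₀ (by positivity) (by norm_num) (by norm_num)).mp e1
  have hC : Chart n M a0 b θ δ R i0 j0 :=
    { fam := hF, θpos := hθ, θle := hθle, δpos := hδ, Rone := hR1, δle := hδle, vol := hvol',
      ne := hij, ci := hb1, cj := ⟨β, hb2, hβabs⟩,
      maxi := fun i j hne => by rw [hθ2]; linarith [hmax i j hne] }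
  exact ⟨_, hC.approx⟩

end FT
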