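import Pool.Agent.Work.MP_07b414_co.Util

set_option autoImplicit false

namespace FT

open Filter Topology

/-- ultralimits of bounded sequences -/
theorem exists_limit {f : ℕ → ℝ × ℝ} {𝒰 : Ultrafilter ℕ} {C : ℝ}
    (h : ∀ᶠ n in (𝒰 : Filter ℕ), |(f n).1| ≤ C ∧ |(f n).2| ≤ C) :
    ∃ x, Tendsto f 𝒰 (𝓝 x) := by
  have hS : IsCompact (Set.Icc (-C) C ×ˢ Set.Icc (-C) C : Set (ℝ × ℝ)) :=
    isCompact_Icc.prod isCompact_Icc
  obtain ⟨x, -, hx⟩ := isCompact_iff_ultrafilter_le_nhds.mp hS (𝒰.map f) (by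
    rw [le_principal_iff, Ultrafilter.coe_map, mem_map]
    filter_upwards [h] with n hn
    rw [Set.mem_preimage, Set.mem_prod]
    exact ⟨abs_le.mp hn.1, abs_le.mp hn.2⟩)
  exact ⟨x, hx⟩

theorem tendsto_sl {𝒰 : Filter ℕ} {f g : ℕ → ℝ × ℝ} {u v : ℝ × ℝ} (hf : Tendsto f 𝒰 (𝓝 u))
    (hg : Tendsto g 𝒰 (𝓝 v)) (h : v.1 - u.1 ≠ 0) :
    Tendsto (fun n => sl (f n) (g n)) 𝒰 (𝓝 (sl u v)) := by
  unfold sl
  exact ((hg.snd_nhds).sub (hf.snd_nhds)).div ((hg.fst_nhds).sub (hf.fst_nhds)) h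

/-- the ultralimit of the finite approximate configurations is a limit configuration -/
theorem limit_conf {K : ℝ} (hK : 1 ≤ K) (h : ∀ R : ℝ, ∃ P : Set (ℝ × ℝ), Approx K R P) :
    ∃ P : Set (ℝ × ℝ), Conf (8 * K) P := by
  classical
  choose Q hQ using fun n : ℕ => h (n : ℝ)
  have hK0 : 0 < K := by linarith
  obtain ⟨𝒰, h𝒰⟩ : ∃ 𝒰 : Ultrafilter ℕ, (𝒰 : Filter ℕ) ≤ atTop :=
    ⟨hyperfilter ℕ, Nat.hyperfilter_le_atTop⟩
  have hbig : ∀ C : ℝ, ∀ᶠ n : ℕ in (𝒰 : Filter ℕ), C ≤ (n : ℝ) := fun C =>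
    h𝒰 (tendsto_natCast_atTop_atTop.eventually_ge_atTop C)
  set P : Set (ℝ × ℝ) :=
    {x | ∃ y : ℕ → ℝ × ℝ, Tendsto y 𝒰 (𝓝 x) ∧ ∀ᶠ n in (𝒰 : Filter ℕ), y n ∈ Q n} with hP
  have hbd : ∀ (x : ℝ × ℝ) (y : ℕ → ℝ × ℝ), Tendsto y 𝒰 (𝓝 x) →
      ∀ᶠ n in (𝒰 : Filter ℕ), |(y n).1| ≤ (n : ℝ) ∧ |(y n).2| ≤ (n : ℝ) := by
    intro x y hy
    have h1 : ∀ᶠ n in (𝒰 : Filter ℕ), |(y n).1| < |x.1| + 1 :=
      hy.fst_nhds.abs.eventually_lt_const (lt_add_one _)
    have h2 : ∀ᶠ n in (𝒰 : Filter ℕ), |(y n).2| < |x.2| + 1 :=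
      hy.snd_nhds.abs.eventually_lt_const (lt_add_one _)
    filter_upwards [h1, h2, hbig (|x.1| + 1), hbig (|x.2| + 1)] with n a1 a2 a3 a4
    constructor <;> linarith
  have hne : ∀ (x x' : ℝ × ℝ) (y y' : ℕ → ℝ × ℝ), Tendsto y 𝒰 (𝓝 x) → Tendsto y' 𝒰 (𝓝 x') →
      x ≠ x' → ∀ᶠ n in (𝒰 : Filter ℕ), y n ≠ y' n := by
    intro x x' y y' hy hy' hxx
    have := hy.prodMk_nhds hy'
    have h2 : ∀ᶠ p in 𝓝 (x, x'), p.1 ≠ p.2 :=
      (isOpen_ne_fun continuous_fst continuous_snd).mem_nhds hxx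
    exact this.eventually h2
  have hdist : ∀ (x x' : ℝ × ℝ) (y y' : ℕ → ℝ × ℝ), Tendsto y 𝒰 (𝓝 x) →
      Tendsto y' 𝒰 (𝓝 x') →
      Tendsto (fun n => |(y' n).1 - (y n).1|) 𝒰 (𝓝 |x'.1 - x.1|) := by
    intro x x' y y' hy hy'
    exact (hy'.fst_nhds.sub hy.fst_nhds).abs
  have hsep : ∀ u ∈ P, ∀ v ∈ P, u ≠ v → 1 ≤ |v.1 - u.1| := by
    rintro u ⟨y, hy, hyQ⟩ v ⟨z, hz, hzQ⟩ huv
    refine ge_of_tendsto (hdist u v y z hy hz) ?_
    filter_upwards [hyQ, hzQ, hbd u y hy, hbd v z hz, hne u v y z hy hz huv] with n a1 a2 a3 a4 a5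
    exact (hQ n).sep _ a1 _ a2 a5 a3.1 a3.2 a4.1 a4.2
  refine ⟨P, hsep, ?_, ?_, ?_⟩
  · -- few
    intro u hu v hv huv U hU L hL
    have hd := hsep u hu v hv huv
    obtain ⟨y, hy, hyQ⟩ := hu
    obtain ⟨z, hz, hzQ⟩ := hv
    set d := |v.1 - u.1| with hdd
    have hd0 : 0 < d := by linarith
    have hvu : v.1 - u.1 ≠ 0 := abs_pos.mp hd0
    have hw : ∀ l : ℝ × ℝ, ∃ w : ℕ → ℝ × ℝ, l ∈ L →
        (Tendsto w 𝒰 (𝓝 l) ∧ ∀ᶠ n in (𝒰 : Filter ℕ), w n ∈ Q n) := by
      intro l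
      by_cases hl : l ∈ L
      · obtain ⟨w, hw⟩ := (hL l hl).1
        exact ⟨w, fun _ => hw⟩
      · exact ⟨fun _ => 0, fun hl' => absurd hl' hl⟩
    choose w hw using hw
    have hall : ∀ᶠ n in (𝒰 : Filter ℕ), ∀ l ∈ L, w l n ∈ Q n ∧
        3 / 2 * |(z n).1 - (y n).1| ≤ |(w l n).1 - (y n).1| ∧
        |sl (y n) (w l n) - sl (y n) (z n)| ≤ 2 * U ∧
        ∀ l' ∈ L, l ≠ l' → w l n ≠ w l' n := by
      rw [eventually_all_finset]
      intro l hl
      obtain ⟨hl1, hl2⟩ := hw l hl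
      obtain ⟨-, hl3, hl4⟩ := hL l hl
      have hlu : l.1 - u.1 ≠ 0 := abs_pos.mp (lt_of_lt_of_le (by positivity) hl3)
      have b1 : ∀ᶠ n in (𝒰 : Filter ℕ),
          3 / 2 * |(z n).1 - (y n).1| < |(w l n).1 - (y n).1| := by
        apply ((hdist u v y z hy hz).const_mul (3 / 2)).eventually_lt (hdist u l y (w l) hy hl1)
        linarith
      have b2 : ∀ᶠ n in (𝒰 : Filter ℕ), |sl (y n) (w l n) - sl (y n) (z n)| < 2 * U := by
        apply ((tendsto_sl hy hl1 hlu).sub (tendsto_sl hy hz hvu)).abs.eventually_lt_const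
        linarith
      have b3 : ∀ᶠ n in (𝒰 : Filter ℕ), ∀ l' ∈ L, l ≠ l' → w l n ≠ w l' n := by
        rw [eventually_all_finset]
        intro l' hl'
        by_cases hll : l = l'
        · exact Eventually.of_forall fun n h => absurd hll h
        · filter_upwards [hne l l' (w l) (w l') hl1 (hw l' hl').1 hll] with n hn _
          exact hn
      filter_upwards [hl2, b1, b2, b3] with n c1 c2 c3 c4
      exact ⟨c1, c2.le, c3.le, c4⟩
    have hd2 : ∀ᶠ n in (𝒰 : Filter ℕ), |(z n).1 - (y n).1| < 2 * d :=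
      (hdist u v y z hy hz).eventually_lt_const (by linarith)
    obtain ⟨n, c1, c2, c3, c4, c5, c6, c7⟩ := (hyQ.and (hzQ.and ((hbd u y hy).and
      ((hbd v z hz).and ((hne u v y z hy hz huv).and (hall.and hd2)))))).exists
    have hfew := (hQ n).few _ c1 _ c2 c5 c3.1 c3.2 c4.1 c4.2 (2 * U) (by positivity)
      (L.image (fun l => w l n)) (by
        intro p hp
        rw [Finset.mem_image] at hp
        obtain ⟨l, hl, rfl⟩ := hp
        obtain ⟨d1, d2, d3, -⟩ := c6 l hl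
        exact ⟨d1, d2, d3⟩)
    rw [Finset.card_image_of_injOn (by
      intro l hl l' hl' hll
      by_contra hne'
      exact (c6 l hl).2.2.2 l' hl' hne' hll)] at hfew
    refine hfew.trans ?_
    have e1 : K * |(z n).1 - (y n).1| * (2 * U) ^ 2 ≤ K * (2 * d) * (2 * U) ^ 2 := by
      apply mul_le_mul_of_nonneg_right _ (by positivity)
      exact mul_le_mul_of_nonneg_left c7.le hK0.le
    refine e1.trans (le_of_eq ?_)
    ring
  · -- row
    intro u hu v hv huv T hT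
    have hd := hsep u hu v hv huv
    obtain ⟨y, hy, hyQ⟩ := hu
    obtain ⟨z, hz, hzQ⟩ := hv
    set d := |v.1 - u.1| with hdd
    have hd0 : 0 < d := by linarith
    have hvu : v.1 - u.1 ≠ 0 := abs_pos.mp hd0
    have hKd : 0 < K * d := by positivity
    have hT0 : 0 < T := lt_of_lt_of_le (by positivity) hT
    set m : ℕ := ⌈T / (8 * K * d)⌉₊ with hm
    have hm1 : T / (8 * K * d) ≤ m := Nat.le_ceil _
    have hm2 : (m : ℝ) ≤ T / (4 * K * d) := by
      have h1 := (Nat.ceil_lt_add_one (show 0 ≤ T / (8 * K * d) by positivity)).le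
      have h2 : 1 ≤ T / (8 * K * d) := by
        rw [one_le_div (by positivity)]; linarith
      have h3 : T / (4 * K * d) = T / (8 * K * d) + T / (8 * K * d) := by
        field_simp; ring
      rw [h3]
      linarith
    have hd2 : ∀ᶠ n in (𝒰 : Filter ℕ), |(z n).1 - (y n).1| < 2 * d :=
      (hdist u v y z hy hz).eventually_lt_const (by linarith)
    have hd1 : ∀ᶠ n in (𝒰 : Filter ℕ), d / 2 < |(z n).1 - (y n).1| :=
      (hdist u v y z hy hz).eventually_const_lt (by linarith)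
    have hex : ∀ n : ℕ, ∃ f : Fin m → ℝ × ℝ,
        (y n ∈ Q n ∧ z n ∈ Q n ∧ (|(y n).1| ≤ n ∧ |(y n).2| ≤ n) ∧
          (|(z n).1| ≤ n ∧ |(z n).2| ≤ n) ∧ y n ≠ z n ∧ T ≤ n ∧
          |(z n).1 - (y n).1| < 2 * d) →
        (Function.Injective f ∧ ∀ j, f j ∈ Q n ∧ |(f j).1 - (y n).1| ≤ T ∧
          |(f j).2 - (y n).2 - sl (y n) (z n) * ((f j).1 - (y n).1)|
            ≤ K * (T * √T) / |(z n).1 - (y n).1|) := by
      intro n
      by_cases hn : (y n ∈ Q n ∧ z n ∈ Q n ∧ (|(y n).1| ≤ n ∧ |(y n).2| ≤ n) ∧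
          (|(z n).1| ≤ n ∧ |(z n).2| ≤ n) ∧ y n ≠ z n ∧ T ≤ n ∧
          |(z n).1 - (y n).1| < 2 * d)
      · obtain ⟨c1, c2, c3, c4, c5, c6, c7⟩ := hn
        have hs := (hQ n).sep _ c1 _ c2 c5 c3.1 c3.2 c4.1 c4.2
        have hs0 : 0 < |(z n).1 - (y n).1| := by linarith
        obtain ⟨L, hL, hLc⟩ := (hQ n).row _ c1 _ c2 c5 c3.1 c3.2 c4.1 c4.2 T c6 (by
          have := mul_le_mul_of_nonneg_left c7.le hK0.le
          linarith)
        have hmL : m ≤ L.card := by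
          have h1 : (m : ℝ) ≤ L.card := by
            refine hm2.trans (le_trans ?_ hLc)
            apply div_le_div_of_nonneg_left hT0.le (by positivity)
            have := mul_le_mul_of_nonneg_left c7.le hK0.le
            linarith
          exact_mod_cast h1
        obtain ⟨L', hL', hL'c⟩ := Finset.exists_subset_card_eq hmL
        let e := L'.equivFinOfCardEq hL'c
        refine ⟨fun j => (e.symm j : ℝ × ℝ), fun _ => ⟨?_, fun j => ?_⟩⟩
        · intro j j' hjj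
          exact e.symm.injective (Subtype.ext hjj)
        · exact hL _ (hL' (e.symm j).2)
      · exact ⟨fun _ => 0, fun h => absurd h hn⟩
    choose f hf using hex
    have hev : ∀ᶠ n in (𝒰 : Filter ℕ), (Function.Injective (f n) ∧
        ∀ j, f n j ∈ Q n ∧ |(f n j).1 - (y n).1| ≤ T ∧
          |(f n j).2 - (y n).2 - sl (y n) (z n) * ((f n j).1 - (y n).1)|
            ≤ K * (T * √T) / |(z n).1 - (y n).1|) := by
      filter_upwards [hyQ, hzQ, hbd u y hy, hbd v z hz, hne u v y z hy hz huv, hbig T, hd2] with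
        n c1 c2 c3 c4 c5 c6 c7
      exact hf n ⟨c1, c2, c3, c4, c5, c6, c7⟩
    have hKT : 0 ≤ K * (T * √T) := by positivity
    -- boundedness
    have hlim : ∀ j : Fin m, ∃ x, Tendsto (fun n => f n j) 𝒰 (𝓝 x) := by
      intro j
      have b1 : ∀ᶠ n in (𝒰 : Filter ℕ), |(y n).1| < |u.1| + 1 :=
        hy.fst_nhds.abs.eventually_lt_const (lt_add_one _)
      have b2 : ∀ᶠ n in (𝒰 : Filter ℕ), |(y n).2| < |u.2| + 1 :=
        hy.snd_nhds.abs.eventually_lt_const (lt_add_one _)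
      have b3 : ∀ᶠ n in (𝒰 : Filter ℕ), |sl (y n) (z n)| < |sl u v| + 1 :=
        (tendsto_sl hy hz hvu).abs.eventually_lt_const (lt_add_one _)
      apply exists_limit (C := (|u.1| + 1 + T) + (|u.2| + 1) + (|sl u v| + 1) * T
        + K * (T * √T) / (d / 2))
      filter_upwards [hev, b1, b2, b3, hd1] with n c1 c2 c3 c4 c5
      obtain ⟨e1, e2, e3⟩ := c1.2 j
      have p1 : 0 ≤ (|sl u v| + 1) * T := by positivity
      have p2 : 0 ≤ K * (T * √T) / (d / 2) := by positivity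
      have p3 := abs_nonneg u.1
      have p4 := abs_nonneg u.2
      constructor
      · have : |(f n j).1| ≤ |(f n j).1 - (y n).1| + |(y n).1| := by
          have := abs_add_le ((f n j).1 - (y n).1) ((y n).1)
          simpa using this
        linarith
      · have q1 : |sl (y n) (z n) * ((f n j).1 - (y n).1)| ≤ (|sl u v| + 1) * T := by
          rw [abs_mul]
          exact mul_le_mul c4.le e2 (abs_nonneg _) (by positivity)
        have q2 : K * (T * √T) / |(z n).1 - (y n).1| ≤ K * (T * √T) / (d / 2) :=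
          div_le_div_of_nonneg_left hKT (by positivity) c5.le
        have q3 : |(f n j).2| ≤ |(f n j).2 - (y n).2 - sl (y n) (z n) * ((f n j).1 - (y n).1)|
            + |(y n).2| + |sl (y n) (z n) * ((f n j).1 - (y n).1)| := by
          have e : (f n j).2 = ((f n j).2 - (y n).2 - sl (y n) (z n) * ((f n j).1 - (y n).1))
            + (y n).2 + sl (y n) (z n) * ((f n j).1 - (y n).1) := by ring
          calc |(f n j).2| = |((f n j).2 - (y n).2 - sl (y n) (z n) * ((f n j).1 - (y n).1))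
            + (y n).2 + sl (y n) (z n) * ((f n j).1 - (y n).1)| := by rw [← e]
            _ ≤ _ := abs_add_three _ _ _
        linarith
    choose x hx using hlim
    have hxP : ∀ j, x j ∈ P := by
      intro j
      refine ⟨fun n => f n j, hx j, ?_⟩
      filter_upwards [hev] with n hn
      exact (hn.2 j).1
    have hxinj : Function.Injective x := by
      intro j j' hjj
      by_contra hne'
      have h1 : 1 ≤ |(x j').1 - (x j).1| := by
        refine ge_of_tendsto (hdist _ _ _ _ (hx j) (hx j')) ?_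
        filter_upwards [hev, hbd _ _ (hx j), hbd _ _ (hx j')] with n c1 c2 c3
        exact (hQ n).sep _ (c1.2 j).1 _ (c1.2 j').1 (fun h => hne' (c1.1 h))
          c2.1 c2.2 c3.1 c3.2
      rw [hjj, sub_self, abs_zero] at h1
      linarith
    refine ⟨Finset.univ.image x, ?_, ?_⟩
    · intro l hl
      rw [Finset.mem_image] at hl
      obtain ⟨j, -, rfl⟩ := hl
      refine ⟨hxP j, ?_, ?_⟩
      · refine le_of_tendsto (hdist _ _ _ _ hy (hx j)) ?_
        filter_upwards [hev] with n hn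
        exact (hn.2 j).2.1
      · have t1 : Tendsto (fun n => |(f n j).2 - (y n).2
            - sl (y n) (z n) * ((f n j).1 - (y n).1)|) 𝒰
            (𝓝 |(x j).2 - u.2 - sl u v * ((x j).1 - u.1)|) :=
          (((hx j).snd_nhds.sub hy.snd_nhds).sub ((tendsto_sl hy hz hvu).mul
            ((hx j).fst_nhds.sub hy.fst_nhds))).abs
        have t2 : Tendsto (fun n => K * (T * √T) / |(z n).1 - (y n).1|) 𝒰
            (𝓝 (K * (T * √T) / d)) :=
          tendsto_const_nhds.div (hdist u v y z hy hz) hd0.ne'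
        have t3 : |(x j).2 - u.2 - sl u v * ((x j).1 - u.1)| ≤ K * (T * √T) / d := by
          refine le_of_tendsto_of_tendsto t1 t2 ?_
          filter_upwards [hev] with n hn
          exact (hn.2 j).2.2
        refine t3.trans ?_
        apply div_le_div_of_nonneg_right _ hd0.le
        linarith
    · rw [Finset.card_image_of_injective _ hxinj, Finset.card_univ, Fintype.card_fin]
      exact hm1
  · -- two
    choose p hp q hq hpq b1 b2 b3 b4 using fun n => (hQ n).two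
    obtain ⟨u, hu⟩ := exists_limit (f := p) (𝒰 := 𝒰) (C := K)
      (Eventually.of_forall fun n => ⟨b1 n, b2 n⟩)
    obtain ⟨v, hv⟩ := exists_limit (f := q) (𝒰 := 𝒰) (C := K)
      (Eventually.of_forall fun n => ⟨b3 n, b4 n⟩)
    refine ⟨u, ⟨p, hu, Eventually.of_forall hp⟩, v, ⟨q, hv, Eventually.of_forall hq⟩, ?_, ?_⟩
    · intro huv
      have h1 : 1 ≤ |v.1 - u.1| := by
        refine ge_of_tendsto (hdist _ _ _ _ hu hv) ?_
        filter_upwards [hbig K] with n hn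
        exact (hQ n).sep _ (hp n) _ (hq n) (hpq n) ((b1 n).trans hn) ((b2 n).trans hn)
          ((b3 n).trans hn) ((b4 n).trans hn)
      rw [huv, sub_self, abs_zero] at h1
      linarith
    · refine le_of_tendsto (hdist _ _ _ _ hu hv) ?_
      refine Eventually.of_forall fun n => ?_
      have a1 := abs_le.mp (b1 n)
      have a3 := abs_le.mp (b3 n)
      rw [abs_le]
      constructor <;> linarith

end FT
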