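import Pool.Agent.Work.MP_07b414_co.NN

set_option autoImplicit false

namespace FT

variable {K : ℝ} {P : Set (ℝ × ℝ)} {nb : ℝ × ℝ → ℝ × ℝ}

/-- the slope to a far point differs from the direction at the point -/
theorem Fsharp (hP : Conf K P) (hK : 1 ≤ K) (hnb : NN P nb) {V G : ℝ} (hV : 1 ≤ V) (hG : 1 ≤ G)
    (hW : ∀ i ∈ P, ∀ l ∈ P, l ≠ i →
      |sl i l - gr nb i| ≤ V * (max (rho nb i) (rho nb l)) ^ 100 * √|l.1 - i.1|) :
    ∃ ε T0 : ℝ, 0 < ε ∧ ε ≤ 1 ∧ 0 < T0 ∧ ∀ i ∈ P, ∀ l ∈ P, l ≠ i →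
      rho nb i ≤ G → rho nb l ≤ G → T0 ≤ |l.1 - i.1| →
      ε * √|l.1 - i.1| ≤ |sl i l - gr nb i| := by
  obtain ⟨V1, hV1⟩ : ∃ V1 : ℝ, V1 = V * G ^ 100 := ⟨_, rfl⟩
  have hV1p : 1 ≤ V1 := by
    rw [hV1]; exact one_le_mul_of_one_le_of_one_le hV (one_le_pow₀ hG)
  obtain ⟨Q, hQ⟩ : ∃ Q : ℝ, Q = V1 + K := ⟨_, rfl⟩
  have hQ1 : 1 ≤ Q := by rw [hQ]; linarith
  have hK0 : 0 < K := by linarith
  have hG0 : 0 < G := by linarith
  have hQ0 : 0 < Q := by linarith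
  obtain ⟨ε, hε⟩ : ∃ ε : ℝ, ε = 1 / (16 * K ^ 2 * G ^ 2 * Q) := ⟨_, rfl⟩
  have hε0 : 0 < ε := by rw [hε]; positivity
  have hε1 : ε ≤ 1 := by
    rw [hε, div_le_one (by positivity)]
    have : 1 ≤ K ^ 2 * G ^ 2 * Q :=
      one_le_mul_of_one_le_of_one_le
        (one_le_mul_of_one_le_of_one_le (one_le_pow₀ hK) (one_le_pow₀ hG)) hQ1
    linarith
  have hεQ : ε * (16 * K ^ 2 * G ^ 2 * Q) = 1 := by rw [hε]; field_simp
  obtain ⟨T0, hT0⟩ : ∃ T0 : ℝ, T0 = 2 * Q * K * G / ε + 4 * G := ⟨_, rfl⟩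
  have hT00 : 0 < T0 := by rw [hT0]; positivity
  refine ⟨ε, T0, hε0, hε1, hT00, fun i hi l hl hne hri hrl hT => ?_⟩
  by_contra hcon
  push Not at hcon
  obtain ⟨T, hTd⟩ : ∃ T : ℝ, T = |l.1 - i.1| := ⟨_, rfl⟩
  rw [← hTd] at hT hcon
  have hTp : 0 < T := lt_of_lt_of_le hT00 hT
  have hri1 := rho_ge_one hP hnb hi
  have hrl1 := rho_ge_one hP hnb hl
  have hsT : 0 < √T := Real.sqrt_pos.mpr hTp
  have hsTT : √T * √T = T := Real.mul_self_sqrt hTp.le
  obtain ⟨τ, hτ⟩ : ∃ τ : ℝ, τ = ε * T / (2 * Q) := ⟨_, rfl⟩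
  have hτ0 : 0 < τ := by rw [hτ]; positivity
  have hτT : τ ≤ T / 2 := by
    rw [hτ, div_le_div_iff₀ (by positivity) (by norm_num)]
    have h1 : ε * T ≤ 1 * T := mul_le_mul_of_nonneg_right hε1 hTp.le
    have h2 : 1 * T ≤ Q * T := mul_le_mul_of_nonneg_right hQ1 hTp.le
    linarith
  have hKτ : K * G ≤ τ := by
    rw [hτ, le_div_iff₀ (by positivity)]
    have h1 : 2 * Q * K * G / ε ≤ T := by
      have : 0 < 4 * G := by positivity
      linarith
    rw [div_le_iff₀ hε0] at h1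
    linarith
  have hT4 : 4 * G ≤ T := by
    have : 0 ≤ 2 * Q * K * G / ε := by positivity
    linarith
  obtain ⟨R, hR, hRc⟩ := row_nb hP hK hnb hl (T := τ)
    (le_trans (mul_le_mul_of_nonneg_left hrl hK0.le) hKτ)
  have hWli := hW l hl i hi (fun h => hne h.symm)
  rw [abs_sub_comm i.1 l.1, ← hTd] at hWli
  have hmax : max (rho nb l) (rho nb i) ≤ G := max_le hrl hri
  have hmax0 : 0 ≤ max (rho nb l) (rho nb i) := le_trans (by linarith) (le_max_left _ _)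
  have hWli' : |sl l i - gr nb l| ≤ V1 * √T := by
    refine hWli.trans ?_
    apply mul_le_mul_of_nonneg_right _ hsT.le
    rw [hV1]
    exact mul_le_mul_of_nonneg_left (pow_le_pow_left₀ hmax0 hmax 100) (by linarith)
  have hil : l.1 - i.1 ≠ 0 := by
    intro h0
    rw [h0, abs_zero] at hTd
    linarith
  have hslil := sl_mul hil
  -- all points of R have small slope difference
  have hmem : ∀ p ∈ R, p ∈ P ∧ 2 * |(nb i).1 - i.1| ≤ |p.1 - i.1| ∧
      |sl i p - sl i (nb i)| ≤ 2 * ε * √T := by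
    intro p hp
    obtain ⟨hpP, hp1, hp2⟩ := hR p hp
    have hd : T / 2 ≤ |p.1 - i.1| := by
      have h1 : |l.1 - i.1| ≤ |l.1 - p.1| + |p.1 - i.1| := abs_sub_le _ _ _
      rw [abs_sub_comm l.1 p.1] at h1
      linarith
    have hd0 : 0 < |p.1 - i.1| := by linarith
    have hpi : p.1 - i.1 ≠ 0 := abs_pos.mp hd0
    refine ⟨hpP, ?_, ?_⟩
    · have : |(nb i).1 - i.1| ≤ G := hri
      linarith
    have hslp := sl_mul hpi
    have e1 : (sl i p - sl i l) * (p.1 - i.1) =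
        (p.2 - l.2 - gr nb l * (p.1 - l.1)) - (sl l i - gr nb l) * (p.1 - l.1) := by
      rw [sl_comm l i]
      linear_combination hslp - hslil
    have h2 : |(sl i p - sl i l) * (p.1 - i.1)| ≤ Q * (τ * √T) := by
      rw [e1]
      have a1 := abs_sub (p.2 - l.2 - gr nb l * (p.1 - l.1)) ((sl l i - gr nb l) * (p.1 - l.1))
      have a2 : |(sl l i - gr nb l) * (p.1 - l.1)| ≤ V1 * √T * τ := by
        rw [abs_mul]
        exact mul_le_mul hWli' hp1 (abs_nonneg _) (by positivity)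
      have a3 : K * (τ * √τ) ≤ K * (τ * √T) := by
        apply mul_le_mul_of_nonneg_left _ hK0.le
        apply mul_le_mul_of_nonneg_left _ hτ0.le
        apply Real.sqrt_le_sqrt
        linarith
      rw [hQ]
      linarith
    rw [abs_mul] at h2
    have h3 : |sl i p - sl i l| * (T / 2) ≤ |sl i p - sl i l| * |p.1 - i.1| :=
      mul_le_mul_of_nonneg_left hd (abs_nonneg _)
    have h4 : |sl i p - sl i l| * (T / 2) ≤ ε * √T * (T / 2) := by
      refine h3.trans (h2.trans (le_of_eq ?_))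
      rw [hτ]; field_simp
    have h5 := le_of_mul_le_mul_right h4 (by positivity)
    have h6 : |sl i p - gr nb i| ≤ |sl i p - sl i l| + |sl i l - gr nb i| := abs_sub_le _ _ _
    have h7 : |sl i p - gr nb i| ≤ 2 * ε * √T := by linarith
    exact h7
  have hfew := hP.few i hi (nb i) (hnb i hi).1 (fun h => (hnb i hi).2.1 h.symm)
    (2 * ε * √T) (by positivity) R hmem
  have hr : |(nb i).1 - i.1| ≤ G := hri
  have h1 : (R.card : ℝ) ≤ K * G * (4 * ε ^ 2 * T) := by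
    refine hfew.trans ?_
    have e1 : (2 * ε * √T) ^ 2 = 4 * ε ^ 2 * T := by
      calc (2 * ε * √T) ^ 2 = 4 * ε ^ 2 * (√T * √T) := by ring
        _ = 4 * ε ^ 2 * T := by rw [hsTT]
    rw [e1]
    apply mul_le_mul_of_nonneg_right _ (by positivity)
    exact mul_le_mul_of_nonneg_left hr hK0.le
  have h2 : τ / (K * G) ≤ (R.card : ℝ) := by
    refine le_trans ?_ hRc
    apply div_le_div_of_nonneg_left hτ0.le (by positivity)
    exact mul_le_mul_of_nonneg_left hrl hK0.le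
  have h3 := h2.trans h1
  rw [div_le_iff₀ (by positivity), hτ, div_le_iff₀ (by positivity)] at h3
  have h4 : K * G * (4 * ε ^ 2 * T) * (K * G) * (2 * Q) = ε * T * (1 / 2) := by
    calc K * G * (4 * ε ^ 2 * T) * (K * G) * (2 * Q)
        = ε * T * (1 / 2) * (ε * (16 * K ^ 2 * G ^ 2 * Q)) := by ring
      _ = ε * T * (1 / 2) := by rw [hεQ]; ring
  rw [h4] at h3
  have h5 : 0 < ε * T := by positivity
  linarith

end FT
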