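import Pool.Agent.Work.MP_07b414_co.Gap

set_option autoImplicit false

namespace FT

/-- every long interval contains a gap of proportional length -/
theorem gap_lemma (X : Set ℝ) (h g : ℝ → ℝ) (V ε T0 : ℝ)
    (hV : 1 ≤ V) (hε : 0 < ε) (hε1 : ε ≤ 1) (hT0 : 0 < T0)
    (hfin : ∀ a b : ℝ, (X ∩ Set.Icc a b).Finite)
    (hW : ∀ x ∈ X, ∀ y ∈ X, |h y - h x - g x * (y - x)| ≤ V * (|y - x| * √|y - x|))
    (hF : ∀ x ∈ X, ∀ y ∈ X, T0 ≤ |y - x| →
      ε * (|y - x| * √|y - x|) ≤ |h y - h x - g x * (y - x)|) :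
    ∃ c S0 : ℝ, 0 < c ∧ c < 1 / 2 ∧ 0 < S0 ∧ ∀ α S : ℝ, S0 ≤ S →
      ∃ γ : ℝ, α ≤ γ ∧ γ + c * S ≤ α + S ∧ ∀ x ∈ X, ¬ (γ ≤ x ∧ x ≤ γ + c * S) := by
  have hV0 : 0 < V := by linarith
  obtain ⟨N, hN⟩ := exists_nat_gt (4 * V / ε)
  obtain ⟨t, ht⟩ : ∃ t : ℝ, t = (ε / (8 * V)) ^ 2 := ⟨_, rfl⟩
  obtain ⟨c1, hc1⟩ : ∃ c1 : ℝ, c1 = ε * t / 4 := ⟨_, rfl⟩
  obtain ⟨t', ht'⟩ : ∃ t' : ℝ, t' = c1 / (16 * V) := ⟨_, rfl⟩
  obtain ⟨ξ, hξ⟩ : ∃ ξ : ℝ, ξ = c1 / 4 := ⟨_, rfl⟩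
  obtain ⟨w, hw⟩ : ∃ w : ℝ, w = ξ * ε / (4 * V ^ 2 * N ^ 2) := ⟨_, rfl⟩
  obtain ⟨c, hc⟩ : ∃ c : ℝ, c = w ^ 2 / 2 := ⟨_, rfl⟩
  have hN0 : (0 : ℝ) < N := lt_trans (by positivity) hN
  have hN1 : (1 : ℝ) ≤ N := by
    have : 0 < N := by exact_mod_cast hN0
    exact_mod_cast this
  have ht0 : 0 < t := by rw [ht]; positivity
  have ht1 : t ≤ 1 / 64 := by
    have h1 : ε / (8 * V) ≤ 1 / 8 := by
      rw [div_le_div_iff₀ (by positivity) (by norm_num)]; linarith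
    have h2 := pow_le_pow_left₀ (by positivity) h1 2
    rw [ht]; linarith
  have hc10 : 0 < c1 := by rw [hc1]; positivity
  have hc1t : c1 ≤ t / 4 := by
    rw [hc1]
    have := mul_le_mul_of_nonneg_right hε1 ht0.le
    linarith
  have hξ0 : 0 < ξ := by rw [hξ]; positivity
  have hw0 : 0 < w := by rw [hw]; positivity
  have hVN : V ≤ V ^ 2 * N ^ 2 := by
    have h1 : (1 : ℝ) ≤ V * N ^ 2 := one_le_mul_of_one_le_of_one_le hV (one_le_pow₀ hN1)
    have := mul_le_mul_of_nonneg_left h1 hV0.le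
    calc V = V * 1 := by ring
      _ ≤ V * (V * N ^ 2) := this
      _ = V ^ 2 * N ^ 2 := by ring
  have hwt : w ≤ t' := by
    rw [hw, ht', hξ]
    rw [div_le_div_iff₀ (by positivity) (by positivity)]
    have h1 : c1 / 4 * ε ≤ c1 / 4 := by
      have := mul_le_mul_of_nonneg_left hε1 (show 0 ≤ c1 / 4 by positivity)
      linarith
    calc c1 / 4 * ε * (16 * V) ≤ c1 / 4 * (16 * (V ^ 2 * N ^ 2)) := by
          apply mul_le_mul h1 _ (by positivity) (by positivity)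
          linarith
      _ = c1 * (4 * V ^ 2 * N ^ 2) := by ring
  have ht'1 : t' ≤ c1 / 16 := by
    rw [ht']
    apply div_le_div_of_nonneg_left hc10.le (by norm_num); linarith
  have hw1 : w ≤ 1 := by linarith
  have hcw : c ≤ w / 2 := by
    rw [hc]
    have := mul_le_mul_of_nonneg_right hw1 hw0.le
    nlinarith
  have hc0 : 0 < c := by rw [hc]; positivity
  have hct : c ≤ t' := by linarith
  have hc12 : c < 1 / 2 := by linarith
  have hcs : √(2 * c) = ξ * ε / (4 * V ^ 2 * N ^ 2) := by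
    have : 2 * c = w ^ 2 := by rw [hc]; ring
    rw [this, Real.sqrt_sq hw0.le, hw]
  obtain ⟨S0, hS0⟩ : ∃ S0 : ℝ, S0 = 4 * T0 + 4 * T0 * V ^ 2 * N ^ 4 / ξ ^ 2 := ⟨_, rfl⟩
  have hS00 : 0 < S0 := by rw [hS0]; positivity
  refine ⟨c, S0, hc0, hc12, hS00, fun α S hS => ?_⟩
  by_contra hcon
  push Not at hcon
  have hSp : 0 < S := lt_of_lt_of_le hS00 hS
  have hsS : 0 < √S := Real.sqrt_pos.mpr hSp
  have hSS : √S ^ 2 = S := Real.sq_sqrt hSp.le
  have hdense : ∀ γ : ℝ, α ≤ γ → γ + c * S ≤ α + S → ∃ x ∈ X, γ ≤ x ∧ x ≤ γ + c * S :=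
    fun γ h1 h2 => hcon γ h1 h2
  have hcS : c * S ≤ 1 / 4 * S := mul_le_mul_of_nonneg_right (by linarith) hSp.le
  have hcS0 : 0 < c * S := by positivity
  obtain ⟨xa, hxa, hxa1, hxa2⟩ := hdense α le_rfl (by linarith)
  obtain ⟨xb, hxb, hxb1, hxb2⟩ := hdense (α + S - c * S) (by linarith) (by linarith)
  replace hxb2 : xb ≤ α + S := by linarith
  have hL : S / 4 ≤ xb - xa := by linarith
  have hL0 : 0 < xb - xa := by linarith
  have hT0S : T0 ≤ S / 4 := by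
    have h1 : 0 ≤ 4 * T0 * V ^ 2 * N ^ 4 / ξ ^ 2 := by positivity
    linarith
  obtain ⟨σ0, hσ0⟩ : ∃ σ0 : ℝ, σ0 = (h xb - h xa) / (xb - xa) := ⟨_, rfl⟩
  have hσ0' : h xb - h xa = σ0 * (xb - xa) := by
    rw [hσ0, div_mul_cancel₀ _ hL0.ne']
  obtain ⟨e, he⟩ : ∃ e : ℝ, e = V * √(2 * c * S) := ⟨_, rfl⟩
  obtain ⟨D, hD⟩ : ∃ D : ℝ, D = 2 * ξ * √S / N ^ 2 := ⟨_, rfl⟩
  have hT0D : T0 ≤ (D / (4 * V)) ^ 2 := by
    have e1 : (D / (4 * V)) ^ 2 = ξ ^ 2 * S / (4 * V ^ 2 * N ^ 4) := by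
      rw [hD]
      have : (2 * ξ * √S / N ^ 2 / (4 * V)) ^ 2 = ξ ^ 2 * √S ^ 2 / (4 * V ^ 2 * N ^ 4) := by
        field_simp; ring
      rw [this, hSS]
    rw [e1, le_div_iff₀ (by positivity)]
    have h1 : 4 * T0 * V ^ 2 * N ^ 4 / ξ ^ 2 ≤ S := by linarith
    rw [div_le_iff₀ (by positivity)] at h1
    linarith
  have hFab := hF xa hxa xb hxb (by rw [abs_of_pos hL0]; linarith)
  have hab : ε / 2 * √S ≤ |σ0 - g xa| := by
    have e1 : h xb - h xa - g xa * (xb - xa) = (σ0 - g xa) * (xb - xa) := by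
      linear_combination hσ0'
    rw [e1, abs_mul, abs_of_pos hL0] at hFab
    have h2 : ε * √(xb - xa) * (xb - xa) ≤ |σ0 - g xa| * (xb - xa) := by linarith
    have h3 := le_of_mul_le_mul_right h2 hL0
    have h4 : √S / 2 ≤ √(xb - xa) := by
      have : √(S / 4) = √S / 2 := by
        rw [show S / 4 = S / 2 ^ 2 by ring, Real.sqrt_div hSp.le, Real.sqrt_sq (by norm_num)]
      rw [← this]
      exact Real.sqrt_le_sqrt hL
    have h5 := mul_le_mul_of_nonneg_left h4 hε.le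
    linarith
  rcases le_abs.mp hab with hc' | hc'
  · exact gap_aux X h g V ε T0 t t' c1 ξ c e D α S xa xb σ0 N hV hε hε1 hfin hW hF hSp ht hc1 ht'
      hξ hN hc0 hct hcs he hD hT0D hdense hxa hxa1 hxa2 hxb hxb1 hxb2 hσ0' (by linarith)
  · refine gap_aux X (fun x => -h x) (fun x => -g x) V ε T0 t t' c1 ξ c e D α S xa xb (-σ0) N
      hV hε hε1 hfin ?_ ?_ hSp ht hc1 ht'
      hξ hN hc0 hct hcs he hD hT0D hdense hxa hxa1 hxa2 hxb hxb1 hxb2 ?_ ?_
    · intro x hx y hy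
      have := hW x hx y hy
      rw [show -h y - -h x - -g x * (y - x) = -(h y - h x - g x * (y - x)) by ring, abs_neg]
      exact this
    · intro x hx y hy hxy
      have := hF x hx y hy hxy
      rw [show -h y - -h x - -g x * (y - x) = -(h y - h x - g x * (y - x)) by ring, abs_neg]
      exact this
    · linarith
    · linarith

theorem card_sep_real {F : Finset ℝ} {D : ℝ} (hD : 0 ≤ D)
    (h1 : ∀ u ∈ F, ∀ v ∈ F, u ≠ v → 1 ≤ |v - u|)
    (h2 : ∀ u ∈ F, ∀ v ∈ F, |v - u| ≤ D) : (F.card : ℝ) ≤ D + 1 := by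
  classical
  rcases F.eq_empty_or_nonempty with rfl | hne
  · simp
    positivity
  obtain ⟨m, hm, hmin⟩ := F.exists_min_image (fun u => u) hne
  have hcard : F.card ≤ (Finset.range (⌊D⌋₊ + 1)).card := by
    apply Finset.card_le_card_of_injOn (fun u => ⌊u - m⌋₊)
    · intro u hu
      simp only [Finset.coe_range, Set.mem_Iio]
      have h3 := h2 m hm u hu
      have h4 : u - m ≤ D := le_trans (le_abs_self _) h3
      have := Nat.floor_le_floor h4
      omega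
    · intro u hu v hv huv
      by_contra hne
      have h3 := h1 u hu v hv hne
      simp only at huv
      have hu0 : 0 ≤ u - m := by have := hmin u hu; linarith
      have hv0 : 0 ≤ v - m := by have := hmin v hv; linarith
      have a1 := Nat.floor_le hu0
      have a2 := Nat.lt_floor_add_one (u - m)
      have b1 := Nat.floor_le hv0
      have b2 := Nat.lt_floor_add_one (v - m)
      rw [huv] at a1 a2
      have : |v - u| < 1 := abs_lt.mpr ⟨by linarith, by linarith⟩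
      linarith
  rw [Finset.card_range] at hcard
  have h5 : (F.card : ℝ) ≤ (⌊D⌋₊ : ℝ) + 1 := by exact_mod_cast hcard
  have h6 := Nat.floor_le hD
  linarith

/-- sets with proportional gaps are sparse -/
theorem density (X : Set ℝ) (hsep : ∀ x ∈ X, ∀ y ∈ X, x ≠ y → 1 ≤ |y - x|)
    (c S0 : ℝ) (hc : 0 < c) (hc1 : c < 1 / 2) (hS0 : 0 < S0)
    (hgap : ∀ α S : ℝ, S0 ≤ S →
      ∃ γ : ℝ, α ≤ γ ∧ γ + c * S ≤ α + S ∧ ∀ x ∈ X, ¬ (γ ≤ x ∧ x ≤ γ + c * S)) (n : ℕ) :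
    ∃ B : ℝ, 0 ≤ B ∧ ∀ α S : ℝ, 0 ≤ S → ∀ F : Finset ℝ,
      (∀ x ∈ F, x ∈ X ∧ α ≤ x ∧ x ≤ α + S) → (F.card : ℝ) ≤ (1 - c) ^ n * S + B := by
  have hcn : ∀ n : ℕ, 0 ≤ (1 - c) ^ n := fun n => pow_nonneg (by linarith) n
  induction n with
  | zero =>
    refine ⟨1, zero_le_one, fun α S hS F hF => ?_⟩
    have := card_sep_real (F := F) (D := S) hS
      (fun u hu v hv huv => hsep u (hF u hu).1 v (hF v hv).1 huv)
      (fun u hu v hv => by
        obtain ⟨-, a1, a2⟩ := hF u hu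
        obtain ⟨-, b1, b2⟩ := hF v hv
        rw [abs_le]; constructor <;> linarith)
    simpa using this
  | succ n ih =>
    classical
    obtain ⟨B, hB, ih⟩ := ih
    refine ⟨2 * B + S0 + 1, by positivity, fun α S hS F hF => ?_⟩
    rcases lt_or_ge S S0 with hlt | hge
    · have h1 := card_sep_real (F := F) (D := S) hS
        (fun u hu v hv huv => hsep u (hF u hu).1 v (hF v hv).1 huv)
        (fun u hu v hv => by
          obtain ⟨-, a1, a2⟩ := hF u hu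
          obtain ⟨-, b1, b2⟩ := hF v hv
          rw [abs_le]; constructor <;> linarith)
      have h2 := mul_nonneg (hcn (n + 1)) hS
      linarith
    · obtain ⟨γ, hγ1, hγ2, hγ3⟩ := hgap α S hge
      have hcS0 : 0 ≤ c * S := by positivity
      have h1 := ih α (γ - α) (by linarith) (F.filter (fun x => x ≤ γ)) (by
        intro x hx
        rw [Finset.mem_filter] at hx
        obtain ⟨a1, a2, a3⟩ := hF x hx.1
        exact ⟨a1, a2, by linarith [hx.2]⟩)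
      have h2 := ih (γ + c * S) (α + S - (γ + c * S)) (by linarith)
        (F.filter (fun x => ¬ x ≤ γ)) (by
        intro x hx
        rw [Finset.mem_filter] at hx
        obtain ⟨a1, a2, a3⟩ := hF x hx.1
        refine ⟨a1, ?_, by linarith⟩
        by_contra hlt
        push Not at hlt
        exact hγ3 x a1 ⟨by linarith [not_le.mp hx.2], hlt.le⟩)
      have h3 : (F.filter (fun x => x ≤ γ)).card + (F.filter (fun x => ¬ x ≤ γ)).card = F.card :=
        Finset.card_filter_add_card_filter_not _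
      have h4 : ((F.filter (fun x => x ≤ γ)).card : ℝ) + ((F.filter (fun x => ¬ x ≤ γ)).card : ℝ)
          = F.card := by exact_mod_cast h3
      have e1 : (1 - c) ^ (n + 1) * S = (1 - c) ^ n * (γ - α)
          + (1 - c) ^ n * (α + S - (γ + c * S)) := by ring
      rw [e1, ← h4]
      linarith

end FT
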