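import Pool.Agent.Work.MP_07b414_co.W
import Pool.Agent.Work.MP_07b414_co.Fsharp
import Pool.Agent.Work.MP_07b414_co.GapLemma

set_option autoImplicit false

namespace FT

variable {K : ℝ} {P : Set (ℝ × ℝ)}

/-- there are no limit configurations -/
theorem no_conf (hK : 1 ≤ K) : ¬ Conf K P := by
  classical
  intro hP
  obtain ⟨nb, hnb⟩ := exists_NN hP
  obtain ⟨V, hV, hW⟩ := W hP hK hnb
  have hK0 : 0 < K := by linarith
  have hK2 : 1 ≤ K ^ 2 := one_le_pow₀ hK
  obtain ⟨G, hG⟩ : ∃ G : ℝ, G = 8 * K ^ 2 := ⟨_, rfl⟩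
  have hG1 : 1 ≤ G := by rw [hG]; linarith
  have hG0 : 0 < G := by linarith
  obtain ⟨ε, T0, hε, hε1, hT0, hF⟩ := Fsharp hP hK hnb hV hG1 hW
  -- the set of first coordinates
  set X : Set ℝ := {x | ∃ u ∈ P, rho nb u ≤ G ∧ u.1 = x} with hX
  have hptex : ∀ x : ℝ, ∃ u : ℝ × ℝ, x ∈ X → (u ∈ P ∧ rho nb u ≤ G ∧ u.1 = x) := by
    intro x
    by_cases hx : x ∈ X
    · obtain ⟨u, h1, h2, h3⟩ := hx
      exact ⟨u, fun _ => ⟨h1, h2, h3⟩⟩
    · exact ⟨(0, 0), fun h => absurd h hx⟩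
  choose pt hpt using hptex
  have hsep : ∀ x ∈ X, ∀ y ∈ X, x ≠ y → 1 ≤ |y - x| := by
    intro x hx y hy hxy
    obtain ⟨a1, a2, a3⟩ := hpt x hx
    obtain ⟨b1, b2, b3⟩ := hpt y hy
    have := hP.sep (pt x) a1 (pt y) b1 (fun h => hxy (by rw [← a3, ← b3, h]))
    rwa [a3, b3] at this
  have hfin : ∀ a b : ℝ, (X ∩ Set.Icc a b).Finite := by
    intro a b
    have h1 := finite_window hP ((a + b) / 2) (|b - a| / 2)
    apply (h1.image Prod.fst).subset
    rintro x ⟨hx, hxa, hxb⟩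
    obtain ⟨a1, a2, a3⟩ := hpt x hx
    refine ⟨pt x, ⟨a1, ?_⟩, a3⟩
    rw [a3, abs_le]
    have := le_abs_self (b - a)
    constructor <;> linarith
  set h : ℝ → ℝ := fun x => (pt x).2 with hh
  set g : ℝ → ℝ := fun x => gr nb (pt x) with hg
  obtain ⟨V1, hV1⟩ : ∃ V1 : ℝ, V1 = V * G ^ 100 := ⟨_, rfl⟩
  have hV1p : 1 ≤ V1 := by
    rw [hV1]; exact one_le_mul_of_one_le_of_one_le hV (one_le_pow₀ hG1)
  have key : ∀ x ∈ X, ∀ y ∈ X, x ≠ y → pt y ≠ pt x ∧
      |h y - h x - g x * (y - x)| = |sl (pt x) (pt y) - gr nb (pt x)| * |y - x| := by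
    intro x hx y hy hxy
    obtain ⟨a1, a2, a3⟩ := hpt x hx
    obtain ⟨b1, b2, b3⟩ := hpt y hy
    refine ⟨fun h => hxy (by rw [← a3, ← b3, h]), ?_⟩
    rw [← abs_mul]
    congr 1
    have h1 : (pt y).1 - (pt x).1 ≠ 0 := by
      rw [a3, b3]; exact sub_ne_zero.mpr (fun h => hxy h.symm)
    have h2 := sl_mul h1
    rw [a3, b3] at h2
    simp only [hh, hg]
    linear_combination -h2
  have hWX : ∀ x ∈ X, ∀ y ∈ X, |h y - h x - g x * (y - x)| ≤ V1 * (|y - x| * √|y - x|) := by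
    intro x hx y hy
    by_cases hxy : x = y
    · subst hxy
      simp
    · obtain ⟨a1, a2, a3⟩ := hpt x hx
      obtain ⟨b1, b2, b3⟩ := hpt y hy
      obtain ⟨k1, k2⟩ := key x hx y hy hxy
      rw [k2]
      have h1 := hW (pt x) a1 (pt y) b1 k1
      rw [a3, b3] at h1
      have hmax : max (rho nb (pt x)) (rho nb (pt y)) ≤ G := max_le a2 b2
      have hmax0 : 0 ≤ max (rho nb (pt x)) (rho nb (pt y)) :=
        le_trans (by have := rho_ge_one hP hnb a1; linarith) (le_max_left _ _)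
      have h2 : |sl (pt x) (pt y) - gr nb (pt x)| ≤ V1 * √|y - x| := by
        refine h1.trans ?_
        apply mul_le_mul_of_nonneg_right _ (Real.sqrt_nonneg _)
        rw [hV1]
        exact mul_le_mul_of_nonneg_left (pow_le_pow_left₀ hmax0 hmax 100) (by linarith)
      have h3 := mul_le_mul_of_nonneg_right h2 (abs_nonneg (y - x))
      linarith
  have hFX : ∀ x ∈ X, ∀ y ∈ X, T0 ≤ |y - x| →
      ε * (|y - x| * √|y - x|) ≤ |h y - h x - g x * (y - x)| := by
    intro x hx y hy hT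
    have hxy : x ≠ y := by
      intro hxy
      rw [hxy, sub_self, abs_zero] at hT
      linarith
    obtain ⟨a1, a2, a3⟩ := hpt x hx
    obtain ⟨b1, b2, b3⟩ := hpt y hy
    obtain ⟨k1, k2⟩ := key x hx y hy hxy
    rw [k2]
    have h1 := hF (pt x) a1 (pt y) b1 k1 a2 b2 (by rw [a3, b3]; exact hT)
    rw [a3, b3] at h1
    have h3 := mul_le_mul_of_nonneg_right h1 (abs_nonneg (y - x))
    linarith
  obtain ⟨c, S0, hc, hc1, hS0, hgap⟩ :=
    gap_lemma X h g V1 ε T0 hV1p hε hε1 hT0 hfin hWX hFX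
  -- choose n
  obtain ⟨n, hn⟩ : ∃ n : ℕ, (1 - c) ^ n < 1 / (8 * K ^ 2) :=
    exists_pow_lt_of_lt_one (by positivity) (by linarith)
  obtain ⟨B, hB, hdens⟩ := density X hsep c S0 hc hc1 hS0 hgap n
  obtain ⟨u0, hu0, v0, hv0, huv, huvK⟩ := hP.two
  have huv1 := hP.sep u0 hu0 v0 hv0 huv
  obtain ⟨T, hT⟩ : ∃ T : ℝ, T = 4 * K ^ 2 * (B + 2) := ⟨_, rfl⟩
  have hTK : 4 * K ^ 2 ≤ T := by
    rw [hT]
    have : 0 ≤ 4 * K ^ 2 * (B + 1) := by positivity
    linarith
  have hTp : 0 < T := lt_of_lt_of_le (by positivity) hTK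
  obtain ⟨R, hR, hRc⟩ := hP.row u0 hu0 v0 hv0 huv T (by
    have := mul_le_mul_of_nonneg_left huvK hK0.le
    have e : K * K = K ^ 2 := by ring
    have : 0 < K ^ 2 := by positivity
    linarith)
  have hRc' : T / K ^ 2 ≤ (R.card : ℝ) := by
    refine le_trans ?_ hRc
    apply div_le_div_of_nonneg_left hTp.le (by positivity)
    have := mul_le_mul_of_nonneg_left huvK hK0.le
    have e : K * K = K ^ 2 := by ring
    linarith
  have hsplit : (R.filter (fun u => rho nb u ≤ G)).card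
      + (R.filter (fun u => ¬ rho nb u ≤ G)).card = R.card :=
    Finset.card_filter_add_card_filter_not _
  have hsplit' : ((R.filter (fun u => rho nb u ≤ G)).card : ℝ)
      + ((R.filter (fun u => ¬ rho nb u ≤ G)).card : ℝ) = R.card := by exact_mod_cast hsplit
  have hlon : ((R.filter (fun u => ¬ rho nb u ≤ G)).card : ℝ) ≤ 2 * T / G + 1 := by
    apply card_lonely hnb hG0 (by positivity)
    · intro u hu
      rw [Finset.mem_filter] at hu
      exact ⟨(hR u hu.1).1, (not_le.mp hu.2).le⟩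
    · intro u hu v hv
      rw [Finset.mem_filter] at hu hv
      have a1 := (hR u hu.1).2.1
      have a2 := (hR v hv.1).2.1
      rw [abs_le] at *
      constructor <;> linarith
  have hinj : ((R.filter (fun u => rho nb u ≤ G)).image Prod.fst).card
      = (R.filter (fun u => rho nb u ≤ G)).card := by
    apply Finset.card_image_of_injOn
    intro u hu v hv huv'
    simp only [Finset.coe_filter, Set.mem_ofPred_eq] at hu hv
    by_contra hne
    have := hP.sep u (hR u hu.1).1 v (hR v hv.1).1 hne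
    rw [huv', sub_self, abs_zero] at this
    linarith
  have hd := hdens (u0.1 - T) (2 * T) (by positivity)
    ((R.filter (fun u => rho nb u ≤ G)).image Prod.fst) (by
      intro x hx
      rw [Finset.mem_image] at hx
      obtain ⟨u, hu, rfl⟩ := hx
      rw [Finset.mem_filter] at hu
      obtain ⟨a1, a2, a3⟩ := hR u hu.1
      rw [abs_le] at a2
      refine ⟨⟨u, a1, hu.2, rfl⟩, ?_, ?_⟩ <;> linarith)
  rw [hinj] at hd
  have e1 : 2 * T / G = T / K ^ 2 / 4 := by rw [hG]; field_simp; ring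
  have e2 : (1 - c) ^ n * (2 * T) ≤ 1 / (8 * K ^ 2) * (2 * T) :=
    mul_le_mul_of_nonneg_right hn.le (by positivity)
  have e3 : 1 / (8 * K ^ 2) * (2 * T) = T / K ^ 2 / 4 := by field_simp; ring
  have e4 : T / K ^ 2 = 4 * (B + 2) := by rw [hT]; field_simp
  rw [e1] at hlon
  rw [e3] at e2
  rw [e4] at hlon e2 hRc'
  linarith

end FT
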