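import Pool.Agent.Work.MP_07b414_co.NearSum

set_option autoImplicit false

namespace FT

variable {K : ℝ} {P : Set (ℝ × ℝ)} {nb : ℝ × ℝ → ℝ × ℝ}

theorem aset (hP : Conf K P) (hK : 1 ≤ K) (hnb : NN P nb) {i : ℝ × ℝ} (hi : i ∈ P) {G s : ℝ}
    (hG : 1 ≤ G) (hri : rho nb i ≤ G) (hs : 4 * K * G ≤ s) :
    ∃ A : Finset (ℝ × ℝ), (∀ p ∈ A, p ∈ P ∧ |p.1 - i.1| ≤ s ∧
      |p.2 - i.2 - gr nb i * (p.1 - i.1)| ≤ K * (s * √s) ∧ rho nb p ≤ 8 * K * G) ∧
      s / (2 * K * G) ≤ (A.card : ℝ) := by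
  classical
  have hr1 := rho_ge_one hP hnb hi
  have hs0 : 0 < s := lt_of_lt_of_le (by positivity) hs
  have hKr : K * rho nb i ≤ K * G := mul_le_mul_of_nonneg_left hri (by positivity)
  have hKG : 0 < K * G := by positivity
  obtain ⟨R, hR, hRc⟩ := row_nb hP hK hnb hi (T := s) (by linarith)
  refine ⟨R.filter (fun p => rho nb p ≤ 8 * K * G), fun p hp => ?_, ?_⟩
  · rw [Finset.mem_filter] at hp
    obtain ⟨a1, a2, a3⟩ := hR p hp.1
    exact ⟨a1, a2, a3, hp.2⟩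
  · have h1 : ((R.filter (fun p => ¬ (rho nb p ≤ 8 * K * G))).card : ℝ) ≤
        (2 * s) / (8 * K * G) + 1 := by
      apply card_lonely hnb (by positivity) (by positivity)
      · intro u hu
        rw [Finset.mem_filter] at hu
        push Not at hu
        exact ⟨(hR u hu.1).1, hu.2.le⟩
      · intro u hu v hv
        rw [Finset.mem_filter] at hu hv
        have a1 := (hR u hu.1).2.1
        have a2 := (hR v hv.1).2.1
        rw [abs_le] at *
        constructor <;> linarith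
    have h2 := Finset.card_filter_add_card_filter_not (s := R) (fun p => rho nb p ≤ 8 * K * G)
    have h3 : ((R.filter (fun p => rho nb p ≤ 8 * K * G)).card : ℝ) +
        ((R.filter (fun p => ¬ (rho nb p ≤ 8 * K * G))).card : ℝ) = R.card := by exact_mod_cast h2
    have h4 : s / (K * G) ≤ s / (K * rho nb i) :=
      div_le_div_of_nonneg_left hs0.le (by positivity) hKr
    have e1 : s / (K * G) = 4 * (s / (4 * K * G)) := by field_simp
    have e2 : (2 * s) / (8 * K * G) = s / (4 * K * G) := by field_simp; ring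
    have e3 : s / (2 * K * G) = 2 * (s / (4 * K * G)) := by field_simp; ring
    have e4 : 1 ≤ s / (4 * K * G) := by
      rw [le_div_iff₀ (by positivity)]; linarith only [hs]
    rw [e3]
    rw [e2] at h1
    rw [e1] at h4
    linarith only [hRc, h1, h3, h4, e4]

theorem aset_slopes (hP : Conf K P) (hK : 1 ≤ K) {i l : ℝ × ℝ} (hi : i ∈ P)
    (hl : l ∈ P) (hne : l ≠ i) {T H s V G : ℝ} (hT : T = |l.1 - i.1|)
    (hH : |sl i l - gr nb i| = H) (hH0 : 0 < H) (hG : 1 ≤ G) (hV : 0 ≤ V)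
    (hri : rho nb i ≤ G) (hr0 : ∀ u ∈ P, 0 ≤ rho nb u)
    (hs0 : 0 < s) (hsT : s ≤ T / 8) (hdev : K * (s * √s) ≤ H * T / 8)
    (hsm : V * (8 * K * G) ^ 100 * √(2 * s) ≤ H / 24)
    (IH : ∀ u ∈ P, ∀ v ∈ P, v ≠ u → |v.1 - u.1| ≤ T / 2 →
      |sl u v - gr nb u| ≤ V * (max (rho nb u) (rho nb v)) ^ 100 * √|v.1 - u.1|)
    {p p' : ℝ × ℝ} (hp : p ∈ P ∧ |p.1 - i.1| ≤ s ∧
      |p.2 - i.2 - gr nb i * (p.1 - i.1)| ≤ K * (s * √s) ∧ rho nb p ≤ 8 * K * G)
    (hp' : p' ∈ P ∧ |p'.1 - i.1| ≤ s ∧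
      |p'.2 - i.2 - gr nb i * (p'.1 - i.1)| ≤ K * (s * √s) ∧ rho nb p' ≤ 8 * K * G) :
    (T / 2 ≤ |l.1 - p.1| ∧ |l.1 - p.1| ≤ 2 * T) ∧ 3 / 4 * H ≤ |sl p l - gr nb i| ∧
      H / (4 * T) * |p'.1 - p.1| ≤ |sl p l - sl p' l| := by
  have hT0 : 0 < T := by linarith only [hs0, hsT]
  have hdist : ∀ q : ℝ × ℝ, |q.1 - i.1| ≤ s → 7 / 8 * T ≤ |l.1 - q.1| ∧ |l.1 - q.1| ≤ 9 / 8 * T := by
    intro q hq
    have e1 : l.1 - q.1 = (l.1 - i.1) - (q.1 - i.1) := by ring
    have e2 : l.1 - i.1 = (l.1 - q.1) + (q.1 - i.1) := by ring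
    constructor
    · have := abs_add_le (l.1 - q.1) (q.1 - i.1)
      rw [← e2, ← hT] at this
      linarith only [hsT, hq, this]
    · rw [e1]
      have := abs_sub (l.1 - i.1) (q.1 - i.1)
      rw [← hT] at this
      linarith only [hsT, hq, this]
  have hdp := hdist p hp.2.1
  have hdp' := hdist p' hp'.2.1
  have hslope : ∀ q : ℝ × ℝ, |q.1 - i.1| ≤ s →
      |q.2 - i.2 - gr nb i * (q.1 - i.1)| ≤ K * (s * √s) → 3 / 4 * H ≤ |sl q l - gr nb i| := by
    intro q hq1 hq2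
    obtain ⟨d1, d2⟩ := hdist q hq1
    have hq0 : l.1 - q.1 ≠ 0 := by
      intro h; rw [h, abs_zero] at d1; linarith only [hs0, hsT, d1]
    have hi0 : l.1 - i.1 ≠ 0 := by
      intro h; rw [h, abs_zero] at hT; linarith only [hT, hs0, hsT]
    have e1 := sl_mul hq0
    have e2 := sl_mul hi0
    have e3 : (sl i l - gr nb i) * (l.1 - i.1) = (sl q l - gr nb i) * (l.1 - q.1)
        + (q.2 - i.2 - gr nb i * (q.1 - i.1)) := by
      linear_combination e2 - e1
    have e4 : H * T ≤ |sl q l - gr nb i| * (9 / 8 * T) + K * (s * √s) := by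
      have t1 := abs_add_le ((sl q l - gr nb i) * (l.1 - q.1))
        (q.2 - i.2 - gr nb i * (q.1 - i.1))
      rw [← e3, abs_mul, abs_mul, hH, ← hT] at t1
      have t2 : |sl q l - gr nb i| * |l.1 - q.1| ≤ |sl q l - gr nb i| * (9 / 8 * T) :=
        mul_le_mul_of_nonneg_left d2 (abs_nonneg _)
      linarith only [hq2, t1, t2]
    have e5 : 7 / 8 * H * T ≤ |sl q l - gr nb i| * (9 / 8) * T := by nlinarith only [hdev, e4]
    have e6 := le_of_mul_le_mul_right e5 hT0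
    linarith only [hH0, e6]
  refine ⟨⟨by linarith only [hs0, hsT, hdp], by linarith only [hs0, hsT, hdp]⟩, hslope p hp.2.1 hp.2.2.1, ?_⟩
  by_cases hpp : p = p'
  · rw [hpp]; simp
  have hKG : 1 ≤ 8 * K * G := by nlinarith only [hK, hG]
  -- small slopes inside A
  have hsmall : ∀ u v : ℝ × ℝ, u ∈ P → v ∈ P → v ≠ u → |v.1 - u.1| ≤ 2 * s →
      rho nb u ≤ 8 * K * G → rho nb v ≤ 8 * K * G → |sl u v - gr nb u| ≤ H / 24 := by
    intro u v hu hv huv hd hru hrv
    refine (IH u hu v hv huv (by linarith only [hs0, hsT, hd])).trans ?_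
    refine le_trans ?_ hsm
    have m1 : max (rho nb u) (rho nb v) ≤ 8 * K * G := max_le hru hrv
    have m0 : 0 ≤ max (rho nb u) (rho nb v) := le_trans (hr0 u hu) (le_max_left _ _)
    have m2 : (max (rho nb u) (rho nb v)) ^ 100 ≤ (8 * K * G) ^ 100 := pow_le_pow_left₀ m0 m1 _
    have m3 : √|v.1 - u.1| ≤ √(2 * s) := Real.sqrt_le_sqrt hd
    exact mul_le_mul (mul_le_mul_of_nonneg_left m2 hV) m3 (Real.sqrt_nonneg _) (by positivity)
  have hri8 : rho nb i ≤ 8 * K * G := by nlinarith only [hK, hG, hri, hKG]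
  have hgp : |gr nb p - gr nb i| ≤ H / 12 := by
    by_cases hpi : p = i
    · rw [hpi]; simp; positivity
    · have a1 := hsmall p i hp.1 hi (fun h => hpi h.symm)
        (by rw [abs_sub_comm]; linarith only [hp.2.1, hs0, hp]) hp.2.2.2 hri8
      have a2 := hsmall i p hi hp.1 hpi (by linarith only [hp.2.1, hs0, hp]) hri8 hp.2.2.2
      rw [sl_comm] at a1
      have := abs_sub_le (gr nb p) (sl i p) (gr nb i)
      rw [abs_sub_comm (gr nb p) (sl i p)] at this
      linarith only [a1, a2, this]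
  have hpp' : |sl p p' - gr nb i| ≤ H / 8 := by
    have a1 := hsmall p p' hp.1 hp'.1 (fun h => hpp h.symm) (by
      have b1 := hp.2.1
      have b2 := hp'.2.1
      rw [abs_le] at *
      constructor <;> linarith) hp.2.2.2 hp'.2.2.2
    have := abs_sub_le (sl p p') (gr nb p) (gr nb i)
    linarith only [hgp, a1, this]
  have hs1 := hP.sep p hp.1 p' hp'.1 hpp
  have hl0 : l.1 - p.1 ≠ 0 := by
    intro h; rw [h, abs_zero] at hdp; linarith only [hdp.1, hs0, hsT, hdp]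
  have hl0' : l.1 - p'.1 ≠ 0 := by
    intro h; rw [h, abs_zero] at hdp'; linarith only [hdp'.1, hs0, hsT, hdp']
  have t := tri (p := p) (p' := p') (l := l) hl0 hl0' (sub_ne_of_one_le hs1)
  have t1 : |sl p' l - sl p l| * |l.1 - p'.1| = |sl p l - sl p p'| * |p'.1 - p.1| := by
    rw [← abs_mul, ← abs_mul, t]
  have t2 : H / 2 ≤ |sl p l - sl p p'| := by
    have b1 := hslope p hp.2.1 hp.2.2.1
    have b2 := abs_sub_le (sl p l) (sl p p') (gr nb i)
    linarith only [hH0, hpp', b1, b2]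
  have t3 : H / 2 * |p'.1 - p.1| ≤ |sl p' l - sl p l| * (2 * T) := by
    calc H / 2 * |p'.1 - p.1| ≤ |sl p l - sl p p'| * |p'.1 - p.1| :=
          mul_le_mul_of_nonneg_right t2 (abs_nonneg _)
      _ = |sl p' l - sl p l| * |l.1 - p'.1| := t1.symm
      _ ≤ |sl p' l - sl p l| * (2 * T) :=
          mul_le_mul_of_nonneg_left (by linarith only [hdp'.2, hs0, hsT, hdp']) (abs_nonneg _)
  rw [abs_sub_comm (sl p l)]
  have e : H / (4 * T) * |p'.1 - p.1| = (H / 2 * |p'.1 - p.1|) / (2 * T) := by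
    field_simp; ring
  rw [e, div_le_iff₀ (by positivity)]
  exact t3

end FT
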