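import Pool.Agent.Work.MP_07b414_co.Util

set_option autoImplicit false

namespace FT

/-- core of the crude bound: two transversal rows produce too many lines -/
theorem base_core {K : ℝ} {P : Set (ℝ × ℝ)} (hK : 1 ≤ K) (hP : Conf K P)
    {i l : ℝ × ℝ} (_hi : i ∈ P) (_hl : l ∈ P) {T T1 T2 h1 w2 gi gl H : ℝ}
    (hT : T = |l.1 - i.1|) (hT1 : 1 ≤ T) (hTT1 : T ≤ T1) (hT12 : 3 * K * T1 ≤ T2)
    (h1pos : 0 ≤ h1) (hw2 : w2 = K * (T2 * √T2))
    (A0 D0 : Finset (ℝ × ℝ))
    (hA0 : ∀ p ∈ A0, p ∈ P ∧ |p.1 - i.1| ≤ T1 ∧ |p.2 - i.2 - gi * (p.1 - i.1)| ≤ h1)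
    (hD0 : ∀ q ∈ D0, q ∈ P ∧ |q.1 - l.1| ≤ T1 ∧ |q.2 - l.2 - gl * (q.1 - l.1)| ≤ h1)
    (hH : H = |sl i l - gi|)
    (c1 : 8 * T1 * (6 * T1 * (6 * w2 * T2 + 2 * h1)) + 8 * T1 * (2 * h1) < H * T)
    (c2 : 5 * (2 * h1 + (12 * w2 * T1 + 2 * h1) * (3 * T1)) * T1 < H * T)
    (m : ℕ) (hm1 : 18 * K * T1 ≤ m) (hm2 : (m : ℝ) ≤ 19 * K * T1)
    (hm3 : m ≤ (A0.card - 1) * (D0.card - 1))
    (hT2 : 400 * K ^ 2 * T1 ^ 2 ≤ T2) : False := by
  classical
  have hT1' : 1 ≤ T1 := hT1.trans hTT1
  have hT2p : 3 ≤ T2 := by nlinarith only [hK, hT1, hTT1, hT12]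
  have hw2p : 0 ≤ w2 := by rw [hw2]; positivity
  have hli : l.1 - i.1 ≠ 0 := by
    intro h
    rw [h, abs_zero] at hT
    linarith
  set f : ℝ → ℝ := fun a => l.2 + gl * (a - l.1) - (i.2 + gi * (a - i.1)) with hf
  have hfl : |f l.1| = H * T := by
    have e := sl_mul (u := i) (v := l) hli
    have : f l.1 = (sl i l - gi) * (l.1 - i.1) := by
      simp only [hf]
      linear_combination -e
    rw [this, abs_mul, ← hH, ← hT]
  have hHT : 0 < H * T := by
    have : 0 ≤ 8 * T1 * (6 * T1 * (6 * w2 * T2 + 2 * h1)) + 8 * T1 * (2 * h1) := by positivity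
    linarith
  have hfdiff : ∀ a b : ℝ, f a - f b = (gl - gi) * (a - b) := by
    intro a b
    simp only [hf]
    ring
  -- the good q
  set D1 := D0.filter (fun q => H * T / (4 * T1) ≤ |f q.1|) with hD1
  have hD1c : D0.card - 1 ≤ D1.card := by
    have h2 : (D0.filter (fun q => ¬ (H * T / (4 * T1) ≤ |f q.1|))).card ≤ 1 := by
      rw [Finset.card_le_one]
      intro q hq q' hq'
      rw [Finset.mem_filter] at hq hq'
      by_contra hne
      have s1 := hP.sep q (hD0 q hq.1).1 q' (hD0 q' hq'.1).1 hne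
      have a1 := hq.2
      have a2 := hq'.2
      push Not at a1 a2
      have e1 := hfdiff q'.1 q.1
      have e2 : |gl - gi| * |q'.1 - q.1| < H * T / (2 * T1) := by
        rw [← abs_mul, ← e1]
        calc |f q'.1 - f q.1| ≤ |f q'.1| + |f q.1| := abs_sub _ _
          _ < H * T / (4 * T1) + H * T / (4 * T1) := by linarith
          _ = H * T / (2 * T1) := by field_simp; ring
      have e3 : |gl - gi| < H * T / (2 * T1) := by
        have : |gl - gi| * 1 ≤ |gl - gi| * |q'.1 - q.1| :=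
          mul_le_mul_of_nonneg_left s1 (abs_nonneg _)
        linarith
      have e4 := hfdiff l.1 q.1
      have e5 : |f l.1 - f q.1| ≤ H * T / 2 := by
        rw [e4, abs_mul]
        have h5 : |l.1 - q.1| ≤ T1 := by rw [abs_sub_comm]; exact (hD0 q hq.1).2.1
        calc |gl - gi| * |l.1 - q.1| ≤ H * T / (2 * T1) * T1 := by
              apply mul_le_mul e3.le h5 (abs_nonneg _)
              positivity
          _ = H * T / 2 := by field_simp
      have e6 : |f l.1| ≤ |f l.1 - f q.1| + |f q.1| := by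
        have := abs_add_le (f l.1 - f q.1) (f q.1)
        simpa using this
      rw [hfl] at e6
      have e7 : H * T / (4 * T1) ≤ H * T / 4 := by
        apply div_le_div_of_nonneg_left hHT.le (by norm_num)
        linarith
      linarith
    have h3 := Finset.card_filter_add_card_filter_not (s := D0)
      (fun q => H * T / (4 * T1) ≤ |f q.1|)
    rw [← hD1] at h3
    omega
  -- the good p
  set ω := 2 * h1 + (12 * w2 * T1 + 2 * h1) * (3 * T1) with hω
  have hωp : 0 ≤ ω := by rw [hω]; positivity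
  set A1 := A0.filter (fun p => ω < |f p.1|) with hA1
  have hA1c : A0.card - 1 ≤ A1.card := by
    have h2 : (A0.filter (fun p => ¬ (ω < |f p.1|))).card ≤ 1 := by
      rw [Finset.card_le_one]
      intro q hq q' hq'
      rw [Finset.mem_filter] at hq hq'
      by_contra hne
      have s1 := hP.sep q (hA0 q hq.1).1 q' (hA0 q' hq'.1).1 hne
      have a1 := hq.2
      have a2 := hq'.2
      push Not at a1 a2
      have e1 := hfdiff q'.1 q.1
      have e2 : |gl - gi| * |q'.1 - q.1| ≤ 2 * ω := by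
        rw [← abs_mul, ← e1]
        calc |f q'.1 - f q.1| ≤ |f q'.1| + |f q.1| := abs_sub _ _
          _ ≤ ω + ω := by linarith
          _ = 2 * ω := by ring
      have e3 : |gl - gi| ≤ 2 * ω := by
        have : |gl - gi| * 1 ≤ |gl - gi| * |q'.1 - q.1| :=
          mul_le_mul_of_nonneg_left s1 (abs_nonneg _)
        linarith
      have e4 := hfdiff l.1 q.1
      have h5 : |l.1 - q.1| ≤ 2 * T1 := by
        have := abs_sub_le l.1 i.1 q.1
        have h6 : |i.1 - q.1| ≤ T1 := by rw [abs_sub_comm]; exact (hA0 q hq.1).2.1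
        linarith
      have e5 : |f l.1 - f q.1| ≤ 2 * ω * (2 * T1) := by
        rw [e4, abs_mul]
        exact mul_le_mul e3 h5 (abs_nonneg _) (by positivity)
      have e6 : |f l.1| ≤ |f l.1 - f q.1| + |f q.1| := by
        have := abs_add_le (f l.1 - f q.1) (f q.1)
        simpa using this
      rw [hfl] at e6
      nlinarith only [hT1, hTT1, c2, hωp, hq, e5, e6]
    have h3 := Finset.card_filter_add_card_filter_not (s := A0)
      (fun p => ω < |f p.1|)
    rw [← hA1] at h3
    omega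
  -- choose the pairs
  have hJc : m ≤ (A1 ×ˢ D1).card := by
    rw [Finset.card_product]
    exact hm3.trans (Nat.mul_le_mul hA1c hD1c)
  obtain ⟨J, hJsub, hJcard⟩ := Finset.exists_subset_card_eq hJc
  -- heights of the good q over the row of i
  have hdevq : ∀ q ∈ D1, H * T / (8 * T1) + h1 ≤ |q.2 - i.2 - gi * (q.1 - i.1)| := by
    intro q hq
    rw [hD1, Finset.mem_filter] at hq
    have e1 : q.2 - i.2 - gi * (q.1 - i.1) = f q.1 + (q.2 - l.2 - gl * (q.1 - l.1)) := by
      simp only [hf]; ring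
    have e2 := (hD0 q hq.1).2.2
    have e3 : |f q.1| ≤ |f q.1 + (q.2 - l.2 - gl * (q.1 - l.1))|
        + |q.2 - l.2 - gl * (q.1 - l.1)| := by
      have := abs_sub (f q.1 + (q.2 - l.2 - gl * (q.1 - l.1))) (q.2 - l.2 - gl * (q.1 - l.1))
      simpa using this
    have e4 : H * T / (8 * T1) ≥ 2 * h1 := by
      rw [ge_iff_le, le_div_iff₀ (by positivity)]
      have : 0 ≤ 8 * T1 * (6 * T1 * (6 * w2 * T2 + 2 * h1)) := by positivity
      nlinarith only [c1, this]
    have e5 : H * T / (4 * T1) = H * T / (8 * T1) + H * T / (8 * T1) := by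
      field_simp; ring
    rw [e1]
    have := hq.2
    linarith
  -- distances
  have hpq : ∀ p ∈ A1, ∀ q ∈ D1, p ≠ q ∧ |q.1 - p.1| ≤ 3 * T1 := by
    intro p hp q hq
    have h2 := hdevq q hq
    rw [hA1, Finset.mem_filter] at hp
    have hq' := hq
    rw [hD1, Finset.mem_filter] at hq'
    constructor
    · intro h
      rw [← h] at h2
      have h3 := (hA0 p hp.1).2.2
      have : 0 < H * T / (8 * T1) := by positivity
      linarith
    · have a1 := (hA0 p hp.1).2.1
      have a2 := (hD0 q hq'.1).2.1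
      have e : q.1 - p.1 = (q.1 - l.1) + (l.1 - i.1) - (p.1 - i.1) := by ring
      rw [e]
      have b1 := abs_sub (q.1 - l.1 + (l.1 - i.1)) (p.1 - i.1)
      have b2 := abs_add_le (q.1 - l.1) (l.1 - i.1)
      rw [← hT] at b2
      linarith
  -- rows
  have hrow : ∀ j : (ℝ × ℝ) × (ℝ × ℝ), ∃ E : Finset (ℝ × ℝ), j ∈ J →
      ((∀ x ∈ E, x ∈ P ∧ |x.1 - j.1.1| ≤ T2 ∧
        |x.2 - j.1.2 - sl j.1 j.2 * (x.1 - j.1.1)| ≤ w2) ∧ T2 / (3 * K * T1) ≤ (E.card : ℝ)) := by
    intro j
    by_cases hj : j ∈ J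
    · have hj2 := Finset.mem_product.mp (hJsub hj)
      obtain ⟨hne, hdist⟩ := hpq j.1 hj2.1 j.2 hj2.2
      have hp1 : j.1 ∈ P := by
        have := hj2.1
        rw [hA1, Finset.mem_filter] at this
        exact (hA0 _ this.1).1
      have hq1 : j.2 ∈ P := by
        have := hj2.2
        rw [hD1, Finset.mem_filter] at this
        exact (hD0 _ this.1).1
      have hs := hP.sep _ hp1 _ hq1 hne
      obtain ⟨E, hE, hEc⟩ := hP.row _ hp1 _ hq1 hne T2 (by nlinarith only [hK, hT12, hdist])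
      refine ⟨E, fun _ => ⟨fun x hx => ?_, ?_⟩⟩
      · obtain ⟨x1, x2, x3⟩ := hE x hx
        refine ⟨x1, x2, x3.trans ?_⟩
        rw [hw2]
        apply div_le_self _ hs
        positivity
      · refine le_trans ?_ hEc
        apply div_le_div_of_nonneg_left (by linarith) (by positivity)
        nlinarith only [hK, hdist]
    · exact ⟨∅, fun h => absurd h hj⟩
  choose E hE using hrow
  -- pairwise intersections
  have hint : ∀ j ∈ J, ∀ j' ∈ J, j ≠ j' → (((E j) ∩ (E j')).card : ℝ) ≤ 1 := by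
    intro j hj j' hj' hjj
    have : ((E j) ∩ (E j')).card ≤ 1 := by
      rw [Finset.card_le_one]
      intro x hx y hy
      by_contra hxy
      rw [Finset.mem_inter] at hx hy
      obtain ⟨hE1, -⟩ := hE j hj
      obtain ⟨hE2, -⟩ := hE j' hj'
      obtain ⟨x0, x1, x2⟩ := hE1 x hx.1
      obtain ⟨-, x1', x2'⟩ := hE2 x hx.2
      obtain ⟨y0, y1, y2⟩ := hE1 y hy.1
      obtain ⟨-, y1', y2'⟩ := hE2 y hy.2
      have hs := hP.sep x x0 y y0 hxy
      have hj2 := Finset.mem_product.mp (hJsub hj)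
      have hj2' := Finset.mem_product.mp (hJsub hj')
      -- slope difference
      set σ := sl j.1 j.2 with hσ
      set σ' := sl j'.1 j'.2 with hσ'
      have hsl : |σ - σ'| ≤ 4 * w2 := by
        have e : (σ - σ') * (y.1 - x.1) =
            (x.2 - j.1.2 - σ * (x.1 - j.1.1)) - (x.2 - j'.1.2 - σ' * (x.1 - j'.1.1))
            - (y.2 - j.1.2 - σ * (y.1 - j.1.1)) + (y.2 - j'.1.2 - σ' * (y.1 - j'.1.1)) := by ring
        have h4 : |(σ - σ') * (y.1 - x.1)| ≤ 4 * w2 := by
          rw [e]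
          rw [abs_le] at x2 x2' y2 y2' ⊢
          constructor <;> linarith
        rw [abs_mul] at h4
        have : |σ - σ'| * 1 ≤ |σ - σ'| * |y.1 - x.1| :=
          mul_le_mul_of_nonneg_left hs (abs_nonneg _)
        linarith
      have hp1 : j.1 ∈ A0 := (Finset.mem_filter.mp hj2.1).1
      have hp1' : j'.1 ∈ A0 := (Finset.mem_filter.mp hj2'.1).1
      have hq1 : j.2 ∈ D0 := (Finset.mem_filter.mp hj2.2).1
      have hq1' : j'.2 ∈ D0 := (Finset.mem_filter.mp hj2'.2).1
      by_cases hpp : j.1 = j'.1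
      · have hqq : j.2 ≠ j'.2 := fun h => hjj (Prod.ext hpp h)
        have hbad := (Finset.mem_filter.mp hj2.1).2
        obtain ⟨hne, hdist⟩ := hpq j.1 hj2.1 j.2 hj2.2
        obtain ⟨hne', hdist'⟩ := hpq j'.1 hj2'.1 j'.2 hj2'.2
        rw [← hpp] at hne' hdist'
        have s1 := hP.sep _ (hA0 _ hp1).1 _ (hD0 _ hq1).1 hne
        have s2 := hP.sep _ (hA0 _ hp1).1 _ (hD0 _ hq1').1 hne'
        have s3 := hP.sep _ (hD0 _ hq1).1 _ (hD0 _ hq1').1 hqq
        have t := tri (p := j.2) (p' := j'.2) (l := j.1)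
          (by have := sub_ne_of_one_le s1; intro h; apply this; linarith)
          (by have := sub_ne_of_one_le s2; intro h; apply this; linarith)
          (sub_ne_of_one_le s3)
        rw [sl_comm j'.2 j.1, sl_comm j.2 j.1] at t
        -- |sl q p - sl q q'| ≤ 12 w2 T1
        have t2 : |sl j.1 j.2 - sl j.2 j'.2| ≤ 12 * w2 * T1 := by
          have h4 : |(sl j.1 j'.2 - sl j.1 j.2) * (j.1.1 - j'.2.1)| ≤ 4 * w2 * (3 * T1) := by
            rw [abs_mul]
            apply mul_le_mul _ _ (abs_nonneg _) (by positivity)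
            · rw [abs_sub_comm]
              have : σ' = sl j.1 j'.2 := by rw [hσ', hpp]
              rw [← this]
              exact hsl
            · rw [abs_sub_comm]; exact hdist'
          rw [t, abs_mul] at h4
          have : |sl j.1 j.2 - sl j.2 j'.2| * 1 ≤ |sl j.1 j.2 - sl j.2 j'.2| * |j'.2.1 - j.2.1| :=
            mul_le_mul_of_nonneg_left s3 (abs_nonneg _)
          linarith
        have t3 : |sl j.2 j'.2 - gl| ≤ 2 * h1 := by
          have e := sl_mul (sub_ne_of_one_le s3)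
          have d1 := (hD0 _ hq1).2.2
          have d2 := (hD0 _ hq1').2.2
          have e2 : (sl j.2 j'.2 - gl) * (j'.2.1 - j.2.1) =
              (j'.2.2 - l.2 - gl * (j'.2.1 - l.1)) - (j.2.2 - l.2 - gl * (j.2.1 - l.1)) := by
            linear_combination e
          have h4 : |(sl j.2 j'.2 - gl) * (j'.2.1 - j.2.1)| ≤ 2 * h1 := by
            rw [e2]
            have := abs_sub (j'.2.2 - l.2 - gl * (j'.2.1 - l.1)) (j.2.2 - l.2 - gl * (j.2.1 - l.1))
            linarith
          rw [abs_mul] at h4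
          have : |sl j.2 j'.2 - gl| * 1 ≤ |sl j.2 j'.2 - gl| * |j'.2.1 - j.2.1| :=
            mul_le_mul_of_nonneg_left s3 (abs_nonneg _)
          linarith
        have t4 : |sl j.1 j.2 - gl| ≤ 12 * w2 * T1 + 2 * h1 := by
          have := abs_sub_le (sl j.1 j.2) (sl j.2 j'.2) gl
          linarith
        have t5 : f j.1.1 = (j.1.2 - i.2 - gi * (j.1.1 - i.1))
            + (sl j.1 j.2 - gl) * (j.2.1 - j.1.1) - (j.2.2 - l.2 - gl * (j.2.1 - l.1)) := by
          have e := sl_mul (sub_ne_of_one_le s1)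
          simp only [hf]
          linear_combination -e
        have t6 : |f j.1.1| ≤ ω := by
          rw [t5]
          have d1 := (hD0 _ hq1).2.2
          have d2 := (hA0 _ hp1).2.2
          have d3 : |(sl j.1 j.2 - gl) * (j.2.1 - j.1.1)| ≤ (12 * w2 * T1 + 2 * h1) * (3 * T1) := by
            rw [abs_mul]
            exact mul_le_mul t4 hdist (abs_nonneg _) (by positivity)
          have d4 := abs_sub ((j.1.2 - i.2 - gi * (j.1.1 - i.1))
            + (sl j.1 j.2 - gl) * (j.2.1 - j.1.1)) (j.2.2 - l.2 - gl * (j.2.1 - l.1))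
          have d5 := abs_add_le (j.1.2 - i.2 - gi * (j.1.1 - i.1))
            ((sl j.1 j.2 - gl) * (j.2.1 - j.1.1))
          rw [hω]
          linarith
        linarith
      · -- p ≠ p'
        obtain ⟨hne', hdist'⟩ := hpq j'.1 hj2'.1 j'.2 hj2'.2
        have s1 := hP.sep _ (hA0 _ hp1').1 _ (hD0 _ hq1').1 hne'
        have s2 := hP.sep _ (hA0 _ hp1').1 _ (hA0 _ hp1).1 (fun h => hpp h.symm)
        -- difference at p
        have e1 : |(j.1.2 - j'.1.2 - σ' * (j.1.1 - j'.1.1))| ≤ 6 * w2 * T2 := by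
          have e : j.1.2 - j'.1.2 - σ' * (j.1.1 - j'.1.1) =
              (x.2 - j'.1.2 - σ' * (x.1 - j'.1.1)) - (x.2 - j.1.2 - σ * (x.1 - j.1.1))
              - (σ - σ') * (x.1 - j.1.1) := by ring
          rw [e]
          have d1 : |(σ - σ') * (x.1 - j.1.1)| ≤ 4 * w2 * T2 := by
            rw [abs_mul]
            exact mul_le_mul hsl x1 (abs_nonneg _) (by positivity)
          have d2 := abs_sub ((x.2 - j'.1.2 - σ' * (x.1 - j'.1.1))
            - (x.2 - j.1.2 - σ * (x.1 - j.1.1))) ((σ - σ') * (x.1 - j.1.1))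
          have d3 := abs_sub (x.2 - j'.1.2 - σ' * (x.1 - j'.1.1))
            (x.2 - j.1.2 - σ * (x.1 - j.1.1))
          nlinarith only [hT12, hm2, hT2p, hw2p, x2, x2', d1, d2, d3]
        have e2 : |(σ' - gi)| ≤ 6 * w2 * T2 + 2 * h1 := by
          have e : (σ' - gi) * (j.1.1 - j'.1.1) = (j.1.2 - i.2 - gi * (j.1.1 - i.1))
              - (j'.1.2 - i.2 - gi * (j'.1.1 - i.1))
              - (j.1.2 - j'.1.2 - σ' * (j.1.1 - j'.1.1)) := by ring
          have d1 := (hA0 _ hp1).2.2
          have d2 := (hA0 _ hp1').2.2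
          have h4 : |(σ' - gi) * (j.1.1 - j'.1.1)| ≤ 6 * w2 * T2 + 2 * h1 := by
            rw [e]
            have d3 := abs_sub ((j.1.2 - i.2 - gi * (j.1.1 - i.1))
              - (j'.1.2 - i.2 - gi * (j'.1.1 - i.1))) (j.1.2 - j'.1.2 - σ' * (j.1.1 - j'.1.1))
            have d4 := abs_sub (j.1.2 - i.2 - gi * (j.1.1 - i.1))
              (j'.1.2 - i.2 - gi * (j'.1.1 - i.1))
            linarith
          rw [abs_mul] at h4
          have : |σ' - gi| * 1 ≤ |σ' - gi| * |j.1.1 - j'.1.1| :=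
            mul_le_mul_of_nonneg_left s2 (abs_nonneg _)
          linarith
        have e3 : H * T / (8 * T1) ≤ |σ' - gi| * (3 * T1) := by
          have e := sl_mul (sub_ne_of_one_le s1)
          have e4 : (σ' - gi) * (j'.2.1 - j'.1.1) = (j'.2.2 - i.2 - gi * (j'.2.1 - i.1))
              - (j'.1.2 - i.2 - gi * (j'.1.1 - i.1)) := by
            rw [hσ']
            linear_combination e
          have d1 := hdevq _ hj2'.2
          have d2 := (hA0 _ hp1').2.2
          have d3 : |j'.2.2 - i.2 - gi * (j'.2.1 - i.1)| ≤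
              |(σ' - gi) * (j'.2.1 - j'.1.1)| + |j'.1.2 - i.2 - gi * (j'.1.1 - i.1)| := by
            rw [e4]
            have := abs_add_le ((j'.2.2 - i.2 - gi * (j'.2.1 - i.1))
              - (j'.1.2 - i.2 - gi * (j'.1.1 - i.1))) (j'.1.2 - i.2 - gi * (j'.1.1 - i.1))
            simpa using this
          rw [abs_mul] at d3
          have d4 : |σ' - gi| * |j'.2.1 - j'.1.1| ≤ |σ' - gi| * (3 * T1) :=
            mul_le_mul_of_nonneg_left hdist' (abs_nonneg _)
          linarith
        rw [div_le_iff₀ (by positivity)] at e3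
        have e5 : |σ' - gi| * (3 * T1) * (8 * T1) ≤
            (6 * w2 * T2 + 2 * h1) * (3 * T1) * (8 * T1) := by
          gcongr
        have e6 : 0 ≤ (6 * w2 * T2 + 2 * h1) * (3 * T1) * (8 * T1) := by positivity
        have e7 : 0 ≤ 8 * T1 * (2 * h1) := by positivity
        nlinarith only [c1, hHT, e3, e5, e7]
    exact_mod_cast this
  have hun := card_biUnion_ge J E (T2 / (3 * K * T1)) 1 zero_le_one
    (fun j hj => (hE j hj).2) hint
  rw [hJcard] at hun
  have hup : ((J.biUnion E).card : ℝ) ≤ 4 * T2 / 1 + 1 := by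
    apply card_sep one_pos (by positivity)
    · intro u hu v hv huv
      rw [Finset.mem_biUnion] at hu hv
      obtain ⟨j, hj, hu⟩ := hu
      obtain ⟨j', hj', hv⟩ := hv
      exact hP.sep u ((hE j hj).1 u hu).1 v ((hE j' hj').1 v hv).1 huv
    · intro u hu v hv
      rw [Finset.mem_biUnion] at hu hv
      obtain ⟨j, hj, hu⟩ := hu
      obtain ⟨j', hj', hv⟩ := hv
      have hj2 := Finset.mem_product.mp (hJsub hj)
      have hj2' := Finset.mem_product.mp (hJsub hj')
      have hp1 : j.1 ∈ A0 := (Finset.mem_filter.mp hj2.1).1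
      have hp1' : j'.1 ∈ A0 := (Finset.mem_filter.mp hj2'.1).1
      have a1 := (hA0 _ hp1).2.1
      have a2 := (hA0 _ hp1').2.1
      have a3 := ((hE j hj).1 u hu).2.1
      have a4 := ((hE j' hj').1 v hv).2.1
      have hT12' : T1 ≤ T2 := by nlinarith only [hK, hT1, hTT1, hT12, hT2p]
      rw [abs_le] at *
      constructor <;> linarith
  have hx : T2 / (3 * K * T1) * (18 * K * T1) = 6 * T2 := by
    field_simp
    ring
  have hK1 : 0 < K * T1 := by positivity
  have hlow : 5 * T2 < (m : ℝ) * (T2 / (3 * K * T1) - m * 1) := by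
    have hm0 : 0 ≤ (m : ℝ) := Nat.cast_nonneg m
    have q1 : T2 / (3 * K * T1) * (18 * K * T1) ≤ T2 / (3 * K * T1) * m := by
      apply mul_le_mul_of_nonneg_left hm1 (by positivity)
    have q2 : (m : ℝ) * m ≤ (19 * K * T1) * (19 * K * T1) :=
      mul_le_mul hm2 hm2 hm0 (by positivity)
    have q3 : 0 < (K * T1) * (K * T1) := by positivity
    nlinarith only [hT2, hT2p, hun, hup, hx, q1, q2]
  linarith

end FT
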