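import Pool.Agent.Work.MP_07b414_co.NN

set_option autoImplicit false

namespace FT

/-- the tangent line at `u` -/
noncomputable def tl (nb : ℝ × ℝ → ℝ × ℝ) (u : ℝ × ℝ) (a : ℝ) : ℝ :=
  u.2 + gr nb u * (a - u.1)

theorem tl_sub (nb : ℝ × ℝ → ℝ × ℝ) (u v : ℝ × ℝ) (a b : ℝ) :
    (tl nb u a - tl nb v a) - (tl nb u b - tl nb v b) = (gr nb u - gr nb v) * (a - b) := by
  unfold tl
  ring

/-- few lonely points -/
theorem card_lonely {P : Set (ℝ × ℝ)} {nb : ℝ × ℝ → ℝ × ℝ} (hnb : NN P nb)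
    {F : Finset (ℝ × ℝ)} {R D : ℝ} (hR : 0 < R) (hD : 0 ≤ D)
    (hF : ∀ u ∈ F, u ∈ P ∧ R ≤ rho nb u)
    (h2 : ∀ u ∈ F, ∀ v ∈ F, |v.1 - u.1| ≤ D) : (F.card : ℝ) ≤ D / R + 1 :=
  card_sep hR hD
    (fun u hu v hv huv => (hF u hu).2.trans
      (rho_le hnb (hF u hu).1 (hF v hv).1 (fun h => huv h.symm))) h2

theorem classes {K : ℝ} {P : Set (ℝ × ℝ)} {nb : ℝ × ℝ → ℝ × ℝ} (hP : Conf K P) (hK : 1 ≤ K)
    (hnb : NN P nb) {x0 S M Λ : ℝ} (hM : 1 ≤ M) (hS1 : K * M ≤ S)
    (hS2 : 196 * K ^ 2 * M ^ 2 ≤ S) (hΛ : 2 * K + 1200 * K ^ 3 * M ^ 2 ≤ Λ) :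
    ∃ F : Finset (ℝ × ℝ), (F.card : ℝ) ≤ 7 * K * M ∧
      ∀ u ∈ P, |u.1 - x0| ≤ S / 2 → rho nb u ≤ M → ∃ c ∈ F,
        ∀ a : ℝ, |a - x0| ≤ 3 * S / 2 → |tl nb u a - tl nb c a| ≤ Λ * (S * √S) := by
  classical
  have hSpos : 0 < S := lt_of_lt_of_le (by positivity) hS1
  have hsS : 0 < √S := Real.sqrt_pos.mpr hSpos
  have hΛ0 : 0 < Λ := lt_of_lt_of_le (by positivity) hΛ
  set Close : ℝ × ℝ → ℝ × ℝ → Prop := fun u c =>
    ∀ a : ℝ, |a - x0| ≤ 3 * S / 2 → |tl nb u a - tl nb c a| ≤ Λ * (S * √S) with hClose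
  have hfin := finite_window hP x0 (S / 2)
  set W := hfin.toFinset.filter (fun u => rho nb u ≤ M) with hW
  have hmemW : ∀ u, u ∈ W ↔ (u ∈ P ∧ |u.1 - x0| ≤ S / 2) ∧ rho nb u ≤ M := by
    intro u
    rw [hW, Finset.mem_filter, Set.Finite.mem_toFinset]
    rfl
  obtain ⟨Pw, hPw⟩ : ∃ Pw : Finset (ℝ × ℝ) → Prop, ∀ F, Pw F ↔
      ∀ u ∈ F, ∀ v ∈ F, u ≠ v → ¬ Close u v := ⟨_, fun _ => Iff.rfl⟩
  set FF := W.powerset.filter Pw with hFF
  have hFFne : FF.Nonempty := by
    refine ⟨∅, ?_⟩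
    rw [hFF, Finset.mem_filter, Finset.mem_powerset, hPw]
    exact ⟨Finset.empty_subset _, fun u hu => absurd hu (Finset.notMem_empty u)⟩
  obtain ⟨F, hF, hmax⟩ := FF.exists_max_image (fun F => F.card) hFFne
  rw [hFF, Finset.mem_filter, Finset.mem_powerset, hPw] at hF
  obtain ⟨hFW, hFpair⟩ := hF
  refine ⟨F, ?_, ?_⟩
  · -- cardinality bound
    by_contra hcon
    push Not at hcon
    set m : ℕ := ⌈6 * K * M⌉₊ with hm
    have hm1 : 6 * K * M ≤ m := Nat.le_ceil _
    have hm2 : (m : ℝ) ≤ 7 * K * M := by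
      have := (Nat.ceil_lt_add_one (show 0 ≤ 6 * K * M by positivity)).le
      rw [← hm] at this
      nlinarith only [hK, hM, this]
    have hmF : m ≤ F.card := by
      have : (m : ℝ) ≤ F.card := by linarith
      exact_mod_cast this
    obtain ⟨J, hJF, hJc⟩ := Finset.exists_subset_card_eq hmF
    have hJP : ∀ u ∈ J, (u ∈ P ∧ |u.1 - x0| ≤ S / 2) ∧ rho nb u ≤ M :=
      fun u hu => (hmemW u).mp (hFW (hJF hu))
    have hrow : ∀ u : ℝ × ℝ, ∃ E : Finset (ℝ × ℝ), u ∈ J →
        ((∀ x ∈ E, x ∈ P ∧ |x.1 - u.1| ≤ S ∧ |x.2 - u.2 - gr nb u * (x.1 - u.1)| ≤ K * (S * √S))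
        ∧ S / (K * M) ≤ (E.card : ℝ)) := by
      intro u
      by_cases hu : u ∈ J
      · obtain ⟨⟨u1, u2⟩, u3⟩ := hJP u hu
        have hr1 := rho_ge_one hP hnb u1
        obtain ⟨E, hE, hEc⟩ := row_nb hP hK hnb u1 (T := S)
          (le_trans (mul_le_mul_of_nonneg_left u3 (by positivity)) hS1)
        refine ⟨E, fun _ => ⟨hE, le_trans ?_ hEc⟩⟩
        apply div_le_div_of_nonneg_left hSpos.le (by positivity)
        exact mul_le_mul_of_nonneg_left u3 (by positivity)
      · exact ⟨∅, fun h => absurd h hu⟩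
    choose E hE using hrow
    set DI : ℝ := 12 * K * S / (Λ - 2 * K) with hDI
    have hΛK : 0 < Λ - 2 * K := by
      have : 0 < 1200 * K ^ 3 * M ^ 2 := by positivity
      linarith only [hΛ, this]
    have hDI0 : 0 ≤ DI := by rw [hDI]; positivity
    have hint : ∀ u ∈ J, ∀ v ∈ J, u ≠ v → (((E u) ∩ (E v)).card : ℝ) ≤ DI / 1 + 1 := by
      intro u hu v hv huv
      have hnc : ¬ Close u v := hFpair u (hJF hu) v (hJF hv) huv
      rw [hClose] at hnc
      push Not at hnc
      obtain ⟨a, ha1, ha2⟩ := hnc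
      apply card_sep one_pos hDI0
      · intro x hx y hy hxy
        rw [Finset.mem_inter] at hx hy
        exact hP.sep x ((hE u hu).1 x hx.1).1 y ((hE u hu).1 y hy.1).1 hxy
      · intro x hx y hy
        rw [Finset.mem_inter] at hx hy
        obtain ⟨x1, x2, x3⟩ := (hE u hu).1 x hx.1
        obtain ⟨-, x2', x3'⟩ := (hE v hv).1 x hx.2
        obtain ⟨y1, y2, y3⟩ := (hE u hu).1 y hy.1
        obtain ⟨-, y2', y3'⟩ := (hE v hv).1 y hy.2
        have dx : |tl nb u x.1 - tl nb v x.1| ≤ 2 * (K * (S * √S)) := by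
          have e : tl nb u x.1 - tl nb v x.1 = (x.2 - v.2 - gr nb v * (x.1 - v.1))
            - (x.2 - u.2 - gr nb u * (x.1 - u.1)) := by unfold tl; ring
          rw [e]
          have := abs_sub (x.2 - v.2 - gr nb v * (x.1 - v.1)) (x.2 - u.2 - gr nb u * (x.1 - u.1))
          linarith only [x3, x3', this]
        have dy : |tl nb u y.1 - tl nb v y.1| ≤ 2 * (K * (S * √S)) := by
          have e : tl nb u y.1 - tl nb v y.1 = (y.2 - v.2 - gr nb v * (y.1 - v.1))
            - (y.2 - u.2 - gr nb u * (y.1 - u.1)) := by unfold tl; ring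
          rw [e]
          have := abs_sub (y.2 - v.2 - gr nb v * (y.1 - v.1)) (y.2 - u.2 - gr nb u * (y.1 - u.1))
          linarith only [y3, y3', this]
        set σ := gr nb u - gr nb v with hσ
        have e1 := tl_sub nb u v y.1 x.1
        have e2 : |σ| * |y.1 - x.1| ≤ 4 * (K * (S * √S)) := by
          rw [← abs_mul, hσ, ← e1]
          have := abs_sub (tl nb u y.1 - tl nb v y.1) (tl nb u x.1 - tl nb v x.1)
          linarith
        have e3 := tl_sub nb u v a x.1
        have hu2 := (hJP u hu).1.2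
        have hax : |a - x.1| ≤ 3 * S := by
          have : a - x.1 = (a - x0) - (u.1 - x0) - (x.1 - u.1) := by ring
          rw [this]
          have t1 := abs_sub (a - x0 - (u.1 - x0)) (x.1 - u.1)
          have t2 := abs_sub (a - x0) (u.1 - x0)
          linarith only [ha1, x2, hu2, t1, t2]
        have e4 : Λ * (S * √S) ≤ 2 * (K * (S * √S)) + |σ| * (3 * S) := by
          have t1 : |tl nb u a - tl nb v a| ≤ |σ * (a - x.1)| + |tl nb u x.1 - tl nb v x.1| := by
            have : tl nb u a - tl nb v a = σ * (a - x.1) + (tl nb u x.1 - tl nb v x.1) := by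
              linear_combination e3
            rw [this]
            exact abs_add_le _ _
          rw [abs_mul] at t1
          have t2 : |σ| * |a - x.1| ≤ |σ| * (3 * S) :=
            mul_le_mul_of_nonneg_left hax (abs_nonneg _)
          linarith only [ha2, dx, t1, t2]
        have e5 : (Λ - 2 * K) * √S ≤ 3 * |σ| := by
          have : (Λ - 2 * K) * √S * S ≤ 3 * |σ| * S := by nlinarith only [e4]
          exact le_of_mul_le_mul_right this hSpos
        rw [hDI, le_div_iff₀ hΛK]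
        have e6 : |y.1 - x.1| * ((Λ - 2 * K) * √S) ≤ |y.1 - x.1| * (3 * |σ|) :=
          mul_le_mul_of_nonneg_left e5 (abs_nonneg _)
        have e7 : |y.1 - x.1| * (Λ - 2 * K) * √S ≤ 12 * K * S * √S := by nlinarith only [e2, e6]
        exact le_of_mul_le_mul_right e7 hsS
    have hun := card_biUnion_ge J E (S / (K * M)) (DI / 1 + 1) (by positivity)
      (fun u hu => (hE u hu).2) hint
    rw [hJc] at hun
    have hup : ((J.biUnion E).card : ℝ) ≤ 3 * S / 1 + 1 := by
      apply card_sep one_pos (by positivity)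
      · intro u hu v hv huv
        rw [Finset.mem_biUnion] at hu hv
        obtain ⟨j, hj, hu⟩ := hu
        obtain ⟨j', hj', hv⟩ := hv
        exact hP.sep u ((hE j hj).1 u hu).1 v ((hE j' hj').1 v hv).1 huv
      · intro u hu v hv
        rw [Finset.mem_biUnion] at hu hv
        obtain ⟨j, hj, hu⟩ := hu
        obtain ⟨j', hj', hv⟩ := hv
        have a1 := (hJP j hj).1.2
        have a2 := (hJP j' hj').1.2
        have a3 := ((hE j hj).1 u hu).2.1
        have a4 := ((hE j' hj').1 v hv).2.1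
        rw [abs_le] at *
        constructor <;> linarith
    have hDI2 : DI ≤ S / (100 * K ^ 2 * M ^ 2) := by
      rw [hDI, div_le_div_iff₀ hΛK (by positivity)]
      have : 12 * K * S * (100 * K ^ 2 * M ^ 2) = S * (1200 * K ^ 3 * M ^ 2) := by ring
      rw [this]
      exact mul_le_mul_of_nonneg_left (by linarith only [hΛ]) hSpos.le
    have hx : S / (K * M) * (6 * K * M) = 6 * S := by
      field_simp
    have hm0 : 0 ≤ (m : ℝ) := Nat.cast_nonneg m
    have q1 : S / (K * M) * (6 * K * M) ≤ S / (K * M) * m := by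
      apply mul_le_mul_of_nonneg_left hm1 (by positivity)
    have q2 : (m : ℝ) * m ≤ 49 * (K ^ 2 * M ^ 2) := by
      have := mul_le_mul hm2 hm2 hm0 (by positivity)
      nlinarith only [this]
    have q3 : (m : ℝ) * m * (DI / 1 + 1) ≤ 49 * (K ^ 2 * M ^ 2) * (S / (100 * K ^ 2 * M ^ 2) + 1) := by
      apply mul_le_mul q2 _ (by positivity) (by positivity)
      rw [div_one]; linarith only [hDI2]
    have q4 : 49 * (K ^ 2 * M ^ 2) * (S / (100 * K ^ 2 * M ^ 2) + 1) =
        49 / 100 * S + 49 * (K ^ 2 * M ^ 2) := by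
      field_simp
    have hKM : 1 ≤ K ^ 2 * M ^ 2 := by
      have := mul_le_mul (one_le_pow₀ hK (n := 2)) (one_le_pow₀ hM (n := 2)) zero_le_one
        (by positivity)
      simpa using this
    nlinarith only [hS2, hSpos, hun, hup, hx, q1, q3, q4, hKM]
  · -- every point is close to a class
    intro u hu hux hur
    by_contra hcon
    push Not at hcon
    have hnotmem : u ∉ F := by
      intro huF
      obtain ⟨a, -, ha⟩ := hcon u huF
      rw [sub_self, abs_zero] at ha
      have : 0 < Λ * (S * √S) := by positivity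
      linarith
    have hins : insert u F ∈ FF := by
      rw [hFF, Finset.mem_filter, Finset.mem_powerset, hPw]
      constructor
      · intro x hx
        rw [Finset.mem_insert] at hx
        rcases hx with rfl | hx
        · exact (hmemW x).mpr ⟨⟨hu, hux⟩, hur⟩
        · exact hFW hx
      · intro x hx y hy hxy hcl
        rw [Finset.mem_insert] at hx hy
        rcases hx with rfl | hx
        · rcases hy with rfl | hy
          · exact hxy rfl
          · obtain ⟨a, ha1, ha2⟩ := hcon y hy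
            exact absurd (hcl a ha1) (not_le.mpr ha2)
        · rcases hy with rfl | hy
          · obtain ⟨a, ha1, ha2⟩ := hcon x hx
            have := hcl a ha1
            rw [abs_sub_comm] at this
            exact absurd this (not_le.mpr ha2)
          · exact hFpair x hx y hy hxy hcl
    have := hmax _ hins
    rw [Finset.card_insert_of_notMem hnotmem] at this
    omega

end FT
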