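import Mathlib

set_option autoImplicit false

namespace FT

theorem abs_le_mul_sqrt {d x V : ℝ} (hx : x ≠ 0) (h : |d * x| ≤ V * (|x| * √|x|)) :
    |d| ≤ V * √|x| := by
  have hx0 : 0 < |x| := abs_pos.mpr hx
  rw [abs_mul] at h
  have : |d| * |x| ≤ V * √|x| * |x| := by linarith
  exact le_of_mul_le_mul_right this hx0

/-- the support line argument: the case where the slope at the left end point is small -/
theorem gap_aux (X : Set ℝ) (h g : ℝ → ℝ) (V ε T0 t t' c1 ξ c e D α S xa xb σ0 : ℝ) (N : ℕ)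
    (hV : 1 ≤ V) (hε : 0 < ε) (hε1 : ε ≤ 1)
    (hfin : ∀ a b : ℝ, (X ∩ Set.Icc a b).Finite)
    (hW : ∀ x ∈ X, ∀ y ∈ X, |h y - h x - g x * (y - x)| ≤ V * (|y - x| * √|y - x|))
    (hF : ∀ x ∈ X, ∀ y ∈ X, T0 ≤ |y - x| →
      ε * (|y - x| * √|y - x|) ≤ |h y - h x - g x * (y - x)|)
    (hS : 0 < S)
    (ht : t = (ε / (8 * V)) ^ 2) (hc1 : c1 = ε * t / 4) (ht' : t' = c1 / (16 * V))
    (hξ : ξ = c1 / 4) (hN : 4 * V / ε < N) (hc0 : 0 < c) (hct : c ≤ t') 
    (hcs : √(2 * c) = ξ * ε / (4 * V ^ 2 * N ^ 2))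
    (he : e = V * √(2 * c * S)) (hD : D = 2 * ξ * √S / N ^ 2)
    (hT0 : T0 ≤ (D / (4 * V)) ^ 2)
    (hdense : ∀ γ : ℝ, α ≤ γ → γ + c * S ≤ α + S → ∃ x ∈ X, γ ≤ x ∧ x ≤ γ + c * S)
    (hxa : xa ∈ X) (hxa1 : α ≤ xa) (hxa2 : xa ≤ α + c * S)
    (hxb : xb ∈ X) (hxb1 : α + S - c * S ≤ xb) (hxb2 : xb ≤ α + S)
    (hσ0 : h xb - h xa = σ0 * (xb - xa)) (hga : g xa ≤ σ0 - ε / 2 * √S) : False := by
  have hsS : 0 < √S := Real.sqrt_pos.mpr hS
  have hV0 : 0 < V := by linarith only [hV]
  have ht0 : 0 < t := by rw [ht]; positivity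
  have ht1 : t ≤ 1 / 64 := by
    have h1 : ε / (8 * V) ≤ 1 / 8 := by
      rw [div_le_div_iff₀ (by positivity) (by norm_num)]; linarith only [hV, hε1]
    have h2 := pow_le_pow_left₀ (by positivity) h1 2
    rw [ht]; linarith only [h2]
  have hc10 : 0 < c1 := by rw [hc1]; positivity
  have hc1t : c1 ≤ t / 4 := by
    rw [hc1]
    have := mul_le_mul_of_nonneg_right hε1 ht0.le
    linarith only [this]
  have ht'0 : 0 < t' := by rw [ht']; positivity
  have ht'c : 16 * V * t' = c1 := by rw [ht']; field_simp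
  have ht't : t' ≤ c1 / 16 := by
    rw [ht']
    apply div_le_div_of_nonneg_left hc10.le (by norm_num); linarith only [hV]
  have hξ0 : 0 < ξ := by rw [hξ]; positivity
  have hN0 : (0 : ℝ) < N := lt_trans (by positivity) hN
  have hN1 : (1 : ℝ) ≤ N := by
    have : 0 < N := by exact_mod_cast hN0
    exact_mod_cast this
  have hD0 : 0 < D := by rw [hD]; positivity
  -- e
  have he2 : e = ξ * ε / (4 * V * N ^ 2) * √S := by
    rw [he, Real.sqrt_mul (by positivity), hcs]
    field_simp
  have he0 : 0 < e := by rw [he2]; positivity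
  have heD : e = ε * D / (8 * V) := by
    rw [he2, hD]; field_simp; ring
  have heD4 : e ≤ D / 8 := by
    rw [heD, div_le_div_iff₀ (by positivity) (by norm_num)]
    have h1 := mul_le_mul_of_nonneg_right hε1 hD0.le
    have h2 := mul_le_mul_of_nonneg_right hV hD0.le
    linarith only [h1, h2]
  have hDξ : D ≤ 2 * ξ * √S := by
    rw [hD]
    apply div_le_self (by positivity)
    exact one_le_pow₀ hN1
  -- distance between xa and xb
  have hcS16 : c * S ≤ 1 / 1024 * S := mul_le_mul_of_nonneg_right (by linarith only [hc0, hct, ht1, hc1t, ht't]) hS.le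
  have htS64 : t * S ≤ 1 / 64 * S := mul_le_mul_of_nonneg_right ht1 hS.le
  have hcSt : c * S ≤ t * S := mul_le_mul_of_nonneg_right (by linarith only [hc0, hct, hc1t, ht't]) hS.le
  have htS0 : 0 < t * S := by positivity
  have hcS00 : 0 < c * S := by positivity
  have hL1 : S / 4 ≤ xb - xa := by linarith only [hxa2, hxb1, hcS16, hcS00]
  have hL2 : xb - xa ≤ S := by linarith only [hxa1, hxb2]
  have hgσ : |g xa - σ0| ≤ V * √S := by
    have h1 := hW xa hxa xb hxb
    have e1 : h xb - h xa - g xa * (xb - xa) = (σ0 - g xa) * (xb - xa) := by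
      linear_combination hσ0
    rw [e1] at h1
    have h2 := abs_le_mul_sqrt (by linarith only [hS, hxa2, hxb1, hcS16, hcS00]) h1
    rw [abs_sub_comm] at h2
    refine h2.trans ?_
    apply mul_le_mul_of_nonneg_left _ hV0.le
    apply Real.sqrt_le_sqrt
    rw [abs_of_pos (by linarith only [hS, hxa2, hxb1, hcS16, hcS00])]
    exact hL2
  have hgσb : |g xb - σ0| ≤ V * √S := by
    have h1 := hW xb hxb xa hxa
    have e1 : h xa - h xb - g xb * (xa - xb) = (σ0 - g xb) * (xa - xb) := by
      linear_combination -hσ0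
    rw [e1] at h1
    have hne : xa - xb ≠ 0 := by
      intro h0
      have : xb - xa = 0 := by linarith only [hxa2, hxb1, hcS16, hcS00, h0]
      linarith only [hxa2, hxb1, hcS16, hcS00, h0]
    have h2 := abs_le_mul_sqrt hne h1
    rw [abs_sub_comm] at h2
    refine h2.trans ?_
    apply mul_le_mul_of_nonneg_left _ hV0.le
    apply Real.sqrt_le_sqrt
    rw [abs_sub_comm, abs_of_pos (by linarith only [hS, hxa2, hxb1, hcS16, hcS00])]
    exact hL2
  -- the low point y
  obtain ⟨y, hy, hy1, hy2⟩ := hdense (xa + t * S) (by linarith only [hxa1, htS0]) (by linarith only [hxa2, hcS16, htS64, hcS00])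
  have hylow : h y - h xa - σ0 * (y - xa) ≤ -(c1 * (S * √S)) := by
    have hyp : 0 < y - xa := by linarith only [htS0, hy1]
    have hy4 : y - xa ≤ 4 * t * S := by linarith only [hcSt, htS0, hy2]
    have h1 := hW xa hxa y hy
    rw [abs_of_pos hyp] at h1
    have h2 : √(y - xa) ≤ ε * √S / (4 * V) := by
      have h3 : √(y - xa) ≤ √(4 * t * S) := Real.sqrt_le_sqrt hy4
      have h4 : √(4 * t * S) = ε * √S / (4 * V) := by
        have : 4 * t * S = (2 * (ε / (8 * V))) ^ 2 * S := by rw [ht]; ring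
        rw [this, Real.sqrt_mul (by positivity), Real.sqrt_sq (by positivity)]
        field_simp
        ring
      rw [h4] at h3
      exact h3
    have h5 : V * ((y - xa) * √(y - xa)) ≤ (y - xa) * (ε * √S / 4) := by
      have : V * √(y - xa) ≤ ε * √S / 4 := by
        have := mul_le_mul_of_nonneg_left h2 hV0.le
        have e1 : V * (ε * √S / (4 * V)) = ε * √S / 4 := by field_simp
        linarith only [this, e1]
      have h51 := mul_le_mul_of_nonneg_left this hyp.le
      linarith only [h51]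
    have h6 := (abs_le.mp h1).2
    have h7 : g xa * (y - xa) ≤ (σ0 - ε / 2 * √S) * (y - xa) :=
      mul_le_mul_of_nonneg_right hga hyp.le
    have h8 : h y - h xa - σ0 * (y - xa) ≤ -(ε / 4 * √S) * (y - xa) := by linarith only [h5, h6, h7]
    have h9 : t * S ≤ y - xa := by linarith only [hy1]
    have h10 : ε / 4 * √S * (t * S) ≤ ε / 4 * √S * (y - xa) :=
      mul_le_mul_of_nonneg_left h9 (by positivity)
    have h11 : ε / 4 * √S * (t * S) = c1 * (S * √S) := by rw [hc1]; ring
    linarith only [h5, h6, h7, h10, h11]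
  -- points near the ends are high
  have hnear : ∀ z ∈ X, ∀ w ∈ X, |g w - σ0| ≤ V * √S → |z - w| ≤ 2 * t' * S →
      |h z - h w - σ0 * (z - w)| ≤ c1 / 4 * (S * √S) := by
    intro z hz w hw hgw hzw
    have h1 := hW w hw z hz
    have hts : 2 * t' * S ≤ S := by
      have := mul_le_mul_of_nonneg_right (show 2 * t' ≤ 1 by linarith only [hc0, hct, ht1, hc1t, ht't]) hS.le
      linarith only [this]
    have h2 : √|z - w| ≤ √S := Real.sqrt_le_sqrt (by linarith only [hzw, hts])
    have h3 : V * (|z - w| * √|z - w|) ≤ V * (2 * t' * S * √S) := by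
      apply mul_le_mul_of_nonneg_left _ hV0.le
      exact mul_le_mul hzw h2 (Real.sqrt_nonneg _) (by positivity)
    have h4 : |(g w - σ0) * (z - w)| ≤ V * √S * (2 * t' * S) := by
      rw [abs_mul]
      exact mul_le_mul hgw hzw (abs_nonneg _) (by positivity)
    have e1 : h z - h w - σ0 * (z - w) = (h z - h w - g w * (z - w)) + (g w - σ0) * (z - w) := by
      ring
    rw [e1]
    have h5 := abs_add_le (h z - h w - g w * (z - w)) ((g w - σ0) * (z - w))
    have e2 : c1 / 4 * (S * √S) = V * (2 * t' * S * √S) + V * √S * (2 * t' * S) := by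
      rw [← ht'c]; ring
    linarith only [h1, h3, h4, h5, e2]
  -- minimisers
  set Y := (hfin α (α + S)).toFinset with hY
  have hYm : ∀ x, x ∈ Y ↔ x ∈ X ∧ α ≤ x ∧ x ≤ α + S := by
    intro x
    rw [hY, Set.Finite.mem_toFinset]
    rfl
  have hyY : y ∈ Y := (hYm y).mpr ⟨hy, by linarith only [hxa1, htS0, hy1], by linarith only [hxa2, hcS16, htS64, hcS00, hy2]⟩
  have hmin : ∀ σ : ℝ, ∃ x : ℝ, x ∈ Y ∧ ∀ z ∈ Y, h x - σ * x ≤ h z - σ * z := by
    intro σ
    obtain ⟨x, hx, hx2⟩ := Y.exists_min_image (fun x => h x - σ * x) ⟨y, hyY⟩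
    exact ⟨x, hx, hx2⟩
  choose m hmY hm using hmin
  -- properties of minimisers
  have hint : ∀ σ : ℝ, |σ - σ0| ≤ ξ * √S →
      α + 2 * t' * S ≤ m σ ∧ m σ ≤ α + S - 2 * t' * S := by
    intro σ hσ
    obtain ⟨hx1, hx2, hx3⟩ := (hYm _).mp (hmY σ)
    have hmy := hm σ y hyY
    have key : ∀ w ∈ X, |g w - σ0| ≤ V * √S → h w - h xa = σ0 * (w - xa) →
        ¬ |m σ - w| ≤ 2 * t' * S := by
      intro w hw hgw hwa hcl
      have h1 := hnear (m σ) hx1 w hw hgw hcl
      have h2 := (abs_le.mp h1).1
      have h3 : |(σ - σ0) * (m σ - y)| ≤ ξ * √S * S := by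
        rw [abs_mul]
        apply mul_le_mul hσ _ (abs_nonneg _) (by positivity)
        have := (hYm y).mp hyY
        rw [abs_le]
        constructor <;> linarith
      have h4 := (abs_le.mp h3).2
      have e1 : ξ * √S * S = c1 / 4 * (S * √S) := by rw [hξ]; ring
      rw [e1] at h4
      have hp : 0 < c1 * (S * √S) := by positivity
      linarith only [hylow, hmy, hwa, h2, h4, hp]
    have ka := key xa hxa hgσ (by ring)
    have kb := key xb hxb hgσb hσ0
    push Not at ka kb
    have hcS : c * S ≤ t' * S := mul_le_mul_of_nonneg_right hct hS.le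
    have htS : 0 < t' * S := by positivity
    constructor
    · by_contra hlt
      push Not at hlt
      have : |m σ - xa| ≤ 2 * t' * S := by
        rw [abs_le]; constructor <;> linarith
      linarith only [ka, this]
    · by_contra hlt
      push Not at hlt
      have : |m σ - xb| ≤ 2 * t' * S := by
        rw [abs_le]; constructor <;> linarith
      linarith only [kb, this]
  have hgm : ∀ σ : ℝ, |σ - σ0| ≤ ξ * √S → |g (m σ) - σ| ≤ e := by
    intro σ hσ
    obtain ⟨i1, i2⟩ := hint σ hσ
    obtain ⟨hx1, hx2, hx3⟩ := (hYm _).mp (hmY σ)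
    have hcS : c * S ≤ t' * S := mul_le_mul_of_nonneg_right hct hS.le
    have hcS0 : 0 < c * S := by positivity
    have htS : 0 < t' * S := by positivity
    rw [abs_le]
    constructor
    · obtain ⟨z, hz, hz1, hz2⟩ := hdense (m σ + c * S / 2) (by linarith only [hcS00, hx2]) (by linarith only [hcS00, i2, hcS])
      have hzY : z ∈ Y := (hYm z).mpr ⟨hz, by linarith only [hcS00, hx2, hz1], by linarith only [hcS00, i2, hcS, hz2]⟩
      have h1 := hm σ z hzY
      have h2 := (abs_le.mp (hW (m σ) hx1 z hz)).2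
      have hd : 0 < z - m σ := by linarith only [hcS00, hz1]
      rw [abs_of_pos hd] at h2
      have h3 : √(z - m σ) ≤ √(2 * c * S) := Real.sqrt_le_sqrt (by linarith only [hcS00, hz2])
      have h4 : V * ((z - m σ) * √(z - m σ)) ≤ e * (z - m σ) := by
        rw [he]
        have := mul_le_mul_of_nonneg_left h3 (mul_nonneg hV0.le hd.le)
        linarith only [this]
      have h5 : (σ - g (m σ)) * (z - m σ) ≤ e * (z - m σ) := by linarith only [h1, h2, h4]
      have := le_of_mul_le_mul_right h5 hd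
      linarith only [this]
    · obtain ⟨z, hz, hz1, hz2⟩ := hdense (m σ - 3 * (c * S) / 2) (by linarith only [hcS00, i1, hcS]) (by linarith only [hcS00, hx3])
      have hzY : z ∈ Y := (hYm z).mpr ⟨hz, by linarith only [hcS00, i1, hcS, hz1], by linarith only [hcS00, i2, hcS, hz2]⟩
      have h1 := hm σ z hzY
      have h2 := (abs_le.mp (hW (m σ) hx1 z hz)).2
      have hd : 0 < m σ - z := by linarith only [hcS00, hz2]
      rw [abs_sub_comm, abs_of_pos hd] at h2
      have h3 : √(m σ - z) ≤ √(2 * c * S) := Real.sqrt_le_sqrt (by linarith only [hcS00, hz1])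
      have h4 : V * ((m σ - z) * √(m σ - z)) ≤ e * (m σ - z) := by
        rw [he]
        have := mul_le_mul_of_nonneg_left h3 (mul_nonneg hV0.le hd.le)
        linarith only [this]
      have h5 : (g (m σ) - σ) * (m σ - z) ≤ e * (m σ - z) := by linarith only [h1, h2, h4]
      exact le_of_mul_le_mul_right h5 hd
  -- slope differences are bounded by distances
  have hgg : ∀ x ∈ X, ∀ z ∈ X, x ≠ z → |g z - g x| ≤ 2 * V * √|z - x| := by
    intro x hx z hz hxz
    have h1 := hW x hx z hz
    have h2 := hW z hz x hx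
    rw [abs_sub_comm x z] at h2
    have e1 : (g z - g x) * (z - x) =
        (h z - h x - g x * (z - x)) + (h x - h z - g z * (x - z)) := by ring
    have h3 : |(g z - g x) * (z - x)| ≤ 2 * V * (|z - x| * √|z - x|) := by
      rw [e1]
      have := abs_add_le (h z - h x - g x * (z - x)) (h x - h z - g z * (x - z))
      linarith only [h1, h2, this]
    exact abs_le_mul_sqrt (sub_ne_zero.mpr (fun h => hxz h.symm)) h3
  -- the chain
  set σ : ℕ → ℝ := fun j => σ0 - ξ * √S + j * D with hσ
  have hND : (N : ℝ) ^ 2 * D = 2 * ξ * √S := by rw [hD]; field_simp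
  have hσr : ∀ j : ℕ, j ≤ N ^ 2 → |σ j - σ0| ≤ ξ * √S := by
    intro j hj
    have hj' : (j : ℝ) ≤ (N : ℝ) ^ 2 := by exact_mod_cast hj
    have h1 : (j : ℝ) * D ≤ 2 * ξ * √S := by
      rw [← hND]; exact mul_le_mul_of_nonneg_right hj' hD0.le
    have h2 : 0 ≤ (j : ℝ) * D := by positivity
    simp only [hσ]
    rw [abs_le]
    constructor <;> linarith
  have hmX : ∀ s : ℝ, m s ∈ X := fun s => ((hYm _).mp (hmY s)).1
  have hstep : ∀ j : ℕ, j < N ^ 2 → |m (σ (j + 1)) - m (σ j)| ≤ (D / ε) ^ 2 := by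
    intro j hj
    have hr1 := hσr j hj.le
    have hr2 := hσr (j + 1) hj
    have g1 := hgm (σ j) hr1
    have g2 := hgm (σ (j + 1)) hr2
    have hσσ : σ (j + 1) - σ j = D := by simp only [hσ]; push_cast; ring
    set x := m (σ j) with hx
    set z := m (σ (j + 1)) with hz
    rw [abs_le] at g1 g2
    have d1 : D / 2 ≤ g z - g x := by linarith only [he0, heD4, hσσ, g1, g2]
    have d2 : g z - g x ≤ 2 * D := by linarith only [he0, heD4, hσσ, g1, g2]
    have hxz : x ≠ z := by
      intro h0
      rw [h0, sub_self] at d1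
      linarith only [he0, heD4, d1]
    have hxX : x ∈ X := hmX _
    have hzX : z ∈ X := hmX _
    have h1 := hgg x hxX z hzX hxz
    rw [abs_of_pos (by linarith only [he0, heD4, hσσ, g1, g2])] at h1
    set s := √|z - x| with hs
    have hs0 : 0 ≤ s := Real.sqrt_nonneg _
    have hss : s ^ 2 = |z - x| := Real.sq_sqrt (abs_nonneg _)
    have h2 : D / (4 * V) ≤ s := by
      rw [div_le_iff₀ (by positivity)]; linarith only [he0, heD4, hσσ, g1, g2, h1]
    have h3 : T0 ≤ |z - x| := by
      rw [← hss]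
      exact hT0.trans (pow_le_pow_left₀ (by positivity) h2 2)
    have hpos : 0 < |z - x| := abs_pos.mpr (sub_ne_zero.mpr (fun h => hxz h.symm))
    have h4 := hF x hxX z hzX h3
    have h5 := hF z hzX x hxX (by rwa [abs_sub_comm])
    rw [abs_sub_comm x z] at h5
    -- signs
    have m1 := hm (σ j) z (hmY _)
    have m2 := hm (σ (j + 1)) x (hmY _)
    have hes : e < ε * s := by
      have : ε * (D / (4 * V)) ≤ ε * s := mul_le_mul_of_nonneg_left h2 hε.le
      have e1 : ε * (D / (4 * V)) = 2 * e := by rw [heD]; field_simp; ring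
      linarith only [he0, this, e1]
    have hse : e * |z - x| < ε * (|z - x| * s) := by
      have := mul_lt_mul_of_pos_right hes hpos
      linarith only [this]
    have s1 : ε * (|z - x| * s) ≤ h z - h x - g x * (z - x) := by
      have l1 : -(e * |z - x|) ≤ h z - h x - g x * (z - x) := by
        have t1 : |(σ j - g x) * (z - x)| ≤ e * |z - x| := by
          rw [abs_mul]
          apply mul_le_mul_of_nonneg_right _ (abs_nonneg _)
          rw [abs_le]; constructor <;> linarith
        have t2 := (abs_le.mp t1).1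
        linarith only [m1, t2]
      rcases abs_choice (h z - h x - g x * (z - x)) with hc | hc
      · rw [hc] at h4; exact h4
      · rw [hc] at h4; linarith only [h4, hse, l1]
    have s2 : ε * (|z - x| * s) ≤ h x - h z - g z * (x - z) := by
      have l1 : -(e * |z - x|) ≤ h x - h z - g z * (x - z) := by
        have t1 : |(σ (j + 1) - g z) * (x - z)| ≤ e * |z - x| := by
          rw [abs_mul, abs_sub_comm x z]
          apply mul_le_mul_of_nonneg_right _ (abs_nonneg _)
          rw [abs_le]; constructor <;> linarith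
        have t2 := (abs_le.mp t1).1
        linarith only [m2, t2]
      rcases abs_choice (h x - h z - g z * (x - z)) with hc | hc
      · rw [hc] at h5; exact h5
      · rw [hc] at h5; linarith only [h5, hse, l1]
    have s3 : 2 * ε * s * |z - x| ≤ (2 * D) * |z - x| := by
      have t1 : (g z - g x) * (z - x) ≤ (2 * D) * |z - x| := by
        calc (g z - g x) * (z - x) ≤ |(g z - g x) * (z - x)| := le_abs_self _
          _ = (g z - g x) * |z - x| := by rw [abs_mul, abs_of_pos (by linarith only [he0, heD4, hσσ, g1, g2])]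
          _ ≤ (2 * D) * |z - x| := mul_le_mul_of_nonneg_right d2 (abs_nonneg _)
      linarith only [s1, s2, t1]
    have s4 := le_of_mul_le_mul_right s3 hpos
    have s5 : s ≤ D / ε := by
      rw [le_div_iff₀ hε]; linarith only [s4]
    rw [← hss]
    exact pow_le_pow_left₀ hs0 s5 2
  have hchain : ∀ j : ℕ, j ≤ N ^ 2 → |m (σ j) - m (σ 0)| ≤ j * (D / ε) ^ 2 := by
    intro j
    induction j with
    | zero => intro _; simp
    | succ j ih =>
      intro hj
      have h1 := ih (by omega)
      have h2 := hstep j (by omega)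
      have h3 := abs_sub_le (m (σ (j + 1))) (m (σ j)) (m (σ 0))
      push_cast
      linarith only [h1, h2, h3]
  have hlast := hchain (N ^ 2) le_rfl
  have q1 := hgm (σ 0) (hσr 0 (by omega))
  have q2 := hgm (σ (N ^ 2)) (hσr _ le_rfl)
  have q3 : σ (N ^ 2) - σ 0 = 2 * ξ * √S := by
    simp only [hσ]
    push_cast
    rw [← hND]; ring
  rw [abs_le] at q1 q2
  have q4 : ξ * √S < g (m (σ (N ^ 2))) - g (m (σ 0)) := by
    have : 0 < ξ * √S := by positivity
    linarith only [he0, heD4, hDξ, q1, q2, q3]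
  have q5 : m (σ 0) ≠ m (σ (N ^ 2)) := by
    intro h0
    rw [h0, sub_self] at q4
    have : 0 < ξ * √S := by positivity
    linarith only [he0, heD4, hDξ, q4]
  have q6 := hgg _ (hmX (σ 0)) _ (hmX (σ (N ^ 2))) q5
  have q7 : √|m (σ (N ^ 2)) - m (σ 0)| ≤ N * (D / ε) := by
    rw [show (N : ℝ) * (D / ε) = √((N * (D / ε)) ^ 2) by
      rw [Real.sqrt_sq (by positivity)]]
    apply Real.sqrt_le_sqrt
    refine hlast.trans (le_of_eq ?_)
    push_cast
    ring
  have q8 : ξ * √S < 2 * V * (N * (D / ε)) := by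
    calc ξ * √S < g (m (σ (N ^ 2))) - g (m (σ 0)) := q4
      _ ≤ |g (m (σ (N ^ 2))) - g (m (σ 0))| := le_abs_self _
      _ ≤ 2 * V * √|m (σ (N ^ 2)) - m (σ 0)| := q6
      _ ≤ 2 * V * (N * (D / ε)) := mul_le_mul_of_nonneg_left q7 (by positivity)
  have q9 : 2 * V * (N * (D / ε)) = (4 * V / ε / N) * (ξ * √S) := by
    rw [hD]; field_simp; ring
  have q10 : 4 * V / ε / N < 1 := by
    rw [div_lt_one hN0]; exact hN
  have q11 : 0 < ξ * √S := by positivity
  rw [q9] at q8
  have q12 := mul_lt_mul_of_pos_right q10 q11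
  linarith only [q8, q12]

end FT
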