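import Pool.Agent.Work.MP_07b414_co.Base

set_option autoImplicit false

namespace FT

/-- `nb` picks a nearest neighbour (in the first coordinate) -/
def NN (P : Set (ℝ × ℝ)) (nb : ℝ × ℝ → ℝ × ℝ) : Prop :=
  ∀ u ∈ P, nb u ∈ P ∧ nb u ≠ u ∧ ∀ v ∈ P, v ≠ u → |(nb u).1 - u.1| ≤ |v.1 - u.1|

/-- distance to the nearest neighbour -/
noncomputable def rho (nb : ℝ × ℝ → ℝ × ℝ) (u : ℝ × ℝ) : ℝ := |(nb u).1 - u.1|

/-- direction of the nearest neighbour -/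
noncomputable def gr (nb : ℝ × ℝ → ℝ × ℝ) (u : ℝ × ℝ) : ℝ := sl u (nb u)

theorem finite_window {K : ℝ} {P : Set (ℝ × ℝ)} (hP : Conf K P) (x D : ℝ) :
    {u ∈ P | |u.1 - x| ≤ D}.Finite := by
  classical
  by_contra hinf
  have hinf' : {u ∈ P | |u.1 - x| ≤ D}.Infinite := hinf
  by_cases hD : 0 ≤ D
  · obtain ⟨F, hF, hFc⟩ := hinf'.exists_subset_card_eq (⌈2 * D⌉₊ + 2)
    have := card_sep (F := F) (R := 1) (D := 2 * D) one_pos (by positivity)
      (fun u hu v hv huv => hP.sep u (hF hu).1 v (hF hv).1 huv)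
      (fun u hu v hv => by
        have a1 := (hF hu).2
        have a2 := (hF hv).2
        rw [abs_le] at *
        constructor <;> linarith)
    rw [hFc] at this
    push_cast at this
    have h2 := Nat.le_ceil (2 * D)
    linarith
  · push Not at hD
    apply hinf'
    convert Set.finite_empty (α := ℝ × ℝ)
    ext u
    simp only [Set.mem_ofPred_eq, Set.mem_empty_iff_false, iff_false, not_and, not_le]
    intro _
    exact hD.trans_le (abs_nonneg _)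

theorem exists_NN {K : ℝ} {P : Set (ℝ × ℝ)} (hP : Conf K P) : ∃ nb, NN P nb := by
  classical
  obtain ⟨u0, hu0, v0, hv0, hne0, -⟩ := hP.two
  have key : ∀ u : ℝ × ℝ, ∃ w : ℝ × ℝ, u ∈ P →
      (w ∈ P ∧ w ≠ u ∧ ∀ v ∈ P, v ≠ u → |w.1 - u.1| ≤ |v.1 - u.1|) := by
    intro u
    by_cases hu : u ∈ P
    · obtain ⟨z, hz, hzu⟩ : ∃ z ∈ P, z ≠ u := by
        by_cases h : u0 = u
        · exact ⟨v0, hv0, fun h' => hne0 (h.trans h'.symm)⟩
        · exact ⟨u0, hu0, h⟩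
      have hfin := finite_window hP u.1 |z.1 - u.1|
      set S := hfin.toFinset.filter (fun w => w ≠ u) with hS
      have hmem : ∀ w, w ∈ S ↔ (w ∈ P ∧ |w.1 - u.1| ≤ |z.1 - u.1|) ∧ w ≠ u := by
        intro w
        rw [hS, Finset.mem_filter, Set.Finite.mem_toFinset]
        rfl
      have hzS : z ∈ S := (hmem z).mpr ⟨⟨hz, le_refl _⟩, hzu⟩
      obtain ⟨w, hw, hmin⟩ := S.exists_min_image (fun w => |w.1 - u.1|) ⟨z, hzS⟩
      have hw' := (hmem w).mp hw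
      refine ⟨w, fun _ => ⟨hw'.1.1, hw'.2, fun v hv hvu => ?_⟩⟩
      by_cases hvz : |v.1 - u.1| ≤ |z.1 - u.1|
      · exact hmin v ((hmem v).mpr ⟨⟨hv, hvz⟩, hvu⟩)
      · push Not at hvz
        exact hw'.1.2.trans hvz.le
    · exact ⟨u, fun h => absurd h hu⟩
  choose nb hnb using key
  exact ⟨nb, fun u hu => hnb u hu⟩

section

variable {K : ℝ} {P : Set (ℝ × ℝ)} {nb : ℝ × ℝ → ℝ × ℝ}

theorem rho_ge_one (hP : Conf K P) (hnb : NN P nb) {u : ℝ × ℝ} (hu : u ∈ P) :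
    1 ≤ rho nb u :=
  hP.sep u hu (nb u) (hnb u hu).1 (fun h => (hnb u hu).2.1 h.symm)

theorem rho_le (hnb : NN P nb) {u v : ℝ × ℝ} (hu : u ∈ P) (hv : v ∈ P) (h : v ≠ u) :
    rho nb u ≤ |v.1 - u.1| := (hnb u hu).2.2 v hv h

theorem rho_le' (hnb : NN P nb) {u v : ℝ × ℝ} (hu : u ∈ P) (hv : v ∈ P) (h : v ≠ u) :
    rho nb v ≤ |v.1 - u.1| := by
  rw [abs_sub_comm]
  exact rho_le hnb hv hu (fun h' => h h'.symm)

theorem row_nb (hP : Conf K P) (hK : 1 ≤ K) (hnb : NN P nb) {u : ℝ × ℝ} (hu : u ∈ P)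
    {T : ℝ} (hT : K * rho nb u ≤ T) :
    ∃ R : Finset (ℝ × ℝ), (∀ l ∈ R, l ∈ P ∧ |l.1 - u.1| ≤ T ∧
        |l.2 - u.2 - gr nb u * (l.1 - u.1)| ≤ K * (T * √T)) ∧
      T / (K * rho nb u) ≤ (R.card : ℝ) := by
  have h1 := rho_ge_one hP hnb hu
  obtain ⟨R, hR, hc⟩ := hP.row u hu (nb u) (hnb u hu).1 (fun h => (hnb u hu).2.1 h.symm) T hT
  refine ⟨R, fun l hl => ?_, hc⟩
  obtain ⟨a1, a2, a3⟩ := hR l hl
  refine ⟨a1, a2, a3.trans ?_⟩
  apply div_le_self _ h1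
  have : 0 ≤ T := le_trans (by positivity) hT
  positivity

/-- the crude polynomial bound -/
theorem base (hP : Conf K P) (hK : 1 ≤ K) (hnb : NN P nb) :
    ∃ B : ℝ, 1 ≤ B ∧ ∀ i ∈ P, ∀ l ∈ P, l ≠ i →
      |sl i l - gr nb i| ≤ B * |l.1 - i.1| ^ 28 := by
  set a : ℝ := 81 * K ^ 4 with ha
  set b : ℝ := (1620 * K ^ 5) ^ 2 with hb
  set h : ℝ := K * (a * (9 * K ^ 2)) with hh
  set w : ℝ := K * (b * (1620 * K ^ 5)) with hw
  have ha0 : 0 ≤ a := by positivity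
  have hb0 : 0 ≤ b := by positivity
  have hh0 : 0 ≤ h := by positivity
  have hw0 : 0 ≤ w := by positivity
  set B : ℝ := 1 + 288 * a ^ 2 * w * b + 96 * a ^ 2 * h + 16 * a * h + 10 * h * a
    + 180 * w * a ^ 3 + 30 * h * a ^ 2 with hB
  have hBp : 1 ≤ B := by
    have : 0 ≤ 288 * a ^ 2 * w * b + 96 * a ^ 2 * h + 16 * a * h + 10 * h * a
      + 180 * w * a ^ 3 + 30 * h * a ^ 2 := by positivity
    rw [hB]; linarith
  refine ⟨B, hBp, fun i hi l hl hne => ?_⟩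
  by_contra hcon
  push Not at hcon
  set T := |l.1 - i.1| with hT
  have hT1 : 1 ≤ T := hP.sep i hi l hl (fun h => hne h.symm)
  have hsq1 : √(a * T ^ 4) = 9 * K ^ 2 * T ^ 2 := by
    have : a * T ^ 4 = (9 * K ^ 2 * T ^ 2) ^ 2 := by rw [ha]; ring
    rw [this, Real.sqrt_sq (by positivity)]
  have hsq2 : √(b * T ^ 8) = 1620 * K ^ 5 * T ^ 4 := by
    have : b * T ^ 8 = (1620 * K ^ 5 * T ^ 4) ^ 2 := by rw [hb]; ring
    rw [this, Real.sqrt_sq (by positivity)]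
  have hri : rho nb i ≤ T := rho_le hnb hi hl hne
  have hrl : rho nb l ≤ T := rho_le' hnb hi hl hne
  have hri1 := rho_ge_one hP hnb hi
  have hrl1 := rho_ge_one hP hnb hl
  have hpow : ∀ n : ℕ, n ≤ 28 → T ^ n ≤ T ^ 28 := fun n hn => pow_le_pow_right₀ hT1 hn
  have hKp : ∀ n m : ℕ, n ≤ m → K ^ n ≤ K ^ m := fun n m hn => pow_le_pow_right₀ hK hn
  have hTp : ∀ n m : ℕ, n ≤ m → T ^ n ≤ T ^ m := fun n m hn => pow_le_pow_right₀ hT1 hn
  have hKT : K * T ≤ a * T ^ 4 := by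
    have e1 : K * T ≤ K ^ 4 * T ^ 4 := by
      have := mul_le_mul (hKp 1 4 (by norm_num)) (hTp 1 4 (by norm_num)) (by positivity)
        (by positivity)
      simpa using this
    have : 0 ≤ K ^ 4 * T ^ 4 := by positivity
    rw [ha]; nlinarith only [e1, this]
  obtain ⟨A0, hA0, hA0c⟩ := row_nb hP hK hnb hi (T := a * T ^ 4)
    (le_trans (mul_le_mul_of_nonneg_left hri (by positivity)) hKT)
  obtain ⟨D0, hD0, hD0c⟩ := row_nb hP hK hnb hl (T := a * T ^ 4)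
    (le_trans (mul_le_mul_of_nonneg_left hrl (by positivity)) hKT)
  rw [hsq1] at hA0 hD0
  have hcnt : ∀ r : ℝ, 1 ≤ r → r ≤ T → 81 * K ^ 3 * T ^ 3 ≤ a * T ^ 4 / (K * r) := by
    intro r hr1 hr2
    rw [le_div_iff₀ (by positivity)]
    calc 81 * K ^ 3 * T ^ 3 * (K * r) ≤ 81 * K ^ 3 * T ^ 3 * (K * T) := by gcongr
      _ = a * T ^ 4 := by rw [ha]; ring
  have hA0c' := (hcnt _ hri1 hri).trans hA0c
  have hD0c' := (hcnt _ hrl1 hrl).trans hD0c
  have hKT3 : 1 ≤ K ^ 3 * T ^ 3 := by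
    have := mul_le_mul (one_le_pow₀ hK (n := 3)) (one_le_pow₀ hT1 (n := 3)) zero_le_one
      (by positivity)
    simpa using this
  have hKT1 : 1 ≤ K * (a * T ^ 4) := by
    have e1 : 1 ≤ K ^ 5 * T ^ 4 := by
      have := mul_le_mul (one_le_pow₀ hK (n := 5)) (one_le_pow₀ hT1 (n := 4)) zero_le_one
        (by positivity)
      simpa using this
    have : K * (a * T ^ 4) = 81 * (K ^ 5 * T ^ 4) := by rw [ha]; ring
    rw [this]; linarith
  set m : ℕ := ⌈18 * K * (a * T ^ 4)⌉₊ with hm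
  have hm1 : 18 * K * (a * T ^ 4) ≤ m := Nat.le_ceil _
  have hm2 : (m : ℝ) ≤ 19 * K * (a * T ^ 4) := by
    have := (Nat.ceil_lt_add_one (show 0 ≤ 18 * K * (a * T ^ 4) by positivity)).le
    rw [← hm] at this
    nlinarith only [hKT1, this]
  have hm3 : m ≤ (A0.card - 1) * (D0.card - 1) := by
    have cA : 1 ≤ A0.card := by
      have : (1 : ℝ) ≤ A0.card := by nlinarith only [hA0c', hKT3]
      exact_mod_cast this
    have cD : 1 ≤ D0.card := by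
      have : (1 : ℝ) ≤ D0.card := by nlinarith only [hD0c', hKT3]
      exact_mod_cast this
    have : (m : ℝ) ≤ ((A0.card - 1 : ℕ) : ℝ) * ((D0.card - 1 : ℕ) : ℝ) := by
      rw [Nat.cast_sub cA, Nat.cast_sub cD]
      push_cast
      have x1 : 80 * (K ^ 3 * T ^ 3) ≤ (A0.card : ℝ) - 1 := by nlinarith only [hA0c', hKT3]
      have x2 : 80 * (K ^ 3 * T ^ 3) ≤ (D0.card : ℝ) - 1 := by nlinarith only [hD0c', hKT3]
      have x3 := mul_le_mul x1 x2 (by positivity) (le_trans (by positivity) x1)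
      have x4 : K ^ 5 * T ^ 4 ≤ K ^ 6 * T ^ 6 :=
        mul_le_mul (hKp 5 6 (by norm_num)) (hTp 4 6 (by norm_num)) (by positivity) (by positivity)
      have x5 : 0 ≤ K ^ 6 * T ^ 6 := by positivity
      calc (m : ℝ) ≤ 19 * K * (a * T ^ 4) := hm2
        _ = 1539 * (K ^ 5 * T ^ 4) := by rw [ha]; ring
        _ ≤ 6400 * (K ^ 6 * T ^ 6) := by linarith
        _ = 80 * (K ^ 3 * T ^ 3) * (80 * (K ^ 3 * T ^ 3)) := by ring
        _ ≤ _ := x3
    exact_mod_cast this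
  have hHT : B * T ^ 28 < |sl i l - gr nb i| * T := by
    have : |sl i l - gr nb i| * 1 ≤ |sl i l - gr nb i| * T :=
      mul_le_mul_of_nonneg_left hT1 (abs_nonneg _)
    linarith
  have hT28 : 0 < T ^ 28 := by positivity
  refine base_core hK hP hi hl (T := T) (T1 := a * T ^ 4) (T2 := b * T ^ 8)
    (h1 := h * T ^ 6) (w2 := w * T ^ 12) (gi := gr nb i) (gl := gr nb l)
    (H := |sl i l - gr nb i|) hT hT1 ?_ ?_ (by positivity) ?_ A0 D0 ?_ ?_ rfl ?_ ?_ m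
    hm1 hm2 hm3 ?_
  · -- T ≤ a T^4
    have e1 : K * T ≤ a * T ^ 4 := hKT
    nlinarith only [hK, hT1, hKT]
  · -- 3 K a T^4 ≤ b T^8
    have x4 : K ^ 5 * T ^ 4 ≤ K ^ 10 * T ^ 8 :=
      mul_le_mul (hKp 5 10 (by norm_num)) (hTp 4 8 (by norm_num)) (by positivity) (by positivity)
    have x5 : 0 ≤ K ^ 10 * T ^ 8 := by positivity
    calc 3 * K * (a * T ^ 4) = 243 * (K ^ 5 * T ^ 4) := by rw [ha]; ring
      _ ≤ 2624400 * (K ^ 10 * T ^ 8) := by linarith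
      _ = b * T ^ 8 := by rw [hb]; ring
  · rw [hsq2, hw]; ring
  · intro p hp
    obtain ⟨x1, x2, x3⟩ := hA0 p hp
    refine ⟨x1, x2, x3.trans (le_of_eq ?_)⟩
    rw [hh]; ring
  · intro p hp
    obtain ⟨x1, x2, x3⟩ := hD0 p hp
    refine ⟨x1, x2, x3.trans (le_of_eq ?_)⟩
    rw [hh]; ring
  · refine lt_of_le_of_lt ?_ hHT
    have y1 : 288 * a ^ 2 * w * b * T ^ 28 + 96 * a ^ 2 * h * T ^ 14 + 16 * a * h * T ^ 10
        ≤ B * T ^ 28 := by
      have z1 : 96 * a ^ 2 * h * T ^ 14 ≤ 96 * a ^ 2 * h * T ^ 28 :=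
        mul_le_mul_of_nonneg_left (hpow 14 (by norm_num)) (by positivity)
      have z2 : 16 * a * h * T ^ 10 ≤ 16 * a * h * T ^ 28 :=
        mul_le_mul_of_nonneg_left (hpow 10 (by norm_num)) (by positivity)
      have z3 : 0 ≤ (1 + 10 * h * a + 180 * w * a ^ 3 + 30 * h * a ^ 2) * T ^ 28 := by positivity
      rw [hB]
      linarith
    refine le_trans (le_of_eq ?_) y1
    ring
  · refine lt_of_le_of_lt ?_ hHT
    have y1 : 10 * h * a * T ^ 10 + 180 * w * a ^ 3 * T ^ 24 + 30 * h * a ^ 2 * T ^ 14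
        ≤ B * T ^ 28 := by
      have z1 : 10 * h * a * T ^ 10 ≤ 10 * h * a * T ^ 28 :=
        mul_le_mul_of_nonneg_left (hpow 10 (by norm_num)) (by positivity)
      have z2 : 180 * w * a ^ 3 * T ^ 24 ≤ 180 * w * a ^ 3 * T ^ 28 :=
        mul_le_mul_of_nonneg_left (hpow 24 (by norm_num)) (by positivity)
      have z4 : 30 * h * a ^ 2 * T ^ 14 ≤ 30 * h * a ^ 2 * T ^ 28 :=
        mul_le_mul_of_nonneg_left (hpow 14 (by norm_num)) (by positivity)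
      have z3 : 0 ≤ (1 + 288 * a ^ 2 * w * b + 96 * a ^ 2 * h + 16 * a * h) * T ^ 28 := by
        positivity
      rw [hB]
      linarith
    refine le_trans (le_of_eq ?_) y1
    ring
  · have : b * T ^ 8 = 400 * K ^ 2 * (a * T ^ 4) ^ 2 := by rw [hb, ha]; ring
    rw [this]

end

end FT
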