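import Pool.Agent.Work.MP_07b414_co.Classes

set_option autoImplicit false

namespace FT

theorem near_sum {U : Finset (ℝ × ℝ)} {l : ℝ × ℝ} {T R0 r : ℝ} (ρ : ℝ × ℝ → ℝ)
    (hr : 1 < r) (hR0 : 0 < R0) (hT : 0 < T)
    (hsep : ∀ u ∈ U, ∀ v ∈ U, u ≠ v → ρ u ≤ |v.1 - u.1|)
    (hd0 : ∀ u ∈ U, 0 < |u.1 - l.1|)
    (hd1 : ∀ u ∈ U, ρ u ≤ |u.1 - l.1|)
    (hd2 : ∀ u ∈ U, |u.1 - l.1| ≤ T)
    (hρ : ∀ u ∈ U, ∀ k : ℕ, 2 ^ k * |u.1 - l.1| ≤ T → R0 * r ^ k ≤ ρ u) :
    ∑ u ∈ U, T / |u.1 - l.1| ≤ 6 * (T / R0) * (1 / (1 - 1 / r)) := by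
  classical
  have hr0 : 0 < r := by linarith
  have hk : ∀ u : ℝ × ℝ, ∃ k : ℕ, u ∈ U → (2 ^ k * |u.1 - l.1| ≤ T ∧ T / |u.1 - l.1| ≤ 2 ^ (k + 1)) := by
    intro u
    by_cases hu : u ∈ U
    · have h1 : 1 ≤ T / |u.1 - l.1| := by
        rw [le_div_iff₀ (hd0 u hu)]; linarith [hd2 u hu]
      obtain ⟨n, hn1, hn2⟩ := exists_nat_pow_near h1 (y := (2 : ℝ)) (by norm_num)
      refine ⟨n, fun _ => ⟨?_, hn2.le⟩⟩
      rwa [le_div_iff₀ (hd0 u hu)] at hn1
    · exact ⟨0, fun h => absurd h hu⟩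
  choose k hk using hk
  obtain ⟨N, hN⟩ : ∃ N : ℕ, ∀ u ∈ U, k u < N := by
    refine ⟨U.sup k + 1, fun u hu => ?_⟩
    have := Finset.le_sup (f := k) hu
    omega
  have hmaps : Set.MapsTo k (U : Set (ℝ × ℝ)) (Finset.range N : Set ℕ) := by
    intro u hu
    simp only [Finset.coe_range, Set.mem_Iio]
    exact hN u hu
  have h1 : ∑ u ∈ U, T / |u.1 - l.1| ≤ ∑ u ∈ U, (2 : ℝ) ^ (k u + 1) :=
    Finset.sum_le_sum (fun u hu => (hk u hu).2)
  have h2 : ∑ u ∈ U, (2 : ℝ) ^ (k u + 1) =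
      ∑ j ∈ Finset.range N, ∑ u ∈ U.filter (fun u => k u = j), (2 : ℝ) ^ (k u + 1) :=
    (Finset.sum_fiberwise_of_maps_to (fun u hu => hmaps hu) _).symm
  have h3 : ∀ j ∈ Finset.range N, ∑ u ∈ U.filter (fun u => k u = j), (2 : ℝ) ^ (k u + 1) ≤
      6 * (T / R0) * (1 / r) ^ j := by
    intro j _
    have e1 : ∑ u ∈ U.filter (fun u => k u = j), (2 : ℝ) ^ (k u + 1) =
        ((U.filter (fun u => k u = j)).card : ℝ) * 2 ^ (j + 1) := by
      rw [← nsmul_eq_mul, ← Finset.sum_const]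
      apply Finset.sum_congr rfl
      intro u hu
      rw [(Finset.mem_filter.mp hu).2]
    rw [e1]
    rcases (U.filter (fun u => k u = j)).eq_empty_or_nonempty with hemp | hne
    · rw [hemp]
      simp
      positivity
    · have hpos : 0 < R0 * r ^ j := by positivity
      have hc : ((U.filter (fun u => k u = j)).card : ℝ) ≤ (2 * (T / 2 ^ j)) / (R0 * r ^ j) + 1 := by
        apply card_sep hpos (by positivity)
        · intro u hu v hv huv
          rw [Finset.mem_filter] at hu hv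
          have a1 := (hk u hu.1).1
          rw [hu.2] at a1
          exact (hρ u hu.1 j a1).trans (hsep u hu.1 v hv.1 huv)
        · intro u hu v hv
          rw [Finset.mem_filter] at hu hv
          have a1 := (hk u hu.1).1
          have a2 := (hk v hv.1).1
          rw [hu.2] at a1
          rw [hv.2] at a2
          have b1 : |u.1 - l.1| ≤ T / 2 ^ j := by
            rw [le_div_iff₀ (by positivity)]; linarith
          have b2 : |v.1 - l.1| ≤ T / 2 ^ j := by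
            rw [le_div_iff₀ (by positivity)]; linarith
          rw [abs_le] at *
          constructor <;> linarith
      obtain ⟨u, hu⟩ := hne
      rw [Finset.mem_filter] at hu
      have a1 := (hk u hu.1).1
      rw [hu.2] at a1
      have a2 := hρ u hu.1 j a1
      have a3 := hd1 u hu.1
      have b1 : |u.1 - l.1| ≤ T / 2 ^ j := by
        rw [le_div_iff₀ (by positivity)]; linarith
      have b2 : 1 ≤ (T / 2 ^ j) / (R0 * r ^ j) := by
        rw [le_div_iff₀ hpos]; linarith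
      have hc2 : ((U.filter (fun u => k u = j)).card : ℝ) ≤ 3 * ((T / 2 ^ j) / (R0 * r ^ j)) := by
        refine hc.trans ?_
        have : (2 * (T / 2 ^ j)) / (R0 * r ^ j) = 2 * ((T / 2 ^ j) / (R0 * r ^ j)) := by ring
        rw [this]; linarith
      calc ((U.filter (fun u => k u = j)).card : ℝ) * 2 ^ (j + 1)
          ≤ 3 * ((T / 2 ^ j) / (R0 * r ^ j)) * 2 ^ (j + 1) :=
            mul_le_mul_of_nonneg_right hc2 (by positivity)
        _ = 6 * (T / R0) * (1 / r) ^ j := by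
            rw [one_div, inv_pow, pow_succ]
            field_simp
            ring
  have h4 : ∑ j ∈ Finset.range N, (1 / r) ^ j ≤ 1 / (1 - 1 / r) := by
    have hx0 : 0 ≤ 1 / r := by positivity
    have hx1 : 1 / r < 1 := by rw [div_lt_one hr0]; exact hr
    have := (summable_geometric_of_lt_one hx0 hx1).sum_le_tsum (Finset.range N)
      (fun i _ => by positivity)
    rw [tsum_geometric_of_lt_one hx0 hx1] at this
    rw [one_div (1 - 1 / r)]
    exact this
  calc ∑ u ∈ U, T / |u.1 - l.1| ≤ ∑ u ∈ U, (2 : ℝ) ^ (k u + 1) := h1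
    _ = ∑ j ∈ Finset.range N, ∑ u ∈ U.filter (fun u => k u = j), (2 : ℝ) ^ (k u + 1) := h2
    _ ≤ ∑ j ∈ Finset.range N, 6 * (T / R0) * (1 / r) ^ j := Finset.sum_le_sum h3
    _ = 6 * (T / R0) * ∑ j ∈ Finset.range N, (1 / r) ^ j := by rw [Finset.mul_sum]
    _ ≤ 6 * (T / R0) * (1 / (1 - 1 / r)) := mul_le_mul_of_nonneg_left h4 (by positivity)

end FT
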