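import Pool.Agent.Work.MP_07b414_co.Defs

set_option autoImplicit false

namespace FT

theorem sl_comm (u v : ℝ × ℝ) : sl u v = sl v u := by
  unfold sl
  rw [← neg_sub v.2 u.2, ← neg_sub v.1 u.1, neg_div_neg_eq]

theorem sl_mul {u v : ℝ × ℝ} (h : v.1 - u.1 ≠ 0) : sl u v * (v.1 - u.1) = v.2 - u.2 := by
  unfold sl
  field_simp

theorem sub_ne_of_one_le {x y : ℝ} (h : 1 ≤ |x - y|) : x - y ≠ 0 := by
  intro h0
  rw [h0] at h
  norm_num at h

/-- triangle formula -/
theorem tri {p p' l : ℝ × ℝ} (h1 : l.1 - p.1 ≠ 0) (h2 : l.1 - p'.1 ≠ 0) (h3 : p'.1 - p.1 ≠ 0) :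
    (sl p' l - sl p l) * (l.1 - p'.1) = (sl p l - sl p p') * (p'.1 - p.1) := by
  have e1 := sl_mul h1
  have e2 := sl_mul h2
  have e3 := sl_mul h3
  linear_combination e2 - e1 + e3

/-- a finite set of points which are `R`-separated and of diameter at most `D`
has at most `D / R + 1` elements. -/
theorem card_sep {F : Finset (ℝ × ℝ)} {R D : ℝ} (hR : 0 < R) (hD : 0 ≤ D)
    (h1 : ∀ u ∈ F, ∀ v ∈ F, u ≠ v → R ≤ |v.1 - u.1|)
    (h2 : ∀ u ∈ F, ∀ v ∈ F, |v.1 - u.1| ≤ D) : (F.card : ℝ) ≤ D / R + 1 := by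
  classical
  rcases F.eq_empty_or_nonempty with rfl | hne
  · simp
    positivity
  obtain ⟨m, hm, hmin⟩ := F.exists_min_image (fun u => u.1) hne
  have hDR : 0 ≤ D / R := by positivity
  have hcard : F.card ≤ (Finset.range (⌊D / R⌋₊ + 1)).card := by
    apply Finset.card_le_card_of_injOn (fun u => ⌊(u.1 - m.1) / R⌋₊)
    · intro u hu
      simp only [Finset.coe_range, Set.mem_Iio]
      have h3 := h2 m hm u hu
      have h4 : (u.1 - m.1) / R ≤ D / R := by
        apply div_le_div_of_nonneg_right _ hR.le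
        exact le_trans (le_abs_self _) h3
      have := Nat.floor_le_floor h4
      omega
    · intro u hu v hv huv
      by_contra hne
      have h3 := h1 u hu v hv hne
      simp only at huv
      have hu0 : 0 ≤ (u.1 - m.1) / R := div_nonneg (by have := hmin u hu; linarith) hR.le
      have hv0 : 0 ≤ (v.1 - m.1) / R := div_nonneg (by have := hmin v hv; linarith) hR.le
      have a1 := Nat.floor_le hu0
      have a2 := Nat.lt_floor_add_one ((u.1 - m.1) / R)
      have b1 := Nat.floor_le hv0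
      have b2 := Nat.lt_floor_add_one ((v.1 - m.1) / R)
      rw [huv] at a1 a2
      have e : (v.1 - m.1) / R - (u.1 - m.1) / R = (v.1 - u.1) / R := by ring
      have c1 : (v.1 - u.1) / R < 1 := by linarith
      have c2 : -1 < (v.1 - u.1) / R := by linarith
      rw [div_lt_one hR] at c1
      rw [lt_div_iff₀ hR] at c2
      have : |v.1 - u.1| < R := abs_lt.mpr ⟨by linarith, c1⟩
      linarith
  rw [Finset.card_range] at hcard
  have h5 : (F.card : ℝ) ≤ (⌊D / R⌋₊ : ℝ) + 1 := by exact_mod_cast hcard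
  have h6 := Nat.floor_le hDR
  linarith

/-- lower bound for the size of a union -/
theorem card_biUnion_ge {ι : Type*} [DecidableEq ι] (J : Finset ι)
    (A : ι → Finset (ℝ × ℝ)) (α I : ℝ) (hI : 0 ≤ I)
    (h1 : ∀ j ∈ J, α ≤ ((A j).card : ℝ))
    (h2 : ∀ j ∈ J, ∀ j' ∈ J, j ≠ j' → (((A j) ∩ (A j')).card : ℝ) ≤ I) :
    (J.card : ℝ) * (α - J.card * I) ≤ ((J.biUnion A).card : ℝ) := by
  classical
  induction J using Finset.induction_on with
  | empty => simp
  | insert j J hj ih =>
    have ih' := ih (fun j' hj' => h1 j' (Finset.mem_insert_of_mem hj'))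
      (fun a ha b hb hab => h2 a (Finset.mem_insert_of_mem ha) b (Finset.mem_insert_of_mem hb) hab)
    rw [Finset.biUnion_insert, Finset.card_insert_of_notMem hj]
    have e := Finset.card_union_add_card_inter (A j) (J.biUnion A)
    have hint : (((A j) ∩ (J.biUnion A)).card : ℝ) ≤ J.card * I := by
      have hsub : (A j) ∩ (J.biUnion A) ⊆ J.biUnion (fun j' => (A j) ∩ (A j')) := by
        intro x hx
        rw [Finset.mem_inter, Finset.mem_biUnion] at hx
        obtain ⟨hx1, j', hj', hx2⟩ := hx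
        rw [Finset.mem_biUnion]
        exact ⟨j', hj', Finset.mem_inter.mpr ⟨hx1, hx2⟩⟩
      have c1 := Finset.card_le_card hsub
      have c2 := Finset.card_biUnion_le (s := J) (t := fun j' => (A j) ∩ (A j'))
      have c3 : (((A j) ∩ (J.biUnion A)).card : ℝ) ≤ ∑ j' ∈ J, (((A j) ∩ (A j')).card : ℝ) := by
        exact_mod_cast c1.trans c2
      refine c3.trans ?_
      have : ∑ j' ∈ J, (((A j) ∩ (A j')).card : ℝ) ≤ ∑ _j' ∈ J, I := by
        apply Finset.sum_le_sum
        intro j' hj'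
        exact h2 j (Finset.mem_insert_self _ _) j' (Finset.mem_insert_of_mem hj')
          (fun h => hj (h ▸ hj'))
      rw [Finset.sum_const, nsmul_eq_mul] at this
      exact this
    have e' : (((A j) ∪ (J.biUnion A)).card : ℝ) + (((A j) ∩ (J.biUnion A)).card : ℝ)
        = ((A j).card : ℝ) + ((J.biUnion A).card : ℝ) := by exact_mod_cast e
    have hα := h1 j (Finset.mem_insert_self _ _)
    have hJ : (0 : ℝ) ≤ (J.card : ℝ) := Nat.cast_nonneg _
    push_cast
    nlinarith [mul_nonneg hJ hI]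

end FT
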