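import Pool.Agent.Work.MP_07b414_co.WCore

set_option autoImplicit false

namespace FT

variable {K : ℝ} {P : Set (ℝ × ℝ)} {nb : ℝ × ℝ → ℝ × ℝ}

/-- the sharp bound -/
theorem W (hP : Conf K P) (hK : 1 ≤ K) (hnb : NN P nb) :
    ∃ V : ℝ, 1 ≤ V ∧ ∀ i ∈ P, ∀ l ∈ P, l ≠ i →
      |sl i l - gr nb i| ≤ V * (max (rho nb i) (rho nb l)) ^ 100 * √|l.1 - i.1| := by
  obtain ⟨B, hB1, hB⟩ := base hP hK hnb
  have hK0 : 0 < K := by linarith only [hK]
  obtain ⟨E, hE⟩ : ∃ E : ℝ, E = (8 * K) ^ 100 := ⟨_, rfl⟩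
  have hE1 : 1 ≤ E := by rw [hE]; exact one_le_pow₀ (by linarith only [hK])
  have hE0 : 0 < E := by linarith
  obtain ⟨η, hη⟩ : ∃ η : ℝ, η = (1 / (48 * E)) ^ 2 := ⟨_, rfl⟩
  have hη0 : 0 < η := by rw [hη]; positivity
  have hη8 : η ≤ 1 / 8 := by
    have h1 : 1 / (48 * E) ≤ 1 / 48 := by
      apply div_le_div_of_nonneg_left zero_le_one (by norm_num); linarith only [hE1]
    have h2 : (1 / (48 * E)) ^ 2 ≤ (1 / 48) ^ 2 := pow_le_pow_left₀ (by positivity) h1 2
    rw [hη]; linarith only [h2]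
  have hsη : √η = 1 / (48 * E) := by rw [hη, Real.sqrt_sq (by positivity)]
  obtain ⟨μ, hμ⟩ : ∃ μ : ℝ, μ = 100 * K ^ 2 / η := ⟨_, rfl⟩
  have hμη : μ * η = 100 * K ^ 2 := by rw [hμ]; field_simp
  have hμ100 : 100 * K ^ 2 ≤ μ := by
    rw [hμ, le_div_iff₀ hη0]
    have : 0 < 100 * K ^ 2 := by positivity
    have h1 := mul_le_mul_of_nonneg_left hη8 this.le
    linarith only [this, h1]
  have hKK : K ≤ K ^ 2 := le_self_pow₀ hK (by norm_num)
  have hμ8 : 8 * K ≤ μ := by linarith only [hK, hη0, hη8, hμ100, hKK]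
  have hμ1 : 1 ≤ μ := by linarith only [hK, hη0, hη8, hμ100, hKK]
  have hμ0 : 0 < μ := by linarith only [hK, hη0, hη8, hμ100, hKK]
  obtain ⟨c1, hc1⟩ : ∃ c1 : ℝ, c1 = η / (1000 * K ^ 2 * μ) := ⟨_, rfl⟩
  have hc10 : 0 < c1 := by rw [hc1]; positivity
  have hc11 : c1 ≤ 1 := by
    rw [hc1, div_le_one (by positivity)]
    have : 1 ≤ K ^ 2 * μ := one_le_mul_of_one_le_of_one_le (one_le_pow₀ hK) hμ1
    linarith only [hη0, hη8, this]
  obtain ⟨q, hq⟩ : ∃ q : ℝ, q = 28 * K ^ 2 * μ := ⟨_, rfl⟩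
  have hq1 : 1 ≤ q := by
    rw [hq]
    exact one_le_mul_of_one_le_of_one_le (by linarith only [one_le_pow₀ hK (n := 2), hK, hη0, hη8, hKK]) hμ1
  have hq0 : 0 < q := by linarith only [hη0, hη8, hq1]
  obtain ⟨L, hL⟩ : ∃ L : ℝ, L = 2 * K + 1200 * K ^ 3 * μ ^ 2 := ⟨_, rfl⟩
  have hL0 : 0 < L := by rw [hL]; positivity
  obtain ⟨d1, hd1⟩ : ∃ d1 : ℝ, d1 = c1 / (4 * μ ^ 100) := ⟨_, rfl⟩
  have hd10 : 0 < d1 := by rw [hd1]; positivity
  have hd14 : d1 ≤ 1 / 4 := by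
    rw [hd1, div_le_div_iff₀ (by positivity) (by norm_num)]
    have : 1 ≤ μ ^ 100 := one_le_pow₀ hμ1
    linarith only [hc11, this]
  obtain ⟨r, hr1, hr200⟩ : ∃ r : ℝ, 1 < r ∧ r ^ 200 = 2 := by
    refine ⟨(2 : ℝ) ^ ((1 : ℝ) / 200), Real.one_lt_rpow (by norm_num) (by norm_num), ?_⟩
    rw [← Real.rpow_natCast, ← Real.rpow_mul (by norm_num)]
    norm_num
  obtain ⟨C, hC⟩ : ∃ C : ℝ, C = 1 / (1 - 1 / r) := ⟨_, rfl⟩
  have hr0 : 0 < r := by linarith only [hη0, hη8, hr1]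
  have hC0 : 0 < C := by
    rw [hC]
    have : 1 / r < 1 := by rw [div_lt_one hr0]; exact hr1
    have : 0 < 1 - 1 / r := by linarith only [this]
    positivity
  obtain ⟨D, hD⟩ : ∃ D : ℝ, D = 4 * K / η + μ + 112 * K ^ 2 * μ / η + 1 := ⟨_, rfl⟩
  have hD1 : 1 ≤ D := by
    have : 0 ≤ 4 * K / η + μ + 112 * K ^ 2 * μ / η := by positivity
    rw [hD]; linarith only [this]
  obtain ⟨v1, hv1⟩ : ∃ v1 : ℝ, v1 = 8 * K := ⟨_, rfl⟩
  obtain ⟨v2, hv2⟩ : ∃ v2 : ℝ, v2 = 4 * L * q / c1 := ⟨_, rfl⟩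
  obtain ⟨v3, hv3⟩ : ∃ v3 : ℝ, v3 = 16 * K * q ^ 3 / c1 := ⟨_, rfl⟩
  obtain ⟨v4, hv4⟩ : ∃ v4 : ℝ, v4 = (4 * K + 16 * L) * q ^ 3 / (d1 ^ 2 * c1) := ⟨_, rfl⟩
  obtain ⟨v5, hv5⟩ : ∃ v5 : ℝ, v5 = 32 * K * q ^ 3 := ⟨_, rfl⟩
  obtain ⟨v6, hv6⟩ : ∃ v6 : ℝ, v6 = 384 * K * q ^ 3 * μ * C / c1 := ⟨_, rfl⟩
  obtain ⟨v7, hv7⟩ : ∃ v7 : ℝ, v7 = B * D ^ 28 := ⟨_, rfl⟩
  have p1 : 0 ≤ v1 := by rw [hv1]; positivity
  have p2 : 0 ≤ v2 := by rw [hv2]; positivity
  have p3 : 0 ≤ v3 := by rw [hv3]; positivity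
  have p4 : 0 ≤ v4 := by rw [hv4]; positivity
  have p5 : 0 ≤ v5 := by rw [hv5]; positivity
  have p6 : 0 ≤ v6 := by rw [hv6]; positivity
  have p7 : 0 ≤ v7 := by rw [hv7]; positivity
  obtain ⟨V, hV⟩ : ∃ V : ℝ, V = 1 + v1 + v2 + v3 + v4 + v5 + v6 + v7 := ⟨_, rfl⟩
  have hV1 : 1 ≤ V := by linarith only [hK, hη0, hη8, hv1, p2, p3, p4, p5, p6, p7, hV]
  refine ⟨V, hV1, ?_⟩
  have main : ∀ n : ℕ, ∀ i ∈ P, ∀ l ∈ P, l ≠ i → ⌊|l.1 - i.1|⌋₊ = n →
      |sl i l - gr nb i| ≤ V * (max (rho nb i) (rho nb l)) ^ 100 * √|l.1 - i.1| := by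
    intro n
    induction n using Nat.strong_induction_on with
    | _ n ih =>
    intro i hi l hl hne hfl
    by_contra hcon
    push Not at hcon
    obtain ⟨G, hG⟩ : ∃ G : ℝ, G = max (rho nb i) (rho nb l) := ⟨_, rfl⟩
    rw [← hG] at hcon
    obtain ⟨T, hT⟩ : ∃ T : ℝ, T = |l.1 - i.1| := ⟨_, rfl⟩
    rw [← hT] at hcon
    obtain ⟨H, hH⟩ : ∃ H : ℝ, |sl i l - gr nb i| = H := ⟨_, rfl⟩
    rw [hH] at hcon
    have hri : rho nb i ≤ G := by rw [hG]; exact le_max_left _ _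
    have hrl : rho nb l ≤ G := by rw [hG]; exact le_max_right _ _
    have hG1 : 1 ≤ G := (rho_ge_one hP hnb hi).trans hri
    have hG0 : 0 < G := by linarith only [hη0, hη8, hG1]
    have hT1 : 1 ≤ T := by rw [hT]; exact hP.sep i hi l hl (fun h => hne h.symm)
    have hT0 : 0 < T := by linarith only [hη0, hη8, hT1]
    have hsT1 : 1 ≤ √T := by rw [← Real.sqrt_one]; exact Real.sqrt_le_sqrt hT1
    have hsT0 : 0 < √T := by linarith only [hη0, hη8, hsT1]
    have hGp : ∀ a b : ℕ, a ≤ b → G ^ a ≤ G ^ b := fun a b h => pow_le_pow_right₀ hG1 h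
    -- T is large
    have hTD : D * G ^ 3 ≤ T := by
      by_contra hlt
      push Not at hlt
      have b1 := hB i hi l hl hne
      rw [hH, ← hT] at b1
      have b2 : T ^ 28 ≤ (D * G ^ 3) ^ 28 := pow_le_pow_left₀ hT0.le hlt.le 28
      have b3 : (D * G ^ 3) ^ 28 = D ^ 28 * G ^ 84 := by ring
      have b4 : G ^ 84 ≤ G ^ 100 := hGp 84 100 (by norm_num)
      have b5 : B * T ^ 28 ≤ B * (D ^ 28 * G ^ 100) := by
        apply mul_le_mul_of_nonneg_left _ (by linarith only [hB1, hη0, hη8])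
        rw [b3] at b2
        exact b2.trans (mul_le_mul_of_nonneg_left b4 (by positivity))
      have b6 : v7 * G ^ 100 ≤ V * G ^ 100 :=
        mul_le_mul_of_nonneg_right (by linarith only [hK, hη0, hη8, hv1, p2, p3, p4, p5, p6, hV]) (by positivity)
      have b7 : V * G ^ 100 * 1 ≤ V * G ^ 100 * √T :=
        mul_le_mul_of_nonneg_left hsT1 (by positivity)
      have b8 : B * (D ^ 28 * G ^ 100) = v7 * G ^ 100 := by rw [hv7]; ring
      linarith only [hcon, b1, b5, b6, b7, b8]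
    have hDG : ∀ x : ℝ, 0 ≤ x → x ≤ D → ∀ k : ℕ, k ≤ 3 → x * G ^ k ≤ T := by
      intro x hx0 hx k hk
      refine le_trans ?_ hTD
      exact mul_le_mul hx (hGp k 3 hk) (by positivity) (by linarith only [hη0, hη8, hD1])
    have hD4 : 4 * K / η ≤ D := by
      have : 0 ≤ μ + 112 * K ^ 2 * μ / η + 1 := by positivity
      rw [hD]; linarith only [this]
    have hDμ : μ ≤ D := by
      have : 0 ≤ 4 * K / η + 112 * K ^ 2 * μ / η + 1 := by positivity
      rw [hD]; linarith only [this]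
    have hD112 : 112 * K ^ 2 * μ / η ≤ D := by
      have : 0 ≤ 4 * K / η + μ + 1 := by positivity
      rw [hD]; linarith only [this]
    -- V' inequality
    have hbig : ∀ v : ℝ, 0 ≤ v → v ≤ V - 1 → ∀ k : ℕ, k ≤ 100 → v * G ^ k * √T < H := by
      intro v hv0 hv k hk
      have a1 : v * G ^ k ≤ (V - 1) * G ^ 100 := mul_le_mul hv (hGp k 100 hk) (by positivity)
        (by linarith only [hK, hη0, hη8, hv1, p2, p3, p4, p5, p6, p7, hV])
      have a2 : v * G ^ k * √T ≤ (V - 1) * G ^ 100 * √T :=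
        mul_le_mul_of_nonneg_right a1 hsT0.le
      have a3 : (V - 1) * G ^ 100 * √T ≤ V * G ^ 100 * √T := by
        apply mul_le_mul_of_nonneg_right _ hsT0.le
        apply mul_le_mul_of_nonneg_right (by linarith only [hη0, hη8]) (by positivity)
      linarith only [hcon, a2, a3]
    have hH0 : 0 < H := by
      have := hbig 0 le_rfl (by linarith only [hK, hη0, hη8, hv1, p2, p3, p4, p5, p6, p7, hV]) 0 (by norm_num)
      simpa using this
    -- abbreviations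
    have hsQ : √((q * G) ^ 2) = q * G := Real.sqrt_sq (by positivity)
    have hsS : √(4 * (q * G) ^ 2 * T) = 2 * q * G * √T := by
      have : 4 * (q * G) ^ 2 * T = (2 * q * G) ^ 2 * T := by ring
      rw [this, Real.sqrt_mul (by positivity), Real.sqrt_sq (by positivity)]
    have hsδ : √((d1 / G ^ 2) ^ 2 * T) = d1 / G ^ 2 * √T := by
      rw [Real.sqrt_mul (by positivity), Real.sqrt_sq (by positivity)]
    have hsηT : √(η * T) = 1 / (48 * E) * √T := by
      rw [Real.sqrt_mul hη0.le, hsη]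
    have hs2ηT : √(2 * (η * T)) ≤ 1 / (24 * E) * √T := by
      have h1 : √(2 * (η * T)) ≤ √(4 * (η * T)) := by
        apply Real.sqrt_le_sqrt
        have : 0 < η * T := by positivity
        linarith only [this]
      have h2 : √(4 * (η * T)) = 2 * √(η * T) := by
        rw [Real.sqrt_mul (by norm_num), show (4 : ℝ) = 2 ^ 2 by norm_num,
          Real.sqrt_sq (by norm_num)]
      rw [h2, hsηT] at h1
      refine h1.trans (le_of_eq ?_)
      field_simp
      ring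
    refine W_core hP hK hnb hi hl hne (T := T) (H := H) (G := G) (V := V) (η := η) (μ := μ)
      (c := c1 / G ^ 2) (Q := (q * G) ^ 2) (Λ := L * G ^ 2) (w := 2 * K * q ^ 3 * G ^ 3 * √T)
      (δ := (d1 / G ^ 2) ^ 2) (r := r) hT hH hG1 hri hrl hV1 ?_ hcon hη0 hη8 ?_ ?_ ?_ hμ8 ?_ ?_
      (by positivity) ?_ ?_ ?_ ?_ ?_ ?_ ?_ ?_ (by positivity) ?_ ?_ ?_ hr1 hr200 ?_ ?_
    · -- IH
      intro u hu v hv huv hd
      apply ih ⌊|v.1 - u.1|⌋₊ _ u hu v hv huv rfl
      rw [← hfl, ← hT]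
      have hT2 : 2 ≤ T := by
        have := hDG μ hμ0.le hDμ 0 (by norm_num)
        have h8 : 8 * K ≤ μ := hμ8
        rw [pow_zero, mul_one] at this
        linarith only [hK, hη0, hη8, hμ100, hKK, this]
      have h1 : |v.1 - u.1| + 1 ≤ T := by linarith only [hd, hT2]
      have h2 := Nat.floor_le_floor h1
      rw [Nat.floor_add_one (abs_nonneg _)] at h2
      omega
    · -- 4KG ≤ ηT
      have := hDG (4 * K / η) (by positivity) hD4 1 (by norm_num)
      rw [pow_one] at this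
      have e : 4 * K / η * G = (4 * K * G) / η := by ring
      rw [e, div_le_iff₀ hη0] at this
      linarith only [this]
    · -- hdev
      have h1 := hbig v1 p1 (by linarith only [p2, p3, p4, p5, p6, p7, hV]) 0 (by norm_num)
      rw [pow_zero, mul_one, hv1] at h1
      have h3 : η * T ≤ T := by
        have := mul_le_mul_of_nonneg_right hη8 hT0.le
        linarith only [hη0, hη8, hT1, this]
      have h2 : √(η * T) ≤ √T := Real.sqrt_le_sqrt h3
      calc K * (η * T * √(η * T)) ≤ K * (T * √T) := by gcongr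
        _ = (8 * K * √T) * T / 8 := by ring
        _ ≤ H * T / 8 := by
          apply div_le_div_of_nonneg_right _ (by norm_num)
          exact mul_le_mul_of_nonneg_right h1.le hT0.le
    · -- hsm
      have e1 : (8 * K * G) ^ 100 = E * G ^ 100 := by rw [hE]; ring
      rw [e1]
      calc V * (E * G ^ 100) * √(2 * (η * T)) ≤ V * (E * G ^ 100) * (1 / (24 * E) * √T) := by
            apply mul_le_mul_of_nonneg_left hs2ηT (by positivity)
        _ = (V * G ^ 100 * √T) / 24 := by field_simp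
        _ ≤ H / 24 := by
            apply div_le_div_of_nonneg_right hcon.le (by norm_num)
    · rw [hμη]
    · have := hDG μ hμ0.le hDμ 1 (by norm_num)
      rwa [pow_one] at this
    · -- c ≤ 1
      rw [div_le_one (by positivity)]
      exact hc11.trans (one_le_pow₀ hG1)
    · -- hcA
      have h1 := hDG (112 * K ^ 2 * μ / η) (by positivity) hD112 2 (by norm_num)
      have e0 : 112 * K ^ 2 * μ / η * G ^ 2 = (112 * K ^ 2 * μ * G ^ 2) / η := by ring
      rw [e0, div_le_iff₀ hη0] at h1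
      have e1 : 7 * K * (μ * G) * (8 * (c1 / G ^ 2) * T) = 56 / 1000 * (η * T / (K * G)) := by
        rw [hc1]; field_simp; ring
      have e2 : 7 * K * (μ * G) ≤ 1 / 16 * (η * T / (K * G)) := by
        have : 1 / 16 * (η * T / (K * G)) = (η * T) / (16 * K * G) := by field_simp
        rw [this, le_div_iff₀ (by positivity)]
        linarith only [h1]
      have e3 : η * T / (2 * K * G) / 4 = 1 / 8 * (η * T / (K * G)) := by field_simp; ring
      have e4 : 7 * K * (μ * G) * (8 * (c1 / G ^ 2) * T + 1) =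
          7 * K * (μ * G) * (8 * (c1 / G ^ 2) * T) + 7 * K * (μ * G) := by ring
      have e5 : 0 ≤ η * T / (K * G) := by positivity
      rw [e3, e4, e1]
      linarith only [e2, e5]
    · -- hQ1
      have h1 : 1 ≤ q * G := one_le_mul_of_one_le_of_one_le hq1 hG1
      calc 28 * K ^ 2 * (μ * G) = q * G := by rw [hq]; ring
        _ ≤ (q * G) ^ 2 := le_self_pow₀ h1 (by norm_num)
    · -- hS2
      have h1 : K ^ 2 * (μ * G) ^ 2 * 1 ≤ K ^ 2 * (μ * G) ^ 2 * (K ^ 2 * T) := by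
        apply mul_le_mul_of_nonneg_left _ (by positivity)
        have := mul_le_mul (one_le_pow₀ hK (n := 2)) hT1 zero_le_one (by positivity)
        simpa using this
      have e : 4 * (q * G) ^ 2 * T = 3136 * (K ^ 2 * (μ * G) ^ 2 * (K ^ 2 * T)) := by
        rw [hq]; ring
      rw [e]
      have : 0 ≤ K ^ 2 * (μ * G) ^ 2 * (K ^ 2 * T) := by positivity
      linarith only [h1, this]
    · -- hΛ
      have : 1 ≤ G ^ 2 := one_le_pow₀ hG1
      have e : L * G ^ 2 = 2 * K * G ^ 2 + 1200 * K ^ 3 * (μ * G) ^ 2 := by rw [hL]; ring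
      rw [e]
      have e2 := mul_le_mul_of_nonneg_left this (show 0 ≤ 2 * K by linarith only [hK, hη0, hη8])
      linarith only [e2]
    · -- hΛc
      have h1 := hbig v2 p2 (by linarith only [hK, hη0, hη8, hv1, p3, p4, p5, p6, p7, hV]) 5 (by norm_num)
      rw [hsS]
      have e1 : v2 * G ^ 5 * √T = (4 * L * q * G ^ 5 * √T) / c1 := by rw [hv2]; ring
      rw [e1, div_lt_iff₀ hc10] at h1
      have e2 : c1 / G ^ 2 / 2 * H = (H * c1) / (2 * G ^ 2) := by field_simp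
      rw [e2, le_div_iff₀ (by positivity)]
      calc L * G ^ 2 * (2 * q * G * √T) * (2 * G ^ 2) = 4 * L * q * G ^ 5 * √T := by ring
        _ ≤ H * c1 := h1.le
    · -- hw
      rw [hsQ]; ring
    · -- hwc
      have h1 := hbig v3 p3 (by linarith only [hK, hη0, hη8, hv1, p2, p4, p5, p6, p7, hV]) 5 (by norm_num)
      have e1 : v3 * G ^ 5 * √T = (16 * K * q ^ 3 * G ^ 5 * √T) / c1 := by rw [hv3]; ring
      rw [e1, div_lt_iff₀ hc10] at h1
      have e2 : c1 / G ^ 2 * H = (H * c1) / G ^ 2 := by ring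
      rw [e2, lt_div_iff₀ (by positivity)]
      calc 8 * (2 * K * q ^ 3 * G ^ 3 * √T) * G ^ 2 = 16 * K * q ^ 3 * G ^ 5 * √T := by ring
        _ < H * c1 := h1
    · -- δ ≤ 1/2
      have h1 : d1 / G ^ 2 ≤ 1 / 4 := by
        have : d1 / G ^ 2 ≤ d1 := div_le_self hd10.le (one_le_pow₀ hG1)
        linarith only [hd14, this]
      have h2 : (d1 / G ^ 2) ^ 2 ≤ (1 / 4) ^ 2 := pow_le_pow_left₀ (by positivity) h1 2
      linarith only [hη0, hη8, h2]
    · -- hδS
      have h1 := hbig v4 p4 (by linarith only [hK, hη0, hη8, hv1, p2, p3, p5, p6, p7, hV]) 11 (by norm_num)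
      have e1 : v4 * G ^ 11 * √T = ((4 * K + 16 * L) * q ^ 3 * G ^ 11 * √T) / (d1 ^ 2 * c1) := by
        rw [hv4]; ring
      rw [e1, div_lt_iff₀ (by positivity)] at h1
      rw [hsS]
      have e2 : (d1 / G ^ 2) ^ 2 * T * (c1 / G ^ 2 * H) = (H * (d1 ^ 2 * c1)) * T / G ^ 6 := by
        field_simp
      rw [e2, le_div_iff₀ (by positivity)]
      have e3 : 2 * (2 * K * q ^ 3 * G ^ 3 * √T + L * G ^ 2 * (4 * (q * G) ^ 2 * T *
          (2 * q * G * √T))) * G ^ 6 =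
          4 * K * q ^ 3 * √T * G ^ 9 + 16 * L * q ^ 3 * G ^ 11 * √T * T := by ring
      rw [e3]
      have e4 : 4 * K * q ^ 3 * √T * G ^ 9 ≤ 4 * K * q ^ 3 * √T * (G ^ 11 * T) := by
        apply mul_le_mul_of_nonneg_left _ (by positivity)
        have := mul_le_mul (hGp 9 11 (by norm_num)) hT1 zero_le_one (by positivity)
        simpa using this
      have e5 : (4 * K + 16 * L) * q ^ 3 * G ^ 11 * √T * T ≤ H * (d1 ^ 2 * c1) * T :=
        mul_le_mul_of_nonneg_right h1.le hT0.le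
      calc 4 * K * q ^ 3 * √T * G ^ 9 + 16 * L * q ^ 3 * G ^ 11 * √T * T
          ≤ 4 * K * q ^ 3 * √T * (G ^ 11 * T) + 16 * L * q ^ 3 * G ^ 11 * √T * T := by linarith only [e4]
        _ = (4 * K + 16 * L) * q ^ 3 * G ^ 11 * √T * T := by ring
        _ ≤ _ := e5
    · -- hδIH
      rw [hsδ]
      have e1 : V * (μ * G) ^ 100 * (d1 / G ^ 2 * √T) = c1 / G ^ 2 / 4 * (V * G ^ 100 * √T) := by
        rw [hd1, mul_pow]
        field_simp
      rw [e1]
      exact mul_le_mul_of_nonneg_left hcon.le (by positivity)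
    · -- hκ1
      have h1 := hbig v5 p5 (by linarith only [hK, hη0, hη8, hv1, p2, p3, p4, p6, p7, hV]) 3 (by norm_num)
      rw [hv5] at h1
      calc 16 * (2 * K * q ^ 3 * G ^ 3 * √T) = 32 * K * q ^ 3 * G ^ 3 * √T := by ring
        _ ≤ H := h1.le
    · -- hκ2
      have h1 := hbig v6 p6 (by linarith only [hK, hη0, hη8, hv1, p2, p3, p4, p5, p7, hV]) 5 (by norm_num)
      have e1 : v6 * G ^ 5 * √T = (384 * K * q ^ 3 * μ * C * G ^ 5 * √T) / c1 := by
        rw [hv6]; ring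
      rw [e1, div_lt_iff₀ hc10] at h1
      rw [← hC]
      have e2 : 8 * (2 * K * q ^ 3 * G ^ 3 * √T) / H * (24 * μ * C) =
          (384 * K * q ^ 3 * μ * C * G ^ 3 * √T) / H := by ring
      rw [e2, div_le_div_iff₀ hH0 (by positivity)]
      calc 384 * K * q ^ 3 * μ * C * G ^ 3 * √T * G ^ 2
          = 384 * K * q ^ 3 * μ * C * G ^ 5 * √T := by ring
        _ ≤ H * c1 := h1.le
        _ = c1 * H := by ring
  exact fun i hi l hl hne => main _ i hi l hl hne rfl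

end FT
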