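import Pool.Agent.Work.MP_07b414_co.ASet

set_option autoImplicit false

namespace FT

variable {K : ℝ} {P : Set (ℝ × ℝ)} {nb : ℝ × ℝ → ℝ × ℝ}

/-- the induction step of the sharp bound -/
theorem W_core (hP : Conf K P) (hK : 1 ≤ K) (hnb : NN P nb) {i l : ℝ × ℝ} (hi : i ∈ P)
    (hl : l ∈ P) (hne : l ≠ i) {T H G V η μ c Q Λ w δ r : ℝ}
    (hT : T = |l.1 - i.1|) (hH : |sl i l - gr nb i| = H)
    (hG : 1 ≤ G) (hri : rho nb i ≤ G) (hrl : rho nb l ≤ G) (hV : 1 ≤ V)
    (IH : ∀ u ∈ P, ∀ v ∈ P, v ≠ u → |v.1 - u.1| ≤ T / 2 →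
      |sl u v - gr nb u| ≤ V * (max (rho nb u) (rho nb v)) ^ 100 * √|v.1 - u.1|)
    (hHV : V * G ^ 100 * √T < H)
    (hη0 : 0 < η) (hη1 : η ≤ 1 / 8) (hηT : 4 * K * G ≤ η * T)
    (hdev : K * ((η * T) * √(η * T)) ≤ H * T / 8)
    (hsm : V * (8 * K * G) ^ 100 * √(2 * (η * T)) ≤ H / 24)
    (hμ : 8 * K ≤ μ) (hμη : 100 * K ^ 2 ≤ μ * η) (hTμ : μ * G ≤ T)
    (hc0 : 0 < c) (hc1 : c ≤ 1)
    (hcA : 7 * K * (μ * G) * (8 * c * T + 1) ≤ (η * T / (2 * K * G)) / 4)
    (hQ1 : 28 * K ^ 2 * (μ * G) ≤ Q)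
    (hS2 : 196 * K ^ 2 * (μ * G) ^ 2 ≤ 4 * Q * T)
    (hΛ : 2 * K + 1200 * K ^ 3 * (μ * G) ^ 2 ≤ Λ)
    (hΛc : Λ * √(4 * Q * T) ≤ c / 2 * H)
    (hw : w = 2 * K * (Q * √Q) * √T) (hwc : 8 * w < c * H)
    (hδ : 0 < δ) (hδ2 : δ ≤ 1 / 2)
    (hδS : 2 * (w + Λ * (4 * Q * T * √(4 * Q * T))) ≤ δ * T * (c * H))
    (hδIH : V * (μ * G) ^ 100 * √(δ * T) ≤ c / 4 * H)
    (hr : 1 < r) (hr200 : r ^ 200 = 2) (hκ1 : 16 * w ≤ H)
    (hκ2 : 8 * w / H * (24 * μ * (1 / (1 - 1 / r))) ≤ c) : False := by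
  classical
  have hT1 : 1 ≤ T := by rw [hT]; exact hP.sep i hi l hl (fun h => hne h.symm)
  have hT0 : 0 < T := by linarith only [hη0, hη1, hT1]
  have hsT : 0 < √T := Real.sqrt_pos.mpr hT0
  have hH0 : 0 < H := lt_of_le_of_lt (by positivity) hHV
  have hμ0 : 0 < μ := by linarith only [hK, hη0, hη1, hμ]
  have hμG : 1 ≤ μ * G := one_le_mul_of_one_le_of_one_le (by linarith only [hK, hη0, hη1, hμ]) hG
  have hQ28 : 28 ≤ Q := by
    have : 1 ≤ K ^ 2 * (μ * G) := by
      have := mul_le_mul (one_le_pow₀ hK (n := 2)) hμG zero_le_one (by positivity)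
      simpa using this
    linarith only [hQ1, this]
  have hQK : 2 * K ≤ Q := by
    have : K ≤ K ^ 2 * (μ * G) := by
      have h1 : K * 1 ≤ K * (K * (μ * G)) :=
        mul_le_mul_of_nonneg_left (one_le_mul_of_one_le_of_one_le hK hμG) (by linarith only [hK, hη0, hη1])
      calc K = K * 1 := by ring
        _ ≤ K * (K * (μ * G)) := h1
        _ = K ^ 2 * (μ * G) := by ring
    linarith only [hη0, hη1, hQ1, hQ28, this]
  have hQ0 : 0 < Q := by linarith only [hη0, hη1, hQ28]
  have hw0 : 0 ≤ w := by rw [hw]; positivity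
  have hΛ0 : 0 < Λ := lt_of_lt_of_le (by positivity) hΛ
  have hrho0 : ∀ u ∈ P, 0 ≤ rho nb u := fun u hu => le_trans zero_le_one (rho_ge_one hP hnb hu)
  -- the set A
  obtain ⟨A, hA, hAc⟩ := aset hP hK hnb hi hG hri hηT
  have hηT0 : 0 < η * T := by positivity
  have hslopes := fun (p : ℝ × ℝ) (hp : p ∈ A) (p' : ℝ × ℝ) (hp' : p' ∈ A) =>
    aset_slopes hP hK hi hl hne hT hH hH0 hG (le_trans zero_le_one hV) hri hrho0 hηT0
      (by have := mul_le_mul_of_nonneg_right hη1 hT0.le; linarith only [this]) hdev hsm IH (hA p hp)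
      (hA p' hp')
  have hdist : ∀ p ∈ A, T / 2 ≤ |l.1 - p.1| ∧ |l.1 - p.1| ≤ 2 * T :=
    fun p hp => (hslopes p hp p hp).1
  have hspace : ∀ p ∈ A, ∀ p' ∈ A, H / (4 * T) * |p'.1 - p.1| ≤ |sl p l - sl p' l| :=
    fun p hp p' hp' => (hslopes p hp p' hp').2.2
  have hpl : ∀ p ∈ A, l ≠ p := by
    intro p hp h
    have := (hdist p hp).1
    rw [h, sub_self, abs_zero] at this
    linarith only [hη0, hη1, hT1, this]
  -- classes
  obtain ⟨F, hFc, hF⟩ := classes hP hK hnb (x0 := l.1) (S := 4 * Q * T) (M := μ * G) (Λ := Λ)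
    hμG (by
      have h1 : K * (μ * G) * 1 ≤ K * (μ * G) * K :=
        mul_le_mul_of_nonneg_left hK (by positivity)
      have h2 : Q * 1 ≤ Q * T := mul_le_mul_of_nonneg_left hT1 hQ0.le
      have h3 : K * (μ * G) * K = K ^ 2 * (μ * G) := by ring
      have h4 : 0 ≤ K ^ 2 * (μ * G) := by positivity
      linarith only [hη0, hη1, hQ1, hQ28, h1, h2]) hS2 hΛ
  set S := 4 * Q * T with hSdef
  have hS0 : 0 < S := by rw [hSdef]; positivity
  have hclass : ∀ u ∈ P, |u.1 - l.1| ≤ Q * T → rho nb u ≤ μ * G → ∃ d ∈ F,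
      |gr nb u - gr nb d| ≤ Λ * √S ∧
      |tl nb u u.1 - tl nb d u.1| ≤ Λ * (S * √S) := by
    intro u hu hux hur
    obtain ⟨d, hd, hclose⟩ := hF u hu (by rw [hSdef]; linarith only [abs_nonneg (u.1 - l.1), hS0, hux]) hur
    refine ⟨d, hd, ?_, hclose u.1 (by rw [hSdef]; linarith only [abs_nonneg (u.1 - l.1), hS0, hux])⟩
    have h1 := hclose (l.1 + 3 * S / 2) (by rw [add_sub_cancel_left, abs_of_pos (by positivity)])
    have h2 := hclose (l.1 - 3 * S / 2) (by
      rw [show l.1 - 3 * S / 2 - l.1 = -(3 * S / 2) by ring, abs_neg, abs_of_pos (by positivity)])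
    have h3 := tl_sub nb u d (l.1 + 3 * S / 2) (l.1 - 3 * S / 2)
    have h4 : |gr nb u - gr nb d| * (3 * S) ≤ 2 * (Λ * (S * √S)) := by
      have e : l.1 + 3 * S / 2 - (l.1 - 3 * S / 2) = 3 * S := by ring
      rw [e] at h3
      have e2 : |gr nb u - gr nb d| * (3 * S) = |(gr nb u - gr nb d) * (3 * S)| := by
        rw [abs_mul, abs_of_pos (show (0 : ℝ) < 3 * S by positivity)]
      rw [e2, ← h3]
      have := abs_sub (tl nb u (l.1 + 3 * S / 2) - tl nb d (l.1 + 3 * S / 2))
        (tl nb u (l.1 - 3 * S / 2) - tl nb d (l.1 - 3 * S / 2))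
      linarith only [h1, h2, this]
    have h5 : 0 < Λ * √S := by positivity
    have h6 : |gr nb u - gr nb d| * (3 * S) ≤ Λ * √S * (3 * S) := by
      have h7 : 0 ≤ Λ * √S * S := by positivity
      linarith only [h4, h7]
    exact le_of_mul_le_mul_right h6 (by positivity)
  -- the good p
  set A' := A.filter (fun p => ∀ d ∈ F, c * H ≤ |sl p l - gr nb d|) with hA'
  have hbad : ((A.filter (fun p => ¬ (∀ d ∈ F, c * H ≤ |sl p l - gr nb d|))).card : ℝ) ≤
      F.card * (8 * c * T / 1 + 1) := by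
    have hsub : A.filter (fun p => ¬ (∀ d ∈ F, c * H ≤ |sl p l - gr nb d|)) ⊆
        F.biUnion (fun d => A.filter (fun p => |sl p l - gr nb d| < c * H)) := by
      intro p hp
      rw [Finset.mem_filter] at hp
      obtain ⟨hp1, hp2⟩ := hp
      push Not at hp2
      obtain ⟨d, hd, hd2⟩ := hp2
      rw [Finset.mem_biUnion]
      exact ⟨d, hd, Finset.mem_filter.mpr ⟨hp1, hd2⟩⟩
    have c1 := Finset.card_le_card hsub
    have c2 := Finset.card_biUnion_le (s := F)
      (t := fun d => A.filter (fun p => |sl p l - gr nb d| < c * H))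
    have c3 : ((A.filter (fun p => ¬ (∀ d ∈ F, c * H ≤ |sl p l - gr nb d|))).card : ℝ) ≤
        ∑ d ∈ F, ((A.filter (fun p => |sl p l - gr nb d| < c * H)).card : ℝ) := by
      exact_mod_cast c1.trans c2
    refine c3.trans ?_
    have c4 : ∑ d ∈ F, ((A.filter (fun p => |sl p l - gr nb d| < c * H)).card : ℝ) ≤
        ∑ _d ∈ F, (8 * c * T / 1 + 1) := by
      apply Finset.sum_le_sum
      intro d hd
      apply card_sep one_pos (by positivity)
      · intro p hp p' hp' hpp
        rw [Finset.mem_filter] at hp hp'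
        exact hP.sep p (hA p hp.1).1 p' (hA p' hp'.1).1 hpp
      · intro p hp p' hp'
        rw [Finset.mem_filter] at hp hp'
        have e1 := hspace p hp.1 p' hp'.1
        have e2 : |sl p l - sl p' l| ≤ 2 * (c * H) := by
          have e3 := hp.2
          have e4 := hp'.2
          rw [abs_lt] at e3 e4
          rw [abs_le]
          constructor <;> linarith
        have e5 : H / (4 * T) * |p'.1 - p.1| ≤ 2 * (c * H) := e1.trans e2
        have e6 : H * |p'.1 - p.1| ≤ H * (8 * c * T) := by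
          have : H / (4 * T) * |p'.1 - p.1| = H * |p'.1 - p.1| / (4 * T) := by ring
          rw [this, div_le_iff₀ (by positivity)] at e5
          linarith only [e5]
        exact le_of_mul_le_mul_left e6 hH0
    rw [Finset.sum_const, nsmul_eq_mul] at c4
    exact c4
  have hA'c : 3 / 4 * (η * T / (2 * K * G)) ≤ (A'.card : ℝ) := by
    have h2 := Finset.card_filter_add_card_filter_not (s := A)
      (fun p => ∀ d ∈ F, c * H ≤ |sl p l - gr nb d|)
    have h3 : (A'.card : ℝ) +
        ((A.filter (fun p => ¬ (∀ d ∈ F, c * H ≤ |sl p l - gr nb d|))).card : ℝ) = A.card := by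
      exact_mod_cast h2
    have h4 : (F.card : ℝ) * (8 * c * T / 1 + 1) ≤ 7 * K * (μ * G) * (8 * c * T + 1) := by
      rw [div_one]
      exact mul_le_mul_of_nonneg_right hFc (by positivity)
    linarith only [hcA, hAc, hbad, h3, h4]
  -- rows through l and p
  have hrow : ∀ p : ℝ × ℝ, ∃ E : Finset (ℝ × ℝ), p ∈ A →
      ((∀ u ∈ E, u ∈ P ∧ |u.1 - l.1| ≤ Q * T ∧ |u.2 - l.2 - sl p l * (u.1 - l.1)| ≤ w) ∧
        Q / (2 * K) ≤ (E.card : ℝ)) := by
    intro p
    by_cases hp : p ∈ A
    · obtain ⟨d1, d2⟩ := hdist p hp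
      rw [abs_sub_comm] at d1 d2
      obtain ⟨E, hE, hEc⟩ := hP.row l hl p (hA p hp).1 (hpl p hp) (Q * T) (by
        have e1 := mul_le_mul_of_nonneg_left d2 (show 0 ≤ K by linarith only [hK, hη0, hη1])
        have e2 := mul_le_mul_of_nonneg_right hQK hT0.le
        linarith only [e1, e2])
      refine ⟨E, fun _ => ⟨fun u hu => ?_, le_trans ?_ hEc⟩⟩
      · obtain ⟨x1, x2, x3⟩ := hE u hu
        refine ⟨x1, x2, ?_⟩
        rw [sl_comm l p] at x3
        refine x3.trans ?_
        rw [hw, Real.sqrt_mul hQ0.le, div_le_iff₀ (by linarith only [hη0, hη1, hT1, d1])]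
        have : 2 * K * (Q * √Q) * √T * (T / 2) ≤ 2 * K * (Q * √Q) * √T * |p.1 - l.1| :=
          mul_le_mul_of_nonneg_left d1 (by positivity)
        linarith only [this]
      · rw [div_le_div_iff₀ (by positivity) (by
          have : 0 < |p.1 - l.1| := by linarith only [hη0, hη1, hT1, d1]
          positivity)]
        have : Q * (K * |p.1 - l.1|) ≤ Q * (K * (2 * T)) := by gcongr
        linarith only [this]
    · exact ⟨∅, fun h => absurd h hp⟩
  choose E hE using hrow
  have hA'A : ∀ p ∈ A', p ∈ A := fun p hp => (Finset.mem_filter.mp hp).1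
  have hA'good : ∀ p ∈ A', ∀ d ∈ F, c * H ≤ |sl p l - gr nb d| :=
    fun p hp => (Finset.mem_filter.mp hp).2
  -- transversality
  have htrans : ∀ p ∈ A', ∀ u ∈ P, |u.1 - l.1| ≤ Q * T → rho nb u ≤ μ * G →
      c / 2 * H ≤ |sl p l - gr nb u| := by
    intro p hp u hu hux hur
    obtain ⟨d, hd, hd1, -⟩ := hclass u hu hux hur
    have h1 := hA'good p hp d hd
    have h2 := abs_sub_le (sl p l) (gr nb u) (gr nb d)
    linarith only [hΛc, hd1, h1, h2]
  -- at most one near point of each class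
  have hnearcard : ∀ p ∈ A', (((E p).filter (fun u => rho nb u ≤ μ * G)).card : ℝ) ≤ F.card := by
    intro p hp
    have hEp := (hE p (hA'A p hp)).1
    have hcls : ∀ u : ℝ × ℝ, ∃ d : ℝ × ℝ, u ∈ (E p).filter (fun u => rho nb u ≤ μ * G) →
        (d ∈ F ∧ |gr nb u - gr nb d| ≤ Λ * √S ∧
          |tl nb u u.1 - tl nb d u.1| ≤ Λ * (S * √S)) := by
      intro u
      by_cases hu : u ∈ (E p).filter (fun u => rho nb u ≤ μ * G)
      · have hu' := Finset.mem_filter.mp hu
        obtain ⟨d, hd⟩ := hclass u (hEp u hu'.1).1 (hEp u hu'.1).2.1 hu'.2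
        exact ⟨d, fun _ => hd⟩
      · exact ⟨u, fun h => absurd h hu⟩
    choose cl hcl using hcls
    have : ((E p).filter (fun u => rho nb u ≤ μ * G)).card ≤ F.card := by
      apply Finset.card_le_card_of_injOn cl
      · intro u hu
        exact (hcl u hu).1
      · intro u hu v hv huv
        by_contra hne'
        obtain ⟨hd, hd1, hd2⟩ := hcl u hu
        obtain ⟨hd', hd1', hd2'⟩ := hcl v hv
        rw [← huv] at hd1' hd2'
        have hu' := Finset.mem_filter.mp (Finset.mem_coe.mp hu)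
        have hv' := Finset.mem_filter.mp (Finset.mem_coe.mp hv)
        obtain ⟨u1, u2, u3⟩ := hEp u hu'.1
        obtain ⟨v1, v2, v3⟩ := hEp v hv'.1
        have hs := hP.sep u u1 v v1 hne'
        have hs0 := sub_ne_of_one_le hs
        -- slope of uv is close to sl p l
        have k1 : |sl u v - sl p l| ≤ 2 * w := by
          have e := sl_mul hs0
          have e2 : (sl u v - sl p l) * (v.1 - u.1) =
              (v.2 - l.2 - sl p l * (v.1 - l.1)) - (u.2 - l.2 - sl p l * (u.1 - l.1)) := by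
            linear_combination e
          have h4 : |(sl u v - sl p l) * (v.1 - u.1)| ≤ 2 * w := by
            rw [e2]
            have := abs_sub (v.2 - l.2 - sl p l * (v.1 - l.1)) (u.2 - l.2 - sl p l * (u.1 - l.1))
            linarith only [u3, v3, this]
          rw [abs_mul] at h4
          have : |sl u v - sl p l| * 1 ≤ |sl u v - sl p l| * |v.1 - u.1| :=
            mul_le_mul_of_nonneg_left hs (abs_nonneg _)
          linarith only [h4, this]
        -- distance of u and v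
        have k2 : |v.1 - u.1| ≤ δ * T := by
          have e1 : (sl p l - gr nb (cl u)) * (v.1 - u.1) =
              ((tl nb v v.1 - tl nb (cl u) v.1) - (v.2 - l.2 - sl p l * (v.1 - l.1)))
              - ((tl nb u u.1 - tl nb (cl u) u.1) - (u.2 - l.2 - sl p l * (u.1 - l.1))) := by
            unfold tl
            ring
          have e2 : |(sl p l - gr nb (cl u)) * (v.1 - u.1)| ≤ 2 * (w + Λ * (S * √S)) := by
            rw [e1]
            have t1 := abs_sub ((tl nb v v.1 - tl nb (cl u) v.1)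
              - (v.2 - l.2 - sl p l * (v.1 - l.1)))
              ((tl nb u u.1 - tl nb (cl u) u.1) - (u.2 - l.2 - sl p l * (u.1 - l.1)))
            have t2 := abs_sub (tl nb v v.1 - tl nb (cl u) v.1)
              (v.2 - l.2 - sl p l * (v.1 - l.1))
            have t3 := abs_sub (tl nb u u.1 - tl nb (cl u) u.1)
              (u.2 - l.2 - sl p l * (u.1 - l.1))
            linarith only [hd2, hd2', u3, v3, t1, t2, t3]
          rw [abs_mul] at e2
          have e3 := hA'good p hp (cl u) hd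
          have e4 : c * H * |v.1 - u.1| ≤ |sl p l - gr nb (cl u)| * |v.1 - u.1| :=
            mul_le_mul_of_nonneg_right e3 (abs_nonneg _)
          have e5 : |v.1 - u.1| * (c * H) ≤ δ * T * (c * H) := by linarith only [hδS, e2, e4]
          exact le_of_mul_le_mul_right e5 (by positivity)
        have k3 : |v.1 - u.1| ≤ T / 2 := by
          have : δ * T ≤ 1 / 2 * T := mul_le_mul_of_nonneg_right hδ2 hT0.le
          linarith only [k2, this]
        have k4 := IH u u1 v v1 (fun h => hne' h.symm) k3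
        have k5 : V * (max (rho nb u) (rho nb v)) ^ 100 * √|v.1 - u.1| ≤ c / 4 * H := by
          refine le_trans ?_ hδIH
          have m1 : max (rho nb u) (rho nb v) ≤ μ * G := max_le hu'.2 hv'.2
          have m0 : 0 ≤ max (rho nb u) (rho nb v) := le_trans (hrho0 u u1) (le_max_left _ _)
          have m2 : (max (rho nb u) (rho nb v)) ^ 100 ≤ (μ * G) ^ 100 := pow_le_pow_left₀ m0 m1 _
          have m3 : √|v.1 - u.1| ≤ √(δ * T) := Real.sqrt_le_sqrt k2
          exact mul_le_mul (mul_le_mul_of_nonneg_left m2 (by positivity)) m3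
            (Real.sqrt_nonneg _) (by positivity)
        have k6 := htrans p hp u u1 u2 hu'.2
        have k7 := abs_sub_le (sl p l) (sl u v) (gr nb u)
        rw [abs_sub_comm (sl p l) (sl u v)] at k7
        linarith only [hwc, k1, k4, k5, k6, k7]
    exact_mod_cast this
  -- lonely points
  set EL : ℝ × ℝ → Finset (ℝ × ℝ) := fun p => (E p).filter (fun u => ¬ (rho nb u ≤ μ * G)) with hEL
  have hELc : ∀ p ∈ A', Q / (4 * K) ≤ ((EL p).card : ℝ) := by
    intro p hp
    have h1 := (hE p (hA'A p hp)).2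
    have h2 := Finset.card_filter_add_card_filter_not (s := E p) (fun u => rho nb u ≤ μ * G)
    have h3 : (((E p).filter (fun u => rho nb u ≤ μ * G)).card : ℝ) + ((EL p).card : ℝ)
        = (E p).card := by exact_mod_cast h2
    have h4 := hnearcard p hp
    have h5 : 7 * K * (μ * G) ≤ Q / (4 * K) := by
      rw [le_div_iff₀ (by positivity)]
      linarith only [hQ1]
    have h6 : Q / (2 * K) = Q / (4 * K) + Q / (4 * K) := by field_simp; ring
    linarith only [hFc, h1, h3, h4, h5, h6]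
  have hELm : ∀ p ∈ A', ∀ u ∈ EL p, u ∈ P ∧ μ * G < rho nb u ∧ |u.1 - l.1| ≤ Q * T ∧
      |u.2 - l.2 - sl p l * (u.1 - l.1)| ≤ w ∧ u ≠ l := by
    intro p hp u hu
    rw [hEL] at hu
    simp only [Finset.mem_filter, not_le] at hu
    obtain ⟨x1, x2, x3⟩ := (hE p (hA'A p hp)).1 u hu.1
    refine ⟨x1, hu.2, x2, x3, fun h => ?_⟩
    rw [h] at hu
    have : G ≤ μ * G := le_mul_of_one_le_left (by linarith only [hG, hη0, hη1]) (by linarith only [hK, hη0, hη1, hμ])
    linarith only [hu.2, hrl, hu, this]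
  set UU := A'.biUnion EL with hUU
  have hUUm : ∀ u ∈ UU, ∃ p ∈ A', u ∈ EL p := by
    intro u hu
    rw [hUU, Finset.mem_biUnion] at hu
    exact hu
  have hUUP : ∀ u ∈ UU, u ∈ P ∧ μ * G < rho nb u ∧ |u.1 - l.1| ≤ Q * T ∧ u ≠ l := by
    intro u hu
    obtain ⟨p, hp, hup⟩ := hUUm u hu
    obtain ⟨x1, x2, x3, x4, x5⟩ := hELm p hp u hup
    exact ⟨x1, x2, x3, x5⟩
  have hUUd : ∀ u ∈ UU, rho nb u ≤ |u.1 - l.1| := fun u hu =>
    rho_le' hnb hl (hUUP u hu).1 (hUUP u hu).2.2.2
  -- slopes seen from l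
  have hslu : ∀ p ∈ A', ∀ u ∈ EL p, |sl l u - sl p l| * |u.1 - l.1| ≤ w := by
    intro p hp u hu
    obtain ⟨x1, x2, x3, x4, x5⟩ := hELm p hp u hu
    have hs := hP.sep l hl u x1 (fun h => x5 h.symm)
    have e := sl_mul (sub_ne_of_one_le hs)
    have e2 : (sl l u - sl p l) * (u.1 - l.1) = u.2 - l.2 - sl p l * (u.1 - l.1) := by
      linear_combination e
    rw [← abs_mul, e2]
    exact x4
  set κ := 8 * w / H with hκ
  have hκ0 : 0 ≤ κ := by rw [hκ]; positivity
  have hκhalf : κ ≤ 1 / 2 := by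
    rw [hκ, div_le_iff₀ hH0]; linarith only [hκ1]
  -- multiplicity of a lonely point
  have hmult : ∀ u ∈ UU, ((A'.filter (fun p => u ∈ EL p)).card : ℝ) ≤ κ * (T / |u.1 - l.1|) + 1 := by
    intro u hu
    have hd := hUUd u hu
    have hdpos : 0 < |u.1 - l.1| := by
      have := (hUUP u hu).2.1
      linarith only [hη0, hη1, hμG, hd, this]
    have := card_sep (F := A'.filter (fun p => u ∈ EL p)) (R := 1) (D := κ * (T / |u.1 - l.1|))
      one_pos (by positivity) ?_ ?_
    · rwa [div_one] at this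
    · intro p hp p' hp' hpp
      rw [Finset.mem_filter] at hp hp'
      exact hP.sep p (hA p (hA'A p hp.1)).1 p' (hA p' (hA'A p' hp'.1)).1 hpp
    · intro p hp p' hp'
      rw [Finset.mem_filter] at hp hp'
      have e1 := hslu p hp.1 u hp.2
      have e2 := hslu p' hp'.1 u hp'.2
      have e3 := hspace p (hA'A p hp.1) p' (hA'A p' hp'.1)
      have e4 : |sl p l - sl p' l| * |u.1 - l.1| ≤ 2 * w := by
        have t1 := abs_sub_le (sl p l) (sl l u) (sl p' l)
        rw [abs_sub_comm (sl p l) (sl l u)] at t1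
        have t2 := mul_le_mul_of_nonneg_right t1 hdpos.le
        linarith only [e1, e2, t2]
      have e5 : H / (4 * T) * |p'.1 - p.1| * |u.1 - l.1| ≤ 2 * w :=
        (mul_le_mul_of_nonneg_right e3 hdpos.le).trans e4
      have e6 : κ * (T / |u.1 - l.1|) = (8 * w * T) / (H * |u.1 - l.1|) := by
        rw [hκ]; field_simp
      rw [e6, le_div_iff₀ (by positivity)]
      have e7 : H / (4 * T) * |p'.1 - p.1| * |u.1 - l.1| =
          (|p'.1 - p.1| * (H * |u.1 - l.1|)) / (4 * T) := by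
        field_simp
      rw [e7, div_le_iff₀ (by positivity)] at e5
      linarith only [e5]
  -- double counting
  have hdc : ∑ p ∈ A', ((EL p).card : ℝ) = ∑ u ∈ UU, ((A'.filter (fun p => u ∈ EL p)).card : ℝ) := by
    have h1 := Finset.sum_card_bipartiteAbove_eq_sum_card_bipartiteBelow (s := A') (t := UU)
      (fun p u => u ∈ EL p)
    have h2 : ∀ p ∈ A', (Finset.bipartiteAbove (fun p u => u ∈ EL p) UU p) = EL p := by
      intro p hp
      ext u
      rw [Finset.mem_bipartiteAbove]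
      constructor
      · exact fun h => h.2
      · intro h
        exact ⟨Finset.mem_biUnion.mpr ⟨p, hp, h⟩, h⟩
    have h3 : ∑ p ∈ A', (EL p).card = ∑ p ∈ A', (Finset.bipartiteAbove (fun p u => u ∈ EL p) UU p).card :=
      Finset.sum_congr rfl (fun p hp => by rw [h2 p hp])
    have h4 : ∑ p ∈ A', (EL p).card = ∑ u ∈ UU, (A'.filter (fun p => u ∈ EL p)).card := by
      rw [h3, h1]
      rfl
    exact_mod_cast h4
  -- lower bound
  have hlow : 3 / 4 * (η * T / (2 * K * G)) * (Q / (4 * K)) ≤ ∑ p ∈ A', ((EL p).card : ℝ) := by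
    have h1 : ∑ _p ∈ A', (Q / (4 * K)) ≤ ∑ p ∈ A', ((EL p).card : ℝ) :=
      Finset.sum_le_sum (fun p hp => hELc p hp)
    rw [Finset.sum_const, nsmul_eq_mul] at h1
    exact le_trans (mul_le_mul_of_nonneg_right hA'c (by positivity)) h1
  -- upper bound
  set UF := UU.filter (fun u => T / 2 ≤ |u.1 - l.1|) with hUF
  set UN := UU.filter (fun u => ¬ (T / 2 ≤ |u.1 - l.1|)) with hUN
  have hsplit : ∑ u ∈ UU, (κ * (T / |u.1 - l.1|) + 1) =
      ∑ u ∈ UF, (κ * (T / |u.1 - l.1|) + 1) + ∑ u ∈ UN, (κ * (T / |u.1 - l.1|) + 1) :=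
    (Finset.sum_filter_add_sum_filter_not UU (fun u => T / 2 ≤ |u.1 - l.1|) _).symm
  have hμG0 : 0 < μ * G := by linarith only [hη0, hη1, hμG]
  have hUFc : (UF.card : ℝ) ≤ 2 * (Q * T) / (μ * G) + 1 := by
    apply card_lonely hnb hμG0 (by positivity)
    · intro u hu
      have := hUUP u (Finset.mem_filter.mp hu).1
      exact ⟨this.1, this.2.1.le⟩
    · intro u hu v hv
      have a1 := (hUUP u (Finset.mem_filter.mp hu).1).2.2.1
      have a2 := (hUUP v (Finset.mem_filter.mp hv).1).2.2.1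
      rw [abs_le] at *
      constructor <;> linarith
  have hUNc : (UN.card : ℝ) ≤ T / (μ * G) + 1 := by
    apply card_lonely hnb hμG0 (by positivity)
    · intro u hu
      have := hUUP u (Finset.mem_filter.mp hu).1
      exact ⟨this.1, this.2.1.le⟩
    · intro u hu v hv
      have a1 := (Finset.mem_filter.mp hu).2
      have a2 := (Finset.mem_filter.mp hv).2
      push Not at a1 a2
      rw [abs_lt] at a1 a2
      rw [abs_le]
      constructor <;> linarith
  have hsumF : ∑ u ∈ UF, (κ * (T / |u.1 - l.1|) + 1) ≤ 2 * (2 * (Q * T) / (μ * G) + 1) := by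
    have h1 : ∑ u ∈ UF, (κ * (T / |u.1 - l.1|) + 1) ≤ ∑ _u ∈ UF, (2 : ℝ) := by
      apply Finset.sum_le_sum
      intro u hu
      have a1 := (Finset.mem_filter.mp hu).2
      have a2 : T / |u.1 - l.1| ≤ 2 := by
        rw [div_le_iff₀ (by linarith only [hη0, hη1, hT1, a1])]; linarith only [a1]
      have : κ * (T / |u.1 - l.1|) ≤ 1 / 2 * 2 :=
        mul_le_mul hκhalf a2 (by positivity) (by norm_num)
      linarith only [this]
    rw [Finset.sum_const, nsmul_eq_mul] at h1
    linarith only [hUFc, h1]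
  have hr0 : 0 < r := by linarith only [hη0, hη1, hr]
  have hnear : ∑ u ∈ UN, T / |u.1 - l.1| ≤ 6 * (T / (c / 4 * G)) * (1 / (1 - 1 / r)) := by
    have hUN' : ∀ u ∈ UN, u ∈ UU ∧ |u.1 - l.1| < T / 2 := by
      intro u hu
      have := Finset.mem_filter.mp hu
      push Not at this
      exact this
    apply near_sum (rho nb) hr (by positivity) hT0
    · intro u hu v hv huv
      exact rho_le hnb (hUUP u (hUN' u hu).1).1 (hUUP v (hUN' v hv).1).1 (fun h => huv h.symm)
    · intro u hu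
      have a1 := hUUd u (hUN' u hu).1
      have a2 := (hUUP u (hUN' u hu).1).2.1
      linarith only [hη0, hη1, hμG, a1, a2]
    · intro u hu
      exact hUUd u (hUN' u hu).1
    · intro u hu
      linarith only [(hUN' u hu).2, hη0, hη1, hT1, hUN', hu]
    · intro u hu k hk
      obtain ⟨huU, hun⟩ := hUN' u hu
      obtain ⟨p, hp, hup⟩ := hUUm u huU
      obtain ⟨x1, x2, x3, x5⟩ := hUUP u huU
      have hs := hP.sep l hl u x1 (fun h => x5 h.symm)
      have hdpos : 0 < |u.1 - l.1| := by linarith only [hη0, hη1, hs]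
      have f1 := hslu p hp u hup
      have f2 : |sl l u - sl p l| ≤ w := by
        have : |sl l u - sl p l| * 1 ≤ |sl l u - sl p l| * |u.1 - l.1| :=
          mul_le_mul_of_nonneg_left hs (abs_nonneg _)
        linarith only [f1, this]
      have hrlμ : rho nb l ≤ μ * G := by
        have : G ≤ μ * G := le_mul_of_one_le_left (by linarith only [hG, hη0, hη1]) (by linarith only [hK, hη0, hη1, hμ])
        linarith only [hrl, this]
      have f3 := htrans p hp l hl (by rw [sub_self, abs_zero]; positivity) hrlμ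
      have f4 : c / 4 * H ≤ |sl l u - gr nb l| := by
        have t1 := abs_sub_le (sl p l) (sl l u) (gr nb l)
        rw [abs_sub_comm (sl p l) (sl l u)] at t1
        linarith only [hwc, hw0, f2, f3, t1]
      have f5 := IH l hl u x1 x5 (by linarith only [hun])
      have hmax : max (rho nb l) (rho nb u) = rho nb u := max_eq_right (by linarith only [x2, hrlμ])
      rw [hmax] at f5
      have hρ0 : 0 ≤ rho nb u := hrho0 u x1
      -- c/4 * V * G^100 * √T ≤ V * ρ^100 * √Δ
      have f6 : c / 4 * (V * G ^ 100 * √T) ≤ V * (rho nb u) ^ 100 * √|u.1 - l.1| := by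
        have : c / 4 * (V * G ^ 100 * √T) ≤ c / 4 * H :=
          mul_le_mul_of_nonneg_left hHV.le (by positivity)
        linarith only [f4, f5, this]
      have f7 : c / 4 * G ^ 100 * √T ≤ (rho nb u) ^ 100 * √|u.1 - l.1| := by
        have : V * (c / 4 * G ^ 100 * √T) ≤ V * ((rho nb u) ^ 100 * √|u.1 - l.1|) := by
          linarith only [f6]
        exact le_of_mul_le_mul_left this (by linarith only [hV, hη0, hη1])
      -- √T ≥ r^(100 k) √Δ
      have f8 : r ^ (100 * k) * √|u.1 - l.1| ≤ √T := by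
        apply Real.le_sqrt_of_sq_le
        rw [mul_pow, Real.sq_sqrt hdpos.le, ← pow_mul]
        have : r ^ (100 * k * 2) = 2 ^ k := by
          rw [show 100 * k * 2 = 200 * k by ring, pow_mul, hr200]
        rw [this]
        exact hk
      have hsΔ : 0 < √|u.1 - l.1| := Real.sqrt_pos.mpr hdpos
      have f9 : c / 4 * G ^ 100 * r ^ (100 * k) ≤ (rho nb u) ^ 100 := by
        have : c / 4 * G ^ 100 * r ^ (100 * k) * √|u.1 - l.1| ≤
            (rho nb u) ^ 100 * √|u.1 - l.1| := by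
          calc c / 4 * G ^ 100 * r ^ (100 * k) * √|u.1 - l.1|
              = c / 4 * G ^ 100 * (r ^ (100 * k) * √|u.1 - l.1|) := by ring
            _ ≤ c / 4 * G ^ 100 * √T := mul_le_mul_of_nonneg_left f8 (by positivity)
            _ ≤ _ := f7
        exact le_of_mul_le_mul_right this hsΔ
      have f10 : (c / 4 * G * r ^ k) ^ 100 ≤ (rho nb u) ^ 100 := by
        refine le_trans ?_ f9
        rw [mul_pow, mul_pow, ← pow_mul, mul_comm k 100]
        have : (c / 4) ^ 100 ≤ c / 4 := by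
          have h1 : (c / 4) ^ 100 ≤ (c / 4) ^ 1 :=
            pow_le_pow_of_le_one (by positivity) (by linarith only [hη0, hη1, hc1]) (by norm_num)
          simpa using h1
        gcongr
      exact le_of_pow_le_pow_left₀ (by norm_num) hρ0 f10
  have hsumN : ∑ u ∈ UN, (κ * (T / |u.1 - l.1|) + 1) ≤ 2 * (T / (μ * G)) + 1 := by
    have e1 : ∑ u ∈ UN, (κ * (T / |u.1 - l.1|) + 1) =
        κ * ∑ u ∈ UN, T / |u.1 - l.1| + UN.card := by
      rw [Finset.sum_add_distrib, Finset.mul_sum, Finset.sum_const, nsmul_eq_mul, mul_one]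
    rw [e1]
    have e2 : κ * ∑ u ∈ UN, T / |u.1 - l.1| ≤ κ * (6 * (T / (c / 4 * G)) * (1 / (1 - 1 / r))) :=
      mul_le_mul_of_nonneg_left hnear hκ0
    have e3 : κ * (6 * (T / (c / 4 * G)) * (1 / (1 - 1 / r))) ≤ T / (μ * G) := by
      have e4 : κ * (6 * (T / (c / 4 * G)) * (1 / (1 - 1 / r))) =
          (κ * (24 * μ * (1 / (1 - 1 / r)))) / c * (T / (μ * G)) := by
        field_simp
        ring
      rw [e4]
      have e5 : (κ * (24 * μ * (1 / (1 - 1 / r)))) / c ≤ 1 := by
        rw [div_le_one hc0]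
        exact hκ2
      calc (κ * (24 * μ * (1 / (1 - 1 / r)))) / c * (T / (μ * G)) ≤ 1 * (T / (μ * G)) :=
            mul_le_mul_of_nonneg_right e5 (by positivity)
        _ = T / (μ * G) := one_mul _
    linarith only [hUNc, e2, e3]
  have hup : ∑ u ∈ UU, ((A'.filter (fun p => u ∈ EL p)).card : ℝ) ≤
      2 * (2 * (Q * T) / (μ * G) + 1) + (2 * (T / (μ * G)) + 1) := by
    calc ∑ u ∈ UU, ((A'.filter (fun p => u ∈ EL p)).card : ℝ)
        ≤ ∑ u ∈ UU, (κ * (T / |u.1 - l.1|) + 1) := Finset.sum_le_sum hmult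
      _ ≤ _ := by rw [hsplit]; linarith only [hsumF, hsumN]
  -- final comparison
  rw [hdc] at hlow
  have hfin := hlow.trans hup
  set z := T / (μ * G) with hz
  have hz1 : 1 ≤ z := by rw [hz, le_div_iff₀ hμG0]; linarith only [hTμ]
  have g1 : 2 * (Q * T) / (μ * G) = 2 * Q * z := by rw [hz]; ring
  have g2 : 3 / 4 * (η * T / (2 * K * G)) * (Q / (4 * K)) = 3 / 32 * (μ * η / K ^ 2) * Q * z := by
    rw [hz]; field_simp; ring
  have g3 : 100 ≤ μ * η / K ^ 2 := by
    rw [le_div_iff₀ (by positivity)]; exact hμη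
  rw [g1, g2] at hfin
  have g4 : 3 / 32 * 100 * Q * z ≤ 3 / 32 * (μ * η / K ^ 2) * Q * z := by
    have : 0 ≤ Q * z := by positivity
    have g5 := mul_le_mul_of_nonneg_right g3 this
    linarith only [g5]
  have g6 := mul_le_mul_of_nonneg_right hQ28 (show 0 ≤ z by linarith only [hη0, hη1, hz1])
  linarith only [hη0, hη1, hfin, hz1, g4, g6]

end FT
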